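import Pool.Agent.J4.H5.UF.SU

set_option autoImplicit false

/-!
# The angle between the fixed vectors of two stabilizers
-/

namespace Pool.Agent.J4.H5.UF

open HermField

variable {E : Type} [HermField E]

theorem exists_smul_e2 {x : V E} (hx : h x x = 1) : ∃ g : SU E, g • (e 2 : V E) = x := by
  obtain ⟨g, -, hg⟩ := transitive_of_blocks (⊤ : Subgroup (SU E)) (fun _ _ _ => trivial)
    (fun _ _ _ => trivial) x hx
  exact ⟨g⁻¹, by rw [← hg, inv_smul_smul]⟩

/-- The finite set of all elements. -/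
noncomputable scoped instance instFintypeE : Fintype E := Fintype.ofFinite E

/-- The finite set of all elements. -/
noncomputable scoped instance instFintypeSU : Fintype (SU E) := Fintype.ofFinite (SU E)

theorem card_univ_E : (Finset.univ : Finset E).card = Q E ^ 2 := by
  rw [← card_eq (E := E), Nat.card_eq_fintype_card, Finset.card_univ]

open Classical in
/-- the unit sphere -/
noncomputable def S (E : Type) [HermField E] : Finset (V E) := Finset.univ.filter fun x => h x x = 1

theorem mem_S {x : V E} : x ∈ S E ↔ h x x = 1 := by simp [S]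

theorem smul_mem_S (g : SU E) {x : V E} : g • x ∈ S E ↔ x ∈ S E := by
  rw [mem_S, mem_S, SU.h_smul]

theorem e2_mem : (e 2 : V E) ∈ S E := by rw [mem_S, h_e]; simp

section count

open Classical in
/-- number of elements of given norm -/
theorem card_N_eq {v : E} (hv : bar v = v) (hv0 : v ≠ 0) :
    (Finset.univ.filter fun c : E => N c = v).card = Q E + 1 := by
  obtain ⟨c₀, hc₀⟩ := exists_N hv
  have hc0 : c₀ ≠ 0 := by
    rintro rfl
    rw [N_zero] at hc₀
    exact hv0 hc₀.symm
  rw [← card_N1f (E := E)]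
  refine Finset.card_nbij' (fun c => c / c₀) (fun t => t * c₀) ?_ ?_ ?_ ?_
  · intro c hc
    have hc' : N c = v := by simpa using hc
    rw [Finset.mem_coe, mem_N1f, N_div, hc', hc₀, div_self hv0]
  · intro t ht
    rw [Finset.mem_coe, mem_N1f] at ht
    simp only [Finset.coe_filter, Finset.mem_univ, true_and, Set.mem_ofPred_eq]
    rw [N_mul, ht, one_mul, hc₀]
  · intro c _
    simp only
    field_simp
  · intro t _
    simp only
    field_simp

open Classical in
/-- the number of the unit vectors orthogonal to a basis vector -/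
theorem card_perp : (Q E ^ 2 - 1) * Q E ≤ ((S E).filter fun x => h x (e 0) = 0).card := by
  have h1 : (Finset.univ.filter fun p : E × E => N p.1 + N p.2 = 1).card ≤
      ((S E).filter fun x => h x (e 0) = 0).card := by
    refine Finset.card_le_card_of_injOn (fun p => ![0, p.1, p.2]) ?_ ?_
    · intro p hp
      have hp' : N p.1 + N p.2 = 1 := by simpa using hp
      rw [Finset.mem_coe, Finset.mem_filter, mem_S, h_self, h_e_right]
      simp [hp']
    · intro p _ q _ hpq
      have h1 := congrFun hpq 1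
      have h2 := congrFun hpq 2
      simp at h1 h2
      exact Prod.ext h1 h2
  refine le_trans ?_ h1
  have h2 : (Finset.univ.filter fun p : E × E => N p.1 + N p.2 = 1).card =
      ∑ a : E, (Finset.univ.filter fun b : E => N a + N b = 1).card := by
    rw [Finset.card_filter, ← Finset.univ_product_univ, Finset.sum_product]
    refine Finset.sum_congr rfl fun a _ => ?_
    rw [Finset.card_filter]
  rw [h2]
  have h3 : ∀ a : E, (Finset.univ.filter fun b : E => N a + N b = 1).card =
      if N a = 1 then 1 else Q E + 1 := by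
    intro a
    split_ifs with ha
    · rw [Finset.card_eq_one]
      refine ⟨0, ?_⟩
      ext b
      simp [ha]
    · rw [← card_N_eq (v := 1 + N a) (by simp)]
      · congr 1
        ext b
        simp only [Finset.mem_filter, Finset.mem_univ, true_and]
        constructor
        · intro hb
          rw [← hb]
          have := add_self (N a)
          linear_combination -this
        · intro hb
          rw [hb]
          have := add_self (N a)
          linear_combination this
      · intro h0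
        apply ha
        rw [← neg_eq (N a)]
        exact (eq_neg_of_add_eq_zero_left h0).symm
  rw [Finset.sum_congr rfl fun a _ => h3 a]
  rw [← Finset.sum_filter_add_sum_filter_not Finset.univ (fun a : E => N a = 1)]
  have h4 : ∑ a ∈ Finset.univ.filter (fun a : E => N a = 1), (if N a = 1 then 1 else Q E + 1) =
      Q E + 1 := by
    rw [Finset.sum_congr rfl (g := fun _ => 1)
      (fun a ha => by rw [if_pos (Finset.mem_filter.1 ha).2])]
    rw [Finset.sum_const, smul_eq_mul, mul_one, card_N_eq (by simp) one_ne_zero]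
  have h5 : ∑ a ∈ Finset.univ.filter (fun a : E => ¬ N a = 1),
      (if N a = 1 then 1 else Q E + 1) = (Q E ^ 2 - (Q E + 1)) * (Q E + 1) := by
    rw [Finset.sum_congr rfl (g := fun _ => Q E + 1)
      (fun a ha => by rw [if_neg (Finset.mem_filter.1 ha).2])]
    rw [Finset.sum_const, smul_eq_mul]
    congr 1
    have h6 := Finset.card_filter_add_card_filter_not (s := (Finset.univ : Finset E))
      (p := fun a : E => N a = 1)
    rw [card_univ_E, card_N_eq (by simp) one_ne_zero] at h6
    omega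
  rw [h4, h5]
  have hQ : 4 ≤ Q E := four_le
  obtain ⟨n, hn⟩ : ∃ n, Q E = n + 2 := ⟨Q E - 2, by omega⟩
  have h6 : Q E ^ 2 - 1 = (n + 1) * (n + 3) := by
    rw [hn, Nat.sub_eq_iff_eq_add (by nlinarith)]; ring
  have h7 : Q E ^ 2 - (Q E + 1) = n ^ 2 + 3 * n + 1 := by
    rw [hn, Nat.sub_eq_iff_eq_add (by nlinarith)]; ring
  rw [h6, h7, hn]
  nlinarith

open Classical in
/-- number of the vectors orthogonal to the last basis vector and to a unit vector -/
theorem card_two_perp (x : V E) :
    (Finset.univ.filter fun z : V E => h (e 2) z = 0 ∧ h x z = 0).card =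
      if x 0 = 0 ∧ x 1 = 0 then Q E ^ 4 else Q E ^ 2 := by
  have h2 : ∀ z : V E, h (e 2) z = 0 ↔ z 2 = 0 := by
    intro z
    rw [← bar_h, h_e_right, bar_eq_zero]
  have hxz : ∀ z : V E, z 2 = 0 → (h x z = 0 ↔ x 0 * bar (z 0) + x 1 * bar (z 1) = 0) := by
    intro z hz
    simp [h, hz]
  split_ifs with h0
  · have h3 : (Finset.univ : Finset (E × E)).card = Q E ^ 4 := by
      rw [← Finset.univ_product_univ, Finset.card_product, card_univ_E]
      ring
    rw [← h3]
    refine Finset.card_nbij' (fun z => (z 0, z 1)) (fun p => ![p.1, p.2, 0]) ?_ ?_ ?_ ?_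
    · intro z _; simp
    · intro p _
      simp only [Finset.coe_filter, Finset.mem_univ, true_and, Set.mem_ofPred_eq]
      rw [h2]
      refine ⟨rfl, ?_⟩
      rw [hxz _ rfl]
      simp [h0.1, h0.2]
    · intro z hz
      simp only [Finset.coe_filter, Finset.mem_univ, true_and, Set.mem_ofPred_eq] at hz
      rw [h2] at hz
      funext j
      fin_cases j
      · rfl
      · rfl
      · exact hz.1.symm
    · intro p _; rfl
  · rw [← card_univ_E (E := E)]
    by_cases hx0 : x 0 = 0
    · have hx1 : x 1 ≠ 0 := fun hx1 => h0 ⟨hx0, hx1⟩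
      refine Finset.card_nbij' (fun z => z 0) (fun t => ![t, 0, 0]) ?_ ?_ ?_ ?_
      · intro z _; simp
      · intro t _
        simp only [Finset.coe_filter, Finset.mem_univ, true_and, Set.mem_ofPred_eq]
        rw [h2]
        refine ⟨rfl, ?_⟩
        rw [hxz _ rfl]
        simp [hx0]
      · intro z hz
        simp only [Finset.coe_filter, Finset.mem_univ, true_and, Set.mem_ofPred_eq] at hz
        rw [h2] at hz
        have h3 := (hxz z hz.1).1 hz.2
        rw [hx0, zero_mul, zero_add] at h3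
        have h4 : z 1 = 0 := by
          have := (mul_eq_zero.1 h3).resolve_left hx1
          simpa using this
        funext j
        fin_cases j
        · rfl
        · exact h4.symm
        · exact hz.1.symm
      · intro t _; rfl
    · refine Finset.card_nbij' (fun z => z 1) (fun t => ![bar (x 1 / x 0) * t, t, 0]) ?_ ?_ ?_ ?_
      · intro z _; simp
      · intro t _
        simp only [Finset.coe_filter, Finset.mem_univ, true_and, Set.mem_ofPred_eq]
        rw [h2]
        refine ⟨rfl, ?_⟩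
        rw [hxz _ rfl]
        simp only [Matrix.cons_val_zero, Matrix.cons_val_one, bar_mul, bar_bar]
        have h7 : x 0 * (x 1 / x 0 * bar t) = x 1 * bar t := by field_simp
        rw [h7]
        exact add_self (x 1 * bar t)
      · intro z hz
        simp only [Finset.coe_filter, Finset.mem_univ, true_and, Set.mem_ofPred_eq] at hz
        rw [h2] at hz
        have h3 := (hxz z hz.1).1 hz.2
        have h4 : bar (x 1 / x 0) * z 1 = z 0 := by
          have h5 := congrArg bar h3
          simp only [bar_add, bar_mul, bar_bar, bar_zero] at h5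
          have hb : bar (x 0) ≠ 0 := bar_ne_zero hx0
          rw [bar_div]
          field_simp
          have h6 := add_self (bar (x 0) * z 0)
          linear_combination h5 - h6
        funext j
        fin_cases j
        · exact h4
        · rfl
        · exact hz.1.symm
      · intro t _; rfl

open Classical in
theorem card_prop : ((S E).filter fun x : V E => x 0 = 0 ∧ x 1 = 0).card ≤ Q E + 1 := by
  rw [← card_N1f (E := E)]
  refine Finset.card_le_card_of_injOn (fun x : V E => x 2) ?_ ?_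
  · intro x hx
    rw [Finset.mem_coe, Finset.mem_filter, mem_S, h_self] at hx
    obtain ⟨h1, h2, h3⟩ := hx
    rw [h2, h3, N_zero, zero_add, zero_add] at h1
    rw [Finset.mem_coe, mem_N1f]
    exact h1
  · intro x hx y hy hxy
    rw [Finset.mem_coe, Finset.mem_filter] at hx hy
    funext j
    fin_cases j
    · exact hx.2.1.trans hy.2.1.symm
    · exact hx.2.2.trans hy.2.2.symm
    · exact hxy

end count

/-! ### The functions `φ` and `Φ` -/

section rep

variable {H : Type*} [NormedAddCommGroup H] [InnerProductSpace ℂ H] (π : SU E →* (H ≃ₗᵢ[ℂ] H))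

open Classical in
/-- the orbit map of a vector fixed by the stabilizer of `e 2` -/
noncomputable def phi (u : H) (x : V E) : H :=
  if hx : h x x = 1 then π (Classical.choose (exists_smul_e2 hx)) u else 0

variable {u : H} (hu : ∀ g : SU E, g • (e 2 : V E) = e 2 → π g u = u)

include hu

theorem phi_smul_e2 (g : SU E) : phi π u (g • (e 2 : V E)) = π g u := by
  have hx : h (g • (e 2 : V E)) (g • (e 2 : V E)) = 1 := by rw [SU.h_smul, h_e]; simp
  rw [phi, dif_pos hx]
  set k := Classical.choose (exists_smul_e2 hx) with hk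
  have hk' : k • (e 2 : V E) = g • e 2 := Classical.choose_spec (exists_smul_e2 hx)
  have h1 : (g⁻¹ * k) • (e 2 : V E) = e 2 := by rw [mul_smul, hk', inv_smul_smul]
  have h2 := hu _ h1
  have h3 : k = g * (g⁻¹ * k) := by group
  conv_lhs => rw [h3, map_mul]
  change π g (π (g⁻¹ * k) u) = π g u
  rw [h2]

theorem phi_smul (g : SU E) {x : V E} (hx : x ∈ S E) : phi π u (g • x) = π g (phi π u x) := by
  obtain ⟨k, rfl⟩ := exists_smul_e2 (mem_S.1 hx)
  rw [← mul_smul, phi_smul_e2 π hu, phi_smul_e2 π hu, map_mul]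
  rfl

theorem norm_phi {x : V E} (hx : x ∈ S E) : ‖phi π u x‖ = ‖u‖ := by
  obtain ⟨k, rfl⟩ := exists_smul_e2 (mem_S.1 hx)
  rw [phi_smul_e2 π hu, LinearIsometryEquiv.norm_map]

omit hu in
open Classical in
/-- the inner product of a vector with itself -/
theorem inner_self_eq_ofReal_sq (x : H) : inner ℂ x x = ((‖x‖ : ℝ) : ℂ) ^ 2 :=
  inner_self_eq_norm_sq_to_K x

omit hu in
open Classical in
/-- the sums over hyperplanes -/
noncomputable def Phi (u : H) (z : V E) : H := ∑ x ∈ S E, if h x z = 0 then phi π u x else 0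

omit hu in
theorem sum_smul_S {M : Type*} [AddCommMonoid M] (g : SU E) (f : V E → M) :
    ∑ x ∈ S E, f (g • x) = ∑ x ∈ S E, f x := by
  classical
  refine Finset.sum_nbij' (fun x => g • x) (fun x => g⁻¹ • x) ?_ ?_ ?_ ?_ ?_
  · intro x hx; exact (smul_mem_S g).2 hx
  · intro x hx; exact (smul_mem_S g⁻¹).2 hx
  · intro x _; exact inv_smul_smul _ _
  · intro x _; exact smul_inv_smul _ _
  · intro x _; rfl

theorem Phi_smul (g : SU E) (z : V E) : Phi π u (g • z) = π g (Phi π u z) := by
  classical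
  rw [Phi, ← sum_smul_S g, Phi, map_sum]
  refine Finset.sum_congr rfl fun x hx => ?_
  rw [SU.h_smul, phi_smul π hu g hx]
  split_ifs
  · rfl
  · rw [map_zero]

theorem norm_Phi {y : V E} (hy : y ∈ S E) : ‖Phi π u y‖ = ‖Phi π u (e 2)‖ := by
  obtain ⟨k, rfl⟩ := exists_smul_e2 (mem_S.1 hy)
  rw [Phi_smul π hu, LinearIsometryEquiv.norm_map]

open Classical in
/-- the sum over the sphere vanishes -/
theorem sum_phi (hsum : ∑ g : SU E, π g u = 0) : ∑ x ∈ S E, phi π u x = 0 := by
  set s := ∑ x ∈ S E, phi π u x with hs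
  have h1 : ∀ g : SU E, π g s = s := by
    intro g
    rw [hs, map_sum, ← sum_smul_S g (phi π u)]
    exact Finset.sum_congr rfl fun x hx => (phi_smul π hu g hx).symm
  have h2 : ∑ g : SU E, π g s = 0 := by
    rw [hs]
    simp only [map_sum]
    rw [Finset.sum_comm]
    refine Finset.sum_eq_zero fun x hx => ?_
    obtain ⟨k, rfl⟩ := exists_smul_e2 (mem_S.1 hx)
    rw [phi_smul_e2 π hu]
    rw [← hsum]
    exact Fintype.sum_equiv (Equiv.mulRight k) _ _ fun g => by
      simp only [Equiv.coe_mulRight, map_mul]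
      rfl
  simp only [h1, Finset.sum_const, Finset.card_univ] at h2
  have h3 : (Fintype.card (SU E) : ℕ) ≠ 0 := Fintype.card_ne_zero
  have h4 : ((Fintype.card (SU E) : ℕ) : ℂ) • s = 0 := by
    rw [Nat.cast_smul_eq_nsmul]
    exact h2
  exact (smul_eq_zero.1 h4).resolve_left (by exact_mod_cast h3)

open Classical in
/-- the sum of the values of `Φ` over the hyperplane orthogonal to `e 2` -/
theorem sum_Phi_perp (hsum : ∑ g : SU E, π g u = 0) :
    ∑ z ∈ Finset.univ.filter (fun z : V E => h (e 2) z = 0), Phi π u z =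
      ((Q E : ℂ) ^ 4 - (Q E : ℂ) ^ 2) •
        ∑ x ∈ (S E).filter (fun x => x 0 = 0 ∧ x 1 = 0), phi π u x := by
  have h1 : ∑ z ∈ Finset.univ.filter (fun z : V E => h (e 2) z = 0), Phi π u z =
      ∑ x ∈ S E, ((Q E : ℂ) ^ 2 • phi π u x +
        if x 0 = 0 ∧ x 1 = 0 then ((Q E : ℂ) ^ 4 - (Q E : ℂ) ^ 2) • phi π u x else 0) := by
    simp only [Phi]
    rw [Finset.sum_comm]
    refine Finset.sum_congr rfl fun x _ => ?_
    rw [← Finset.sum_filter, Finset.filter_filter, Finset.sum_const, card_two_perp]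
    split_ifs with h0
    · rw [← Nat.cast_smul_eq_nsmul ℂ, ← add_smul]
      congr 1
      push_cast
      ring
    · rw [← Nat.cast_smul_eq_nsmul ℂ, add_zero]
      congr 1
      push_cast
      ring
  rw [h1, Finset.sum_add_distrib, ← Finset.smul_sum, sum_phi π hu hsum, smul_zero, zero_add,
    ← Finset.sum_filter, Finset.smul_sum]

open Classical in
theorem sum_norm_sq (hsum : ∑ g : SU E, π g u = 0) :
    ∑ z : V E, ‖Phi π u z‖ ^ 2 ≤
      (S E).card * (((Q E : ℝ) ^ 4 - (Q E : ℝ) ^ 2) * (Q E + 1) * ‖u‖ ^ 2) := by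
  have h1 : ((∑ z : V E, ‖Phi π u z‖ ^ 2 : ℝ) : ℂ) =
      (S E).card * inner ℂ u
        (∑ z ∈ Finset.univ.filter (fun z : V E => h (e 2) z = 0), Phi π u z) := by
    push_cast
    have h2 : ∀ z : V E, ((‖Phi π u z‖ : ℝ) : ℂ) ^ 2 =
        ∑ x ∈ S E, if h x z = 0 then inner ℂ (phi π u x) (Phi π u z) else 0 := by
      intro z
      rw [← inner_self_eq_ofReal_sq]
      conv_lhs => rw [Phi, sum_inner]
      refine Finset.sum_congr rfl fun x _ => ?_
      split_ifs
      · rfl
      · rw [inner_zero_left]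
    rw [Finset.sum_congr rfl fun z _ => h2 z, Finset.sum_comm]
    rw [Finset.sum_congr rfl (g := fun _ => inner ℂ u
        (∑ z ∈ Finset.univ.filter (fun z : V E => h (e 2) z = 0), Phi π u z))]
    · rw [Finset.sum_const, nsmul_eq_mul]
    · intro x hx
      obtain ⟨k, rfl⟩ := exists_smul_e2 (mem_S.1 hx)
      rw [← Finset.sum_filter, inner_sum, phi_smul_e2 π hu]
      refine Finset.sum_nbij' (fun z => k⁻¹ • z) (fun z => k • z) ?_ ?_ ?_ ?_ ?_
      · intro z hz
        have hz' : h (k • e 2) z = 0 := by simpa using hz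
        rw [Finset.mem_filter]
        refine ⟨Finset.mem_univ _, ?_⟩
        rw [← SU.h_smul k, smul_inv_smul]
        exact hz'
      · intro z hz
        have hz' : h (e 2) z = 0 := by simpa using hz
        rw [Finset.mem_filter]
        refine ⟨Finset.mem_univ _, ?_⟩
        rw [SU.h_smul]
        exact hz'
      · intro z _; exact smul_inv_smul _ _
      · intro z _; exact inv_smul_smul _ _
      · intro z _
        obtain ⟨z', rfl⟩ : ∃ z', z = k • z' := ⟨k⁻¹ • z, (smul_inv_smul _ _).symm⟩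
        rw [inv_smul_smul, Phi_smul π hu, LinearIsometryEquiv.inner_map_map]
  have h2 : (∑ z : V E, ‖Phi π u z‖ ^ 2 : ℝ) = ‖((∑ z : V E, ‖Phi π u z‖ ^ 2 : ℝ) : ℂ)‖ := by
    rw [Complex.norm_real, Real.norm_of_nonneg]
    exact Finset.sum_nonneg fun z _ => sq_nonneg _
  rw [h2, h1, norm_mul, Complex.norm_natCast]
  refine mul_le_mul_of_nonneg_left ?_ (Nat.cast_nonneg _)
  rw [sum_Phi_perp π hu hsum]
  refine (norm_inner_le_norm _ _).trans ?_
  rw [norm_smul]
  have hQ : (4 : ℝ) ≤ Q E := by exact_mod_cast (four_le : 4 ≤ Q E)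
  have h3 : ‖((Q E : ℂ) ^ 4 - (Q E : ℂ) ^ 2)‖ = (Q E : ℝ) ^ 4 - (Q E : ℝ) ^ 2 := by
    have h4 : ((Q E : ℂ) ^ 4 - (Q E : ℂ) ^ 2) = (((Q E : ℝ) ^ 4 - (Q E : ℝ) ^ 2 : ℝ) : ℂ) := by
      push_cast; ring
    rw [h4, Complex.norm_real, Real.norm_of_nonneg]
    have h5 : 0 ≤ (Q E : ℝ) ^ 2 * ((Q E : ℝ) ^ 2 - 1) :=
      mul_nonneg (sq_nonneg _) (by nlinarith)
    linarith
  have h4 : ‖∑ x ∈ (S E).filter (fun x => x 0 = 0 ∧ x 1 = 0), phi π u x‖ ≤ (Q E + 1) * ‖u‖ := by
    refine (norm_sum_le _ _).trans ?_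
    rw [Finset.sum_congr rfl fun x hx => norm_phi π hu (Finset.mem_filter.1 hx).1,
      Finset.sum_const, nsmul_eq_mul]
    refine mul_le_mul_of_nonneg_right ?_ (norm_nonneg _)
    exact_mod_cast card_prop (E := E)
  rw [h3]
  have h5 : 0 ≤ (Q E : ℝ) ^ 4 - (Q E : ℝ) ^ 2 := by
    rw [← h3]; exact norm_nonneg _
  calc ‖u‖ * (((Q E : ℝ) ^ 4 - (Q E : ℝ) ^ 2) *
        ‖∑ x ∈ (S E).filter (fun x => x 0 = 0 ∧ x 1 = 0), phi π u x‖)
      ≤ ‖u‖ * (((Q E : ℝ) ^ 4 - (Q E : ℝ) ^ 2) * ((Q E + 1) * ‖u‖)) := by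
        gcongr
    _ = _ := by ring

omit hu in
open Classical in
/-- the vectors of different norms -/
theorem sum_sphere_le (f : V E → ℝ) (hf : ∀ z, 0 ≤ f z)
    (hf' : ∀ (c : E) (z : V E), c ≠ 0 → f (c • z) = f z) :
    ((Q E : ℝ) - 1) * ∑ y ∈ S E, f y ≤ ∑ z : V E, f z := by
  let K : Finset E := Finset.univ.filter fun v => bar v = v ∧ v ≠ 0
  have hK : ((K.card : ℕ) : ℝ) = (Q E : ℝ) - 1 := by
    have h1 : (Finset.univ.filter fun v : E => bar v = v).card = Q E := by
      rw [← card_fixed (E := E), Nat.card_eq_fintype_card, Fintype.card_subtype]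
    have h2 : K = (Finset.univ.filter fun v : E => bar v = v).erase 0 := by
      ext v
      simp [K, and_comm]
    have h3 : K.card = Q E - 1 := by
      rw [h2, Finset.card_erase_of_mem (by simp), h1]
    have hQ : 4 ≤ Q E := four_le
    rw [h3, Nat.cast_sub (by omega)]
    simp
  have hc : ∀ v : E, ∃ c : E, v ∈ K → N c = v := by
    intro v
    by_cases hv : v ∈ K
    · obtain ⟨c, hc⟩ := exists_N (Finset.mem_filter.1 hv).2.1
      exact ⟨c, fun _ => hc⟩
    · exact ⟨0, fun h => absurd h hv⟩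
  choose c hc using hc
  have hc0 : ∀ v ∈ K, c v ≠ 0 := by
    intro v hv h0
    have h1 := hc v hv
    rw [h0, N_zero] at h1
    exact (Finset.mem_filter.1 hv).2.2 h1.symm
  have hinj : Set.InjOn (fun p : E × V E => c p.1 • p.2) (K ×ˢ S E : Finset (E × V E)) := by
    rintro ⟨v, x⟩ hp ⟨v', x'⟩ hp' heq
    rw [Finset.mem_coe, Finset.mem_product] at hp hp'
    simp only at hp hp' heq
    have h1 := congrArg (fun z => h z z) heq
    simp only [h_smul_left, h_smul_right, mem_S.1 hp.2, mem_S.1 hp'.2, mul_one] at h1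
    have h2 : v = v' := by
      rw [← hc v hp.1, ← hc v' hp'.1, N_def, N_def, mul_comm, h1, mul_comm]
    subst h2
    have h3 : x = x' := by
      have := smul_right_injective (V E) (hc0 v hp.1) heq
      exact this
    rw [h3]
  calc ((Q E : ℝ) - 1) * ∑ y ∈ S E, f y = ∑ v ∈ K, ∑ y ∈ S E, f (c v • y) := by
        rw [← hK]
        rw [← nsmul_eq_mul, ← Finset.sum_const]
        refine Finset.sum_congr rfl fun v hv => ?_
        exact Finset.sum_congr rfl fun y _ => (hf' _ _ (hc0 v hv)).symm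
    _ = ∑ p ∈ K ×ˢ S E, f (c p.1 • p.2) := by rw [Finset.sum_product]
    _ = ∑ z ∈ (K ×ˢ S E).image (fun p => c p.1 • p.2), f z := (Finset.sum_image hinj).symm
    _ ≤ ∑ z : V E, f z := Finset.sum_le_univ_sum_of_nonneg hf

omit hu in
theorem Phi_smul_scalar (c : E) (z : V E) (hc : c ≠ 0) : Phi π u (c • z) = Phi π u z := by
  classical
  rw [Phi, Phi]
  refine Finset.sum_congr rfl fun x _ => ?_
  have h1 : h x (c • z) = 0 ↔ h x z = 0 := by
    rw [h_smul_right]
    simp [hc]
  simp only [h1]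

/-- the norm of `Φ` on the sphere -/
theorem norm_Phi_le (hsum : ∑ g : SU E, π g u = 0) :
    ‖Phi π u (e 2)‖ ≤ Q E * (Q E + 1) * ‖u‖ := by
  classical
  have h1 := sum_sphere_le (fun z => ‖Phi π u z‖ ^ 2) (fun z => sq_nonneg _)
    (fun c z hc => by rw [Phi_smul_scalar π c z hc])
  have h2 := h1.trans (sum_norm_sq π hu hsum)
  rw [Finset.sum_congr rfl fun y hy => by rw [norm_Phi π hu hy], Finset.sum_const,
    nsmul_eq_mul] at h2
  have hS : (0 : ℝ) < (S E).card := by
    exact_mod_cast Finset.card_pos.2 ⟨_, e2_mem⟩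
  have hQ : (4 : ℝ) ≤ Q E := by exact_mod_cast (four_le : 4 ≤ Q E)
  have h3 : ((Q E : ℝ) - 1) * ‖Phi π u (e 2)‖ ^ 2 ≤
      ((Q E : ℝ) ^ 4 - (Q E : ℝ) ^ 2) * (Q E + 1) * ‖u‖ ^ 2 := by
    have h4 : (S E).card * (((Q E : ℝ) - 1) * ‖Phi π u (e 2)‖ ^ 2) ≤
        (S E).card * (((Q E : ℝ) ^ 4 - (Q E : ℝ) ^ 2) * (Q E + 1) * ‖u‖ ^ 2) := by
      calc _ = ((Q E : ℝ) - 1) * (((S E).card : ℝ) * ‖Phi π u (e 2)‖ ^ 2) := by ring
        _ ≤ _ := h2
    exact le_of_mul_le_mul_left h4 hS
  have h5 : ‖Phi π u (e 2)‖ ^ 2 ≤ (Q E * (Q E + 1) * ‖u‖) ^ 2 := by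
    have h6 : ((Q E : ℝ) - 1) * ‖Phi π u (e 2)‖ ^ 2 ≤
        ((Q E : ℝ) - 1) * (Q E * (Q E + 1) * ‖u‖) ^ 2 := by
      calc _ ≤ _ := h3
        _ = _ := by ring
    exact le_of_mul_le_mul_left h6 (by linarith)
  exact le_of_sq_le_sq h5 (by positivity)

open Classical in
/-- **The angle between the fixed vectors of the stabilizers of `e 2` and of `e 0`.** -/
theorem angle (hsum : ∑ g : SU E, π g u = 0) {w : H}
    (hw : ∀ g : SU E, g • (e 0 : V E) = e 0 → π g w = w) :
    ((Q E : ℝ) - 1) * ‖inner ℂ u w‖ ≤ ‖u‖ * ‖w‖ := by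
  set D := ((S E).filter fun x => h x (e 0) = 0).card with hD
  have hD' : (Q E ^ 2 - 1) * Q E ≤ D := card_perp
  have h1 : (D : ℂ) * inner ℂ u w = inner ℂ (Phi π u (e 0)) w := by
    rw [Phi, sum_inner]
    have h2 : ∀ x ∈ S E, inner ℂ (if h x (e 0) = 0 then phi π u x else 0) w =
        if h x (e 0) = 0 then inner ℂ u w else 0 := by
      intro x hx
      split_ifs with hx0
      · rw [h_e_right] at hx0
        have hxn := mem_S.1 hx
        rw [h_self, hx0, N_zero, zero_add] at hxn
        have hab : N (bar (x 2)) + N (x 1) = 1 := by rw [N_bar, add_comm, hxn]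
        have hb : M12 (bar (x 2)) (x 1) hab • (e 2 : V E) = x := by
          rw [M12_smul]
          funext j
          fin_cases j <;> simp [e, hx0]
        have hb0 : M12 (bar (x 2)) (x 1) hab • (e 0 : V E) = e 0 := by
          rw [M12_smul]
          funext j
          fin_cases j <;> simp [e]
        rw [← hb, phi_smul_e2 π hu]
        conv_lhs => rw [← hw _ hb0]
        rw [LinearIsometryEquiv.inner_map_map]
      · rw [inner_zero_left]
    rw [Finset.sum_congr rfl h2, ← Finset.sum_filter, Finset.sum_const, nsmul_eq_mul]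
  have h2 : (D : ℝ) * ‖inner ℂ u w‖ ≤ Q E * (Q E + 1) * ‖u‖ * ‖w‖ := by
    calc (D : ℝ) * ‖inner ℂ u w‖ = ‖(D : ℂ) * inner ℂ u w‖ := by
          rw [norm_mul, Complex.norm_natCast]
      _ ≤ ‖Phi π u (e 0)‖ * ‖w‖ := by rw [h1]; exact norm_inner_le_norm _ _
      _ ≤ _ := by
          have h3 : ‖Phi π u (e 0)‖ = ‖Phi π u (e 2)‖ := norm_Phi π hu (by rw [mem_S, h_e]; simp)
          rw [h3]
          exact mul_le_mul_of_nonneg_right (norm_Phi_le π hu hsum) (norm_nonneg _)
  have hQ : (4 : ℝ) ≤ Q E := by exact_mod_cast (four_le : 4 ≤ Q E)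
  have hQ' : 4 ≤ Q E := four_le
  have h3 : ((Q E : ℝ) ^ 2 - 1) * Q E ≤ D := by
    have : (((Q E ^ 2 - 1) * Q E : ℕ) : ℝ) ≤ D := by exact_mod_cast hD'
    rw [Nat.cast_mul, Nat.cast_sub (by nlinarith)] at this
    simpa using this
  have h4 : (Q E * (Q E + 1) : ℝ) * (((Q E : ℝ) - 1) * ‖inner ℂ u w‖) ≤
      (Q E * (Q E + 1) : ℝ) * (‖u‖ * ‖w‖) := by
    calc (Q E * (Q E + 1) : ℝ) * (((Q E : ℝ) - 1) * ‖inner ℂ u w‖)
        = ((Q E : ℝ) ^ 2 - 1) * Q E * ‖inner ℂ u w‖ := by ring
      _ ≤ D * ‖inner ℂ u w‖ := mul_le_mul_of_nonneg_right h3 (norm_nonneg _)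
      _ ≤ _ := h2
      _ = _ := by ring
  exact le_of_mul_le_mul_left h4 (by positivity)

end rep

end Pool.Agent.J4.H5.UF
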