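import Pool.Agent.J4.H5.UF.Simple

set_option autoImplicit false

/-!
# A group with property (T) mapping onto infinitely many unitary groups
-/

namespace Pool.Agent.J4.H5.UF

open HermField MulAction

section hom

variable {F E : Type} [HermField F] [HermField E]

theorem mem_SU_of_basis {g : SL E}
    (hg : ∀ i j, h (g • (e i : V E)) (g • e j) = if i = j then 1 else 0) : g ∈ SU E := by
  rw [mem_SU]
  intro v w
  have hx : ∀ v : V E, g • v = v 0 • (g • (e 0 : V E)) + v 1 • (g • (e 1 : V E)) +
      v 2 • (g • (e 2 : V E)) := by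
    intro v
    conv_lhs => rw [eq_sum v]
    rw [smul_add, smul_add, smul_comm g, smul_comm g, smul_comm g]
  rw [hx v, hx w]
  simp only [h_add_left, h_add_right, h_smul_left, h_smul_right, hg]
  simp [h]
  ring

/-- the map of unitary groups attached to a map of fields -/
def mapSU (ι : F →+* E) (hι : ∀ x, ι (bar x) = bar (ι x)) : SU F →* SU E where
  toFun g := ⟨Matrix.SpecialLinearGroup.map ι g.1, by
    apply mem_SU_of_basis
    intro i j
    have h1 : ∀ i k, ((Matrix.SpecialLinearGroup.map ι g.1 : SL E) • (e i : V E)) k =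
        ι ((g • (e i : V F)) k) := by
      intro i k
      have h2 : (g • (e i : V F)) k = g.1.1 k i := smul_e g.1 i k
      rw [smul_e, h2]
      rfl
    have h3 := SU.h_smul g (e i) (e j)
    rw [h_e] at h3
    have h4 := congrArg ι h3
    rw [h] at h4 ⊢
    simp only [h1]
    simp only [map_add, map_mul, hι] at h4
    rw [h4]
    split_ifs <;> simp⟩
  map_one' := by
    apply Subtype.ext
    simp
  map_mul' a b := by
    apply Subtype.ext
    simp

variable (ι : F →+* E) (hι : ∀ x, ι (bar x) = bar (ι x))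

theorem mapSU_smul_e (g : SU F) (i k : Fin 3) :
    (mapSU ι hι g • (e i : V E)) k = ι ((g • (e i : V F)) k) := by
  have h2 : (g • (e i : V F)) k = g.1.1 k i := smul_e g.1 i k
  have h3 : (mapSU ι hι g • (e i : V E)) k = (mapSU ι hι g).1.1 k i := smul_e _ i k
  rw [h2, h3]
  rfl

theorem mapSU_fix {g : SU F} {i : Fin 3} (hg : g • (e i : V F) = e i) :
    mapSU ι hι g • (e i : V E) = e i := by
  funext k
  rw [mapSU_smul_e, hg]
  simp only [e, Pi.single_apply]
  split_ifs <;> simp

theorem map_N (hι : ∀ x, ι (bar x) = bar (ι x)) (x : F) : N (ι x) = ι (N x) := by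
  rw [N_def, N_def, map_mul, hι]

include hι in
theorem ok_map {a b : F} (hab : N a + N b = 1) : N (ι a) + N (ι b) = 1 := by
  rw [map_N ι hι, map_N ι hι, ← map_add, hab, map_one]

theorem mapSU_M01 {a b : F} (hab : N a + N b = 1) :
    mapSU ι hι (M01 a b hab) = M01 (ι a) (ι b) (ok_map ι hι hab) := by
  apply SU.ext_e
  intro i
  funext k
  rw [mapSU_smul_e, M01_smul, M01_smul]
  fin_cases i <;> fin_cases k <;> simp [e, hι]

theorem mapSU_M12 {a b : F} (hab : N a + N b = 1) :
    mapSU ι hι (M12 a b hab) = M12 (ι a) (ι b) (ok_map ι hι hab) := by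
  apply SU.ext_e
  intro i
  funext k
  rw [mapSU_smul_e, M12_smul, M12_smul]
  fin_cases i <;> fin_cases k <;> simp [e, hι]

end hom

section diag

variable {E : Type} [HermField E]

/-- diagonal elements -/
def dg (a b c : E) (ha : N a = 1) (hb : N b = 1) (hc : N c = 1) (habc : a * b * c = 1) : SU E :=
  ⟨⟨!![a, 0, 0; 0, b, 0; 0, 0, c], by simp [Matrix.det_fin_three, habc]⟩, by
    rw [mem_SU]
    intro v w
    simp only [h, sl_smul_apply, bar_add, bar_mul]
    simp only [Matrix.of_apply, Matrix.cons_val', Matrix.cons_val_zero, Matrix.cons_val_one,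
      Matrix.cons_val, bar_zero]
    rw [N_def] at ha hb hc
    linear_combination v 0 * bar (w 0) * ha + v 1 * bar (w 1) * hb + v 2 * bar (w 2) * hc⟩

theorem dg_smul {a b c : E} {ha : N a = 1} {hb : N b = 1} {hc : N c = 1} {habc : a * b * c = 1}
    (v : V E) : dg a b c ha hb hc habc • v = ![a * v 0, b * v 1, c * v 2] := by
  funext i
  change (((dg a b c ha hb hc habc).1 : SL E) • v) i = _
  rw [sl_smul_apply]
  fin_cases i <;> simp [dg]

/-- an element fixing a basis vector commutes with certain elements -/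
theorem comm_of {D g : SU E} {i : Fin 3} {a c : E} (hD : ∀ x : V E, x i = 0 → D • x = a • x)
    (hDi : D • (e i : V E) = c • e i) (hg : g • (e i : V E) = e i) : D * g = g * D := by
  apply SU.ext_e
  intro j
  rw [mul_smul, mul_smul]
  by_cases hij : j = i
  · subst hij
    rw [hg, hDi, smul_comm, hg]
  · have h1 : (g • (e j : V E)) i = 0 := by
      rw [← h_e_right (g • (e j : V E)) i]
      conv_lhs => rw [← hg]
      rw [SU.h_smul, h_e, if_neg hij]
    have h2 : (e j : V E) i = 0 := by
      simp only [e, Pi.single_apply]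
      rw [if_neg (fun h => hij h.symm)]
    rw [hD _ h1, hD _ h2, smul_comm g]

theorem cube_ok {x : E} (hx : N x = 1) : N (x ^ 2) = 1 := by
  rw [sq, N_mul, hx, one_mul]

theorem bar_ok {x : E} (hx : N x = 1) : N (bar x) = 1 := by rw [N_bar, hx]

/-- the first twist: a multiple of `diag (1, 1, ξ ^ 3)` -/
def D2 (x : E) (hx : N x = 1) : SU E :=
  dg (bar x) (bar x) (x ^ 2) (bar_ok hx) (bar_ok hx) (cube_ok hx) (by
    rw [N_def] at hx
    linear_combination (x * bar x + 1) * hx)

/-- the second twist: a multiple of `diag (ξ ^ (-3), 1, 1)` -/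
def D1 (x : E) (hx : N x = 1) : SU E :=
  dg (bar x ^ 2) x x (cube_ok (bar_ok hx)) hx hx (by
    rw [N_def] at hx
    linear_combination (x * bar x + 1) * hx)

theorem D2_comm {x : E} {hx : N x = 1} {g : SU E} (hg : g • (e 2 : V E) = e 2) :
    D2 x hx * g = g * D2 x hx := by
  refine comm_of (i := 2) (a := bar x) (c := x ^ 2) ?_ ?_ hg
  · intro v hv
    rw [D2, dg_smul]
    funext j
    fin_cases j <;> simp [hv]
  · rw [D2, dg_smul]
    funext j
    fin_cases j <;> simp [e]

theorem D1_comm {x : E} {hx : N x = 1} {g : SU E} (hg : g • (e 0 : V E) = e 0) :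
    D1 x hx * g = g * D1 x hx := by
  refine comm_of (i := 0) (a := x) (c := bar x ^ 2) ?_ ?_ hg
  · intro v hv
    rw [D1, dg_smul]
    funext j
    fin_cases j <;> simp [hv]
  · rw [D1, dg_smul]
    funext j
    fin_cases j <;> simp [e]

theorem D12_comm {x : E} {hx : N x = 1} {g : SU E} (hg : g • (e 1 : V E) = e 1) :
    ((D1 x hx)⁻¹ * D2 x hx) * g = g * ((D1 x hx)⁻¹ * D2 x hx) := by
  have hx0 : x ≠ 0 := by
    rintro rfl
    simp at hx
  have hinv : ∀ v : V E, (D1 x hx)⁻¹ • v = ![x ^ 2 * v 0, bar x * v 1, bar x * v 2] := by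
    intro v
    rw [inv_smul_eq_iff, D1, dg_smul]
    rw [N_def] at hx
    funext j
    fin_cases j
    · simp
      linear_combination (-v 0 * (x * bar x + 1)) * hx
    · simp
      linear_combination (-v 1) * hx
    · simp
      linear_combination (-v 2) * hx
  refine comm_of (i := 1) (a := x) (c := bar x ^ 2) ?_ ?_ hg
  · intro v hv
    rw [mul_smul, hinv, D2, dg_smul]
    rw [N_def] at hx
    funext j
    fin_cases j
    · simp
      linear_combination (x * v 0) * hx
    · simp [hv]
    · simp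
      linear_combination (x * v 2) * hx
  · rw [mul_smul, hinv, D2, dg_smul]
    funext j
    fin_cases j
    · simp [e]
    · simp [e, sq]
    · simp [e]

end diag

/-! ### surjectivity -/

section surj

variable {F E : Type} [HermField F] [HermField E] (ι : F →+* E) (hι : ∀ x, ι (bar x) = bar (ι x))

theorem T01_pow {x : E} (hx : N x = 1) {H : Subgroup (SU E)} (hT : T01 x hx ∈ H) (n : ℕ)
    (hn : N (x ^ n) = 1) : T01 (x ^ n) hn ∈ H := by
  induction n with
  | zero =>
    have : T01 (x ^ 0) hn = 1 := by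
      rw [T01]
      apply SU.ext_e
      intro i
      rw [M01_smul, one_smul]
      funext j
      fin_cases i <;> fin_cases j <;> simp [e]
    rw [this]
    exact H.one_mem
  | succ n ih =>
    have hn' : N (x ^ n) = 1 := by
      have h0 : ∀ n, N (x ^ n) = 1 := by
        intro n
        induction n with
        | zero => simp
        | succ n ih => rw [pow_succ, N_mul, ih, hx, one_mul]
      exact h0 n
    have h1 := H.mul_mem (ih hn') hT
    rw [T01, T01, M01_mul] at h1
    rw [T01]
    convert h1 using 1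
    apply M01_congr
    · rw [pow_succ]; simp
    · simp

/-- **Surjectivity.** -/
theorem surj {ξ : E} (hξ : N ξ = 1) (hgen : ∀ x : E, N x = 1 → ∃ n : ℕ, x = (ξ ^ 3) ^ n)
    (H : Subgroup (SU E)) (h0 : ∀ g : SU F, mapSU ι hι g ∈ H)
    (h2 : ∀ g : SU F, D2 ξ hξ * mapSU ι hι g * (D2 ξ hξ)⁻¹ ∈ H) : H = ⊤ := by
  have hξ0 : ξ ≠ 0 := by
    rintro rfl
    simp at hξ
  have s01 : (sw01 : SU E) ∈ H := by
    have h1 := h0 (M01 0 1 sw_ok)
    rw [mapSU_M01] at h1
    have h2 : (sw01 : SU E) = M01 (ι 0) (ι 1) (ok_map ι hι sw_ok) := by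
      rw [sw01]
      exact M01_congr (map_zero ι).symm (map_one ι).symm
    rw [h2]
    exact h1
  have e12 : (sw12 : SU E) = mapSU ι hι sw12 := by
    rw [sw12, sw12, mapSU_M12]
    congr 1
    · exact (map_zero ι).symm
    · exact (map_one ι).symm
  have s12 : (sw12 : SU E) ∈ H := by
    rw [e12]
    exact h0 _
  have hN3 : N (ξ ^ 3) = 1 := by
    rw [pow_succ, sq, N_mul, N_mul, hξ, one_mul, one_mul]
  have hM12 : M12 (ξ ^ 3) 0 (tor_ok hN3) ∈ H := by
    have h3 := h2 sw12
    rw [← e12] at h3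
    have h4 : M12 (ξ ^ 3) 0 (tor_ok hN3) = sw12 * (D2 ξ hξ * sw12 * (D2 ξ hξ)⁻¹) := by
      have h5 : M12 (ξ ^ 3) 0 (tor_ok hN3) * D2 ξ hξ = sw12 * (D2 ξ hξ * sw12) := by
        apply SU.ext_e
        intro i
        rw [mul_smul, mul_smul, mul_smul]
        rw [D2, dg_smul, sw12, M12_smul, M12_smul, dg_smul, M12_smul]
        rw [N_def] at hξ
        funext j
        fin_cases i <;> fin_cases j <;> simp [e]
        · linear_combination ξ ^ 2 * hξ
        · linear_combination (bar ξ * (ξ * bar ξ + 1)) * hξ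
      rw [← mul_assoc sw12, ← h5, mul_inv_cancel_right]
    rw [h4]
    exact H.mul_mem s12 h3
  have hT : T01 (ξ ^ 3) hN3 ∈ H := by
    have h5 := M12_eq (ξ ^ 3) 0 (tor_ok hN3)
    have h6 : T01 (ξ ^ 3) hN3 = (sw01 * sw12)⁻¹ * M12 (ξ ^ 3) 0 (tor_ok hN3) * (sw01 * sw12) := by
      rw [h5, T01]
      group
    rw [h6]
    have h7 := H.mul_mem s01 s12
    exact H.mul_mem (H.mul_mem (H.inv_mem h7) hM12) h7
  have htor : ∀ x hx, T01 (x : E) hx ∈ H := by
    intro x hx
    obtain ⟨n, rfl⟩ := hgen x hx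
    exact T01_pow hN3 hT n hx
  obtain ⟨a, b, hab, ha, hb⟩ := exists_pair (E := F)
  refine eq_top_of_block H (fun c d hcd => ?_) s12
  have hM := h0 (M01 a b hab)
  rw [mapSU_M01] at hM
  exact fill H htor hM ((map_ne_zero ι).2 ha) ((map_ne_zero ι).2 hb) c d hcd

end surj

end Pool.Agent.J4.H5.UF
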