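import Mathlib

set_option autoImplicit false

/-!
# Finite fields of characteristic two with an involution
-/

namespace Pool.Agent.J4.H5.UF

/-- A finite field of characteristic two with `Q ^ 2` elements, `Q ≥ 4`, together with the
involution `x ↦ x ^ Q`. -/
class HermField (E : Type) extends Field E where
  finite : Finite E
  /-- the order of the subfield of the elements fixed by the involution -/
  Q : ℕ
  four_le : 4 ≤ Q
  two_eq_zero : (2 : E) = 0
  card_eq : Nat.card E = Q ^ 2
  /-- the involution -/
  barHom : E →+* E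
  barHom_eq : ∀ x, barHom x = x ^ Q

namespace HermField

attribute [instance] HermField.finite

variable {E : Type} [HermField E]

theorem add_self (x : E) : x + x = 0 := by
  rw [← two_mul, two_eq_zero, zero_mul]

theorem neg_eq (x : E) : -x = x := by
  rw [neg_eq_iff_add_eq_zero, add_self]

theorem sub_eq (x y : E) : x - y = x + y := by
  rw [sub_eq_add_neg, neg_eq]

instance : CharP E 2 := CharTwo.of_one_ne_zero_of_two_eq_zero one_ne_zero two_eq_zero

theorem pow_card (x : E) : x ^ (Q E ^ 2) = x := by
  have := Fintype.ofFinite E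
  rw [← card_eq, Nat.card_eq_fintype_card]
  exact FiniteField.pow_card x

/-- the involution -/
def bar (x : E) : E := (barHom : E →+* E) x

theorem bar_eq (x : E) : bar x = x ^ (Q E) := barHom_eq x

@[simp] theorem bar_zero : bar (0 : E) = 0 := map_zero barHom

@[simp] theorem bar_one : bar (1 : E) = 1 := map_one barHom

@[simp] theorem bar_add (x y : E) : bar (x + y) = bar x + bar y := map_add barHom x y

@[simp] theorem bar_mul (x y : E) : bar (x * y) = bar x * bar y := map_mul barHom x y

@[simp] theorem bar_inv (x : E) : bar (x⁻¹) = (bar x)⁻¹ := map_inv₀ barHom x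

@[simp] theorem bar_div (x y : E) : bar (x / y) = bar x / bar y := map_div₀ barHom x y

@[simp] theorem bar_pow (x : E) (n : ℕ) : bar (x ^ n) = bar x ^ n := map_pow barHom x n

@[simp] theorem bar_neg (x : E) : bar (-x) = - bar x := map_neg barHom x

@[simp] theorem bar_sum {ι : Type*} (s : Finset ι) (f : ι → E) :
    bar (∑ i ∈ s, f i) = ∑ i ∈ s, bar (f i) := map_sum barHom f s

@[simp] theorem bar_bar (x : E) : bar (bar x) = x := by
  rw [bar_eq, bar_eq, ← pow_mul, ← sq]
  exact pow_card x

@[simp] theorem bar_eq_zero {x : E} : bar x = 0 ↔ x = 0 := map_eq_zero (barHom : E →+* E)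

theorem bar_ne_zero {x : E} (h : x ≠ 0) : bar x ≠ 0 := by simpa using h

/-- the norm to the fixed field -/
def N (x : E) : E := x * bar x

theorem N_def (x : E) : N x = x * bar x := rfl

@[simp] theorem bar_N (x : E) : bar (N x) = N x := by
  rw [N_def, bar_mul, bar_bar, mul_comm]

@[simp] theorem N_zero : N (0 : E) = 0 := by simp [N_def]

@[simp] theorem N_one : N (1 : E) = 1 := by simp [N_def]

theorem N_mul (x y : E) : N (x * y) = N x * N y := by
  simp only [N_def, bar_mul]; ring

theorem N_bar (x : E) : N (bar x) = N x := by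
  rw [N_def, N_def, bar_bar, mul_comm]

theorem N_inv (x : E) : N (x⁻¹) = (N x)⁻¹ := by
  rw [N_def, N_def, bar_inv, mul_inv]

theorem N_div (x y : E) : N (x / y) = N x / N y := by
  rw [div_eq_mul_inv, N_mul, N_inv, div_eq_mul_inv]

@[simp] theorem N_eq_zero {x : E} : N x = 0 ↔ x = 0 := by
  simp [N_def]

theorem sq_inj {x y : E} (h : x ^ 2 = y ^ 2) : x = y := by
  have h1 : (x + y) ^ 2 = 0 := by
    have h2 : (x + y) ^ 2 = x ^ 2 + y ^ 2 + (x * y + x * y) := by ring
    rw [h2, h, add_self, add_self, add_zero]
  have h2 : x + y = 0 := by simpa using h1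
  rw [← neg_eq y]
  exact eq_neg_of_add_eq_zero_left h2

theorem exists_sqrt (x : E) : ∃ y : E, y ^ 2 = x := by
  have := Fintype.ofFinite E
  have h : Function.Injective (fun y : E => y ^ 2) := fun a b h => sq_inj h
  exact (Finite.injective_iff_surjective.1 h) x

/-- elements of the fixed field are norms -/
theorem exists_N {v : E} (h : bar v = v) : ∃ c : E, N c = v := by
  obtain ⟨c, hc⟩ := exists_sqrt v
  refine ⟨c, ?_⟩
  have h1 : bar c = c := by
    apply sq_inj
    rw [← bar_pow, hc, h]
  rw [N_def, h1, ← sq, hc]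

theorem exists_sqrt_N {x : E} (h : N x = 1) : ∃ y : E, N y = 1 ∧ y ^ 2 = x := by
  obtain ⟨y, hy⟩ := exists_sqrt x
  refine ⟨y, ?_, hy⟩
  apply sq_inj
  rw [one_pow, sq, ← N_mul, ← sq, hy, h]

/-- a fixed element of norm one is one -/
theorem eq_one_of_N {x : E} (h : bar x = x) (h1 : N x = 1) : x = 1 := by
  apply sq_inj
  rw [one_pow, ← h1, N_def, h, sq]

open Polynomial in
theorem card_fixed_le : Nat.card {x : E // bar x = x} ≤ Q E := by
  classical
  have hQ : 4 ≤ Q E := four_le
  have h1 : ((X : E[X]) ^ (Q E) - X).natDegree = Q E := by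
    apply FiniteField.X_pow_card_sub_X_natDegree_eq E (by omega)
  have h0 : ((X : E[X]) ^ (Q E) - X) ≠ 0 := by
    intro h
    rw [h] at h1
    simp at h1
    omega
  have h2 : {x : E | bar x = x} ⊆ ((X : E[X]) ^ (Q E) - X).roots.toFinset := by
    intro x hx
    have hx' : bar x = x := hx
    rw [bar_eq] at hx'
    simp only [Finset.mem_coe, Multiset.mem_toFinset, mem_roots h0, IsRoot.def, eval_sub, eval_pow,
      eval_X, sub_eq_zero]
    exact hx'
  calc Nat.card {x : E // bar x = x} = ({x : E | bar x = x} : Set E).ncard := rfl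
    _ ≤ (((X : E[X]) ^ (Q E) - X).roots.toFinset : Set E).ncard :=
        Set.ncard_le_ncard h2 (Finset.finite_toSet _)
    _ = ((X : E[X]) ^ (Q E) - X).roots.toFinset.card := Set.ncard_coe_finset _
    _ ≤ Multiset.card ((X : E[X]) ^ (Q E) - X).roots := Multiset.toFinset_card_le _
    _ ≤ _ := card_roots' _
    _ = Q E := h1

/-- the group of elements of norm one -/
def N1 (E : Type) [HermField E] : Subgroup Eˣ where
  carrier := {u | N (u : E) = 1}
  mul_mem' := by
    intro a b ha hb
    simp only [Set.mem_ofPred_eq, Units.val_mul, N_mul] at *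
    rw [ha, hb, one_mul]
  one_mem' := by simp
  inv_mem' := by
    intro a ha
    simp only [Set.mem_ofPred_eq, Units.val_inv_eq_inv_val, N_inv] at *
    rw [ha, inv_one]

theorem mem_N1 {u : Eˣ} : u ∈ N1 E ↔ N (u : E) = 1 := Iff.rfl

theorem card_N1_ge : Q E + 1 ≤ Nat.card (N1 E) := by
  classical
  have := Fintype.ofFinite E
  -- the homomorphism `x ↦ x / bar x`
  let f : Eˣ →* N1 E :=
    { toFun := fun u => ⟨u * (Units.map (barHom : E →+* E).toMonoidHom u)⁻¹, by
        rw [mem_N1]
        rw [Units.val_mul, Units.val_inv_eq_inv_val]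
        change N ((u : E) * (bar (u : E))⁻¹) = 1
        rw [N_mul, N_inv, N_bar]
        exact mul_inv_cancel₀ (by simp)⟩
      map_one' := by ext; simp
      map_mul' := by
        intro a b
        ext
        simp only [Units.val_mul, Units.val_inv_eq_inv_val, Units.coe_map, map_mul,
          Subgroup.coe_mul, RingHom.toMonoidHom_eq_coe, MonoidHom.coe_coe, mul_inv]
        ring }
  have hker : Nat.card f.ker + 1 ≤ Q E := by
    -- the kernel together with zero embeds into the fixed field
    let g : Option f.ker → {x : E // bar x = x} := fun o => match o with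
      | none => ⟨0, bar_zero⟩
      | some u => ⟨((u : Eˣ) : E), by
          have h := u.2
          rw [MonoidHom.mem_ker] at h
          have h1 : ((u : Eˣ) : E) * (bar ((u : Eˣ) : E))⁻¹ = 1 := by
            have := congrArg (fun z : N1 E => ((z : Eˣ) : E)) h
            simpa [f, bar] using this
          have h2 : bar ((u : Eˣ) : E) ≠ 0 := bar_ne_zero (Units.ne_zero _)
          rw [← div_eq_mul_inv, div_eq_one_iff_eq h2] at h1
          exact h1.symm⟩
    have hg : Function.Injective g := by
      intro a b hab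
      cases a with
      | none =>
        cases b with
        | none => rfl
        | some v =>
          have h := congrArg Subtype.val hab
          exact absurd h.symm (Units.ne_zero (v : Eˣ))
      | some u =>
        cases b with
        | none =>
          have h := congrArg Subtype.val hab
          exact absurd h (Units.ne_zero (u : Eˣ))
        | some v =>
          have h := congrArg Subtype.val hab
          have : u = v := Subtype.ext (Units.ext h)
          rw [this]
    have h1 := Nat.card_le_card_of_injective g hg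
    rw [Finite.card_option] at h1
    exact h1.trans card_fixed_le
  have h1 : Nat.card f.ker * Nat.card f.range = Nat.card Eˣ := by
    rw [← Subgroup.index_ker, Subgroup.card_mul_index]
  have h2 : Nat.card f.range ≤ Nat.card (N1 E) := Subgroup.card_le_card_group _
  have h3 : Nat.card Eˣ = Q E ^ 2 - 1 := by
    rw [Nat.card_units, card_eq]
  have hQ : 4 ≤ Q E := four_le
  have h4 : Q E ^ 2 - 1 = (Q E - 1) * (Q E + 1) := by
    obtain ⟨n, hn⟩ : ∃ n, Q E = n + 1 := ⟨Q E - 1, by omega⟩
    rw [hn]
    simp only [Nat.add_sub_cancel]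
    rw [Nat.sub_eq_iff_eq_add (by nlinarith)]
    ring
  rw [h3, h4] at h1
  have h5 : (Q E - 1) * (Q E + 1) ≤ (Q E - 1) * Nat.card (N1 E) := by
    rw [← h1]
    exact Nat.mul_le_mul (by omega) h2
  exact Nat.le_of_mul_le_mul_left h5 (by omega)

open Polynomial in
theorem card_N1_le : Nat.card (N1 E) ≤ Q E + 1 := by
  classical
  have h1 : ((X : E[X]) ^ (Q E + 1) - C 1).natDegree = Q E + 1 :=
    natDegree_X_pow_sub_C
  have h0 : ((X : E[X]) ^ (Q E + 1) - C 1) ≠ 0 := by
    intro h
    rw [h] at h1
    simp at h1
  let g : N1 E → ((X : E[X]) ^ (Q E + 1) - C 1).roots.toFinset := fun u =>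
    ⟨((u : Eˣ) : E), by
      have h : N ((u : Eˣ) : E) = 1 := u.2
      rw [N_def, bar_eq, ← pow_succ'] at h
      simp only [Multiset.mem_toFinset, mem_roots h0, IsRoot.def, eval_sub, eval_pow,
        eval_X, eval_C, h, sub_self]⟩
  have hg : Function.Injective g := by
    intro a b hab
    have h := congrArg Subtype.val hab
    exact Subtype.ext (Units.ext h)
  calc Nat.card (N1 E) ≤ Nat.card ((X : E[X]) ^ (Q E + 1) - C 1).roots.toFinset :=
        Nat.card_le_card_of_injective g hg
    _ = ((X : E[X]) ^ (Q E + 1) - C 1).roots.toFinset.card := Nat.card_eq_finsetCard _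
    _ ≤ Multiset.card ((X : E[X]) ^ (Q E + 1) - C 1).roots := Multiset.toFinset_card_le _
    _ ≤ _ := card_roots' _
    _ = Q E + 1 := h1

theorem card_N1 : Nat.card (N1 E) = Q E + 1 := le_antisymm card_N1_le card_N1_ge

theorem card_fixed : Nat.card {x : E // bar x = x} = Q E := by
  classical
  refine le_antisymm card_fixed_le ?_
  -- the trace
  let f : E →+ E := AddMonoidHom.id E + (barHom : E →+* E).toAddMonoidHom
  have hf : ∀ x, f x = x + bar x := fun x => rfl
  have h1 : Nat.card f.ker * Nat.card f.range = Nat.card E := by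
    rw [← AddSubgroup.index_ker, AddSubgroup.card_mul_index]
  have h2 : Nat.card f.ker ≤ Nat.card {x : E // bar x = x} := by
    refine Nat.card_le_card_of_injective (fun u : f.ker => ⟨(u : E), ?_⟩) ?_
    · have := u.2
      rw [AddMonoidHom.mem_ker, hf] at this
      rw [← neg_eq (bar (u : E))]
      rw [neg_eq_iff_add_eq_zero, add_comm]
      exact this
    · intro a b h
      exact Subtype.ext (Subtype.mk.inj h)
  have h3 : Nat.card f.range ≤ Nat.card {x : E // bar x = x} := by
    refine Nat.card_le_card_of_injective (fun u : f.range => ⟨(u : E), ?_⟩) ?_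
    · obtain ⟨y, hy⟩ := u.2
      rw [← hy, hf, bar_add, bar_bar, add_comm]
    · intro a b h
      exact Subtype.ext (Subtype.mk.inj h)
  rw [card_eq (E := E)] at h1
  have h4 : Q E ^ 2 ≤ Nat.card {x : E // bar x = x} ^ 2 := by
    rw [← h1, sq (Nat.card {x : E // bar x = x})]
    exact Nat.mul_le_mul h2 h3
  exact (Nat.pow_le_pow_iff_left (by norm_num)).1 h4

/-- an element of the fixed field different from zero and one -/
theorem exists_fixed : ∃ c : E, bar c = c ∧ c ≠ 0 ∧ c ≠ 1 := by
  classical
  by_contra hcon
  push Not at hcon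
  have h1 : Nat.card {x : E // bar x = x} ≤ Nat.card Bool := by
    refine Nat.card_le_card_of_injective (fun u => decide (u.1 = 0)) ?_
    rintro ⟨a, ha⟩ ⟨b, hb⟩ hab
    simp only [decide_eq_decide] at hab
    apply Subtype.ext
    simp only
    by_cases h : a = 0
    · rw [h, hab.1 h]
    · have h' : b ≠ 0 := fun hb' => h (hab.2 hb')
      rw [hcon a ha h, hcon b hb h']
  rw [card_fixed] at h1
  have hQ : 4 ≤ Q E := four_le
  simp at h1
  omega

/-- The elements of norm one as a finite set. -/
noncomputable def N1f (E : Type) [HermField E] : Finset E := by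
  classical
  exact (Set.toFinite {x : E | N x = 1}).toFinset

theorem mem_N1f {x : E} : x ∈ N1f E ↔ N x = 1 := by
  simp [N1f]

theorem card_N1f : (N1f E).card = Q E + 1 := by
  classical
  rw [← card_N1, ← Nat.card_eq_finsetCard]
  refine Nat.card_congr ⟨fun x => ⟨Units.mk0 x.1 ?_, ?_⟩, fun u => ⟨((u : Eˣ) : E), ?_⟩, ?_, ?_⟩
  · intro h
    have := mem_N1f.1 x.2
    rw [h, N_zero] at this
    exact zero_ne_one this
  · exact mem_N1f.1 x.2
  · exact mem_N1f.2 u.2
  · intro x; rfl
  · intro u
    apply Subtype.ext
    apply Units.ext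
    rfl

/-- The traces of the multiples of a nonzero element by elements of norm one take at least
`(Q + 1) / 2` values. -/
theorem card_traces [DecidableEq E] {κ : E} (hκ : κ ≠ 0) :
    Q E + 1 ≤ 2 * ((N1f E).image fun x => x * κ + bar (x * κ)).card := by
  rw [← card_N1f]
  refine Finset.card_le_mul_card_image (N1f E) 2 ?_
  intro t _
  by_contra hcon
  push Not at hcon
  rw [Finset.two_lt_card] at hcon
  obtain ⟨a, ha, b, hb, c, hc, hab, hac, hbc⟩ := hcon
  simp only [Finset.mem_filter, mem_N1f] at ha hb hc
  -- the quadratic equation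
  have key : ∀ x : E, N x = 1 → x * κ + bar (x * κ) = t → κ * x ^ 2 + bar κ = t * x := by
    intro x hx hxt
    rw [N_def] at hx
    rw [← hxt, bar_mul]
    linear_combination (-bar κ) * hx
  have h1 := key a ha.1 ha.2
  have h2 := key b hb.1 hb.2
  have h3 := key c hc.1 hc.2
  have h12 : (a - b) * (κ * (a + b) - t) = 0 := by linear_combination h1 - h2
  have h13 : (a - c) * (κ * (a + c) - t) = 0 := by linear_combination h1 - h3
  have h12' := (mul_eq_zero.1 h12).resolve_left (sub_ne_zero.2 hab)
  have h13' := (mul_eq_zero.1 h13).resolve_left (sub_ne_zero.2 hac)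
  have h4 : κ * (b - c) = 0 := by linear_combination h12' - h13'
  exact hbc (sub_eq_zero.1 ((mul_eq_zero.1 h4).resolve_left hκ))

/-- an element of norm one which generates the group of elements of norm one -/
theorem exists_generator : ∃ ζ : E, N ζ = 1 ∧ ∀ x : E, N x = 1 → ∃ n : ℕ, x = ζ ^ n := by
  obtain ⟨⟨z, hz⟩, h⟩ := IsCyclic.exists_generator (α := N1 E)
  refine ⟨(z : E), hz, fun x hx => ?_⟩
  have hx0 : x ≠ 0 := by
    rintro rfl
    simp at hx
  obtain ⟨n, hn⟩ := (mem_powers_iff_mem_zpowers.2 (h ⟨Units.mk0 x hx0, hx⟩))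
  refine ⟨n, ?_⟩
  have := congrArg (fun u : N1 E => ((u : Eˣ) : E)) hn
  simpa using this.symm

end HermField

end Pool.Agent.J4.H5.UF
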