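import Pool.Agent.J4.H5.UF.SU

set_option autoImplicit false

/-!
# Subgroups containing the torus and one more element of the first block
-/

namespace Pool.Agent.J4.H5.UF

open HermField

variable {E : Type} [HermField E]

theorem mul_ok {a b c d : E} (hab : N a + N b = 1) (hcd : N c + N d = 1) :
    N (a * c + b * bar d) + N (a * d + b * bar c) = 1 := by
  simp only [N_def, bar_add, bar_mul, bar_bar] at *
  have h1 := add_self (a * c * bar b * d)
  have h2 := add_self (b * bar d * bar a * bar c)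
  linear_combination (c * bar c + d * bar d) * hab + hcd + h1 + h2

theorem M01_mul {a b c d : E} (hab : N a + N b = 1) (hcd : N c + N d = 1) :
    M01 a b hab * M01 c d hcd = M01 (a * c + b * bar d) (a * d + b * bar c) (mul_ok hab hcd) := by
  apply SU.ext_e
  intro i
  rw [mul_smul, M01_smul, M01_smul, M01_smul]
  fin_cases i <;> (funext j; fin_cases j) <;> simp [e] <;> ring

theorem M01_congr {a b a' b' : E} {hab : N a + N b = 1} {hab' : N a' + N b' = 1} (ha : a = a')
    (hb : b = b') : M01 a b hab = M01 a' b' hab' := by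
  subst ha hb; rfl

theorem tor_ok {x : E} (hx : N x = 1) : N x + N 0 = 1 := by rw [hx, N_zero, add_zero]

/-- the torus of the first block -/
def T01 (x : E) (hx : N x = 1) : SU E := M01 x 0 (tor_ok hx)

variable (H : Subgroup (SU E)) (htor : ∀ x hx, T01 x hx ∈ H)

include htor

/-- change of phases -/
theorem phases {a b : E} {hab : N a + N b = 1} (hM : M01 a b hab ∈ H) {x y : E} (hx : N x = 1)
    (hy : N y = 1) (h' : N (x * a) + N (y * b) = 1) : M01 (x * a) (y * b) h' ∈ H := by
  obtain ⟨s, hs, hs2⟩ := exists_sqrt_N (x := x * y) (by rw [N_mul, hx, hy, one_mul])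
  obtain ⟨t, ht, ht2⟩ := exists_sqrt_N (x := x * bar y) (by rw [N_mul, hx, N_bar, hy, one_mul])
  have hst : s * t = x := by
    apply sq_inj
    rw [mul_pow, hs2, ht2]
    rw [N_def] at hy
    linear_combination x ^ 2 * hy
  have hst' : s * bar t = y := by
    apply sq_inj
    rw [mul_pow, ← bar_pow, hs2, ht2, bar_mul, bar_bar]
    rw [N_def] at hx
    linear_combination y ^ 2 * hx
  have h1 := H.mul_mem (H.mul_mem (htor s hs) hM) (htor t ht)
  rw [T01, T01, M01_mul, M01_mul] at h1
  convert h1 using 1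
  apply M01_congr
  · rw [← hst]; simp; ring
  · rw [← hst']; simp; ring

omit htor in
theorem exists_phase {a a' : E} (h : N a' = N a) : ∃ x, N x = 1 ∧ a' = x * a := by

  by_cases ha : a = 0
  · refine ⟨1, N_one, ?_⟩
    rw [ha, N_zero, N_eq_zero] at h
    rw [ha, h, mul_zero]
  · refine ⟨a' / a, ?_, ?_⟩
    · rw [N_div, h, div_self]
      simpa using ha
    · field_simp

theorem mem_of_N {a b : E} {hab : N a + N b = 1} (hM : M01 a b hab ∈ H) {a' b' : E}
    (hab' : N a' + N b' = 1) (ha : N a' = N a) : M01 a' b' hab' ∈ H := by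
  have hb : N b' = N b := by
    rw [← hab'] at hab
    rw [ha] at hab
    exact (add_left_cancel hab).symm
  obtain ⟨x, hx, rfl⟩ := exists_phase ha
  obtain ⟨y, hy, rfl⟩ := exists_phase hb
  exact phases H htor hM hx hy _

theorem fill_aux [DecidableEq E] {a₀ b₀ : E} {h₀ : N a₀ + N b₀ = 1} (hM : M01 a₀ b₀ h₀ ∈ H)
    (ha₀ : a₀ ≠ 0) (hb₀ : b₀ ≠ 0) {c d : E} (hcd : N c + N d = 1) (hc : c ≠ 0) (hd : d ≠ 0) :
    M01 c d hcd ∈ H := by
  classical
  have hF := Fintype.ofFinite E
  -- the fixed elements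
  let K : Finset E := Finset.univ.filter fun v => bar v = v
  have hK : K.card = Q E := by
    rw [← card_fixed (E := E), Nat.card_eq_fintype_card, Fintype.card_subtype]
  -- the norms of the elements of the subgroup
  let L : Finset E := Finset.univ.filter fun v => ∃ (a b : E) (hab : N a + N b = 1),
    N a = v ∧ M01 a b hab ∈ H
  have hL : L ⊆ K := by
    intro v hv
    obtain ⟨a, b, hab, rfl, -⟩ := (Finset.mem_filter.1 hv).2
    exact Finset.mem_filter.2 ⟨Finset.mem_univ _, bar_N _⟩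
  -- the norms of the products
  have hprod : ∀ (c d : E) (hcd : N c + N d = 1), c ≠ 0 → d ≠ 0 →
      ∃ Y : Finset E, Q E + 1 ≤ 2 * Y.card ∧ Y ⊆ K ∧ ∀ v ∈ Y, ∃ x : E, ∃ hx : N x = 1,
        N (x * a₀ * c + b₀ * bar d) = v := by
    intro c d hcd hc hd
    set κ : E := a₀ * c * (bar b₀ * d) with hκ
    have hκ0 : κ ≠ 0 := mul_ne_zero (mul_ne_zero ha₀ hc) (mul_ne_zero (bar_ne_zero hb₀) hd)
    have hform : ∀ x : E, N x = 1 → N (x * a₀ * c + b₀ * bar d) =
        (N a₀ * N c + N b₀ * N d) + (x * κ + bar (x * κ)) := by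
      intro x hx
      rw [hκ]
      simp only [N_def, bar_add, bar_mul, bar_bar] at *
      linear_combination (a₀ * c * bar a₀ * bar c) * hx
    refine ⟨(N1f E).image fun x => N (x * a₀ * c + b₀ * bar d), ?_, ?_, ?_⟩
    · have h1 := card_traces hκ0
      have h2 : ((N1f E).image fun x => N (x * a₀ * c + b₀ * bar d)) =
          (((N1f E).image fun x => x * κ + bar (x * κ))).image
            (fun t => (N a₀ * N c + N b₀ * N d) + t) := by
        rw [Finset.image_image]
        apply Finset.image_congr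
        intro x hx
        exact hform x (mem_N1f.1 hx)
      rw [h2, Finset.card_image_of_injective _ (add_right_injective _)]
      exact h1
    · intro v hv
      obtain ⟨x, -, rfl⟩ := Finset.mem_image.1 hv
      exact Finset.mem_filter.2 ⟨Finset.mem_univ _, bar_N _⟩
    · intro v hv
      obtain ⟨x, hx, rfl⟩ := Finset.mem_image.1 hv
      exact ⟨x, mem_N1f.1 hx, rfl⟩
  have hx₀ : ∀ x : E, N x = 1 → N (x * a₀) + N b₀ = 1 := by
    intro x hx
    rw [N_mul, hx, one_mul, h₀]
  have hmemx : ∀ (x : E) (hx : N x = 1), M01 (x * a₀) b₀ (hx₀ x hx) ∈ H := fun x hx =>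
    mem_of_N H htor hM _ (by rw [N_mul, hx, one_mul])
  obtain ⟨Y, hY1, hY2, hY3⟩ := hprod c d hcd hc hd
  obtain ⟨Z, hZ1, hZ2, hZ3⟩ := hprod a₀ b₀ h₀ ha₀ hb₀
  have hZL : Z ⊆ L := by
    intro v hv
    obtain ⟨x, hx, hxv⟩ := hZ3 v hv
    refine Finset.mem_filter.2 ⟨Finset.mem_univ _, ?_⟩
    have h1 := H.mul_mem (hmemx x hx) hM
    rw [M01_mul] at h1
    exact ⟨_, _, _, hxv, h1⟩
  have hcard := Finset.card_le_card hZL
  obtain ⟨v, hv⟩ := Finset.inter_nonempty_of_card_lt_card_add_card hY2 hL (by omega)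
  rw [Finset.mem_inter] at hv
  obtain ⟨x, hx, hxv⟩ := hY3 v hv.1
  obtain ⟨a, b, hab, hav, hMab⟩ := (Finset.mem_filter.1 hv.2).2
  have h1 : M01 (x * a₀ * c + b₀ * bar d) (x * a₀ * d + b₀ * bar c)
      (mul_ok (hx₀ x hx) hcd) ∈ H := mem_of_N H htor hMab _ (by rw [hxv, hav])
  rw [← M01_mul (hx₀ x hx) hcd] at h1
  exact (H.mul_mem_cancel_left (hmemx x hx)).1 h1

/-- **A subgroup which contains the torus of the first block and one more element of the block which
is not in its normalizer contains the block.** -/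
theorem fill {a₀ b₀ : E} {h₀ : N a₀ + N b₀ = 1} (hM : M01 a₀ b₀ h₀ ∈ H)
    (ha₀ : a₀ ≠ 0) (hb₀ : b₀ ≠ 0) (c d : E) (hcd : N c + N d = 1) : M01 c d hcd ∈ H := by
  classical
  by_cases hd : d = 0
  · subst hd
    have hc : N c = 1 := by rwa [N_zero, add_zero] at hcd
    exact htor c hc
  · by_cases hc : c = 0
    · subst hc
      have h1 : N (bar a₀) + N b₀ = 1 := by rw [N_bar, h₀]
      have h2 : M01 (bar a₀) b₀ h1 ∈ H := mem_of_N H htor hM _ (N_bar _)
      have h3 : M01 (bar a₀ * 0 + b₀ * bar d) (bar a₀ * d + b₀ * bar 0) (mul_ok h1 hcd) ∈ H := by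
        apply fill_aux H htor hM ha₀ hb₀
        · simpa using ⟨hb₀, hd⟩
        · simpa using ⟨ha₀, hd⟩
      rw [← M01_mul h1 hcd] at h3
      exact (H.mul_mem_cancel_left h2).1 h3
    · exact fill_aux H htor hM ha₀ hb₀ hcd hc hd

end Pool.Agent.J4.H5.UF
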