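import Pool.Agent.J4.H5.UF.Family

set_option autoImplicit false

/-!
# The group with property (T) and infinitely many finite simple quotients of rank one
-/

namespace Pool.Agent.J4.H5.UF

open HermField MulAction

/-- the fields of the family -/
def EE (k : ℕ) : Type := GaloisField 2 (4 * (2 * k + 1))

instance : Fact (Nat.Prime 2) := ⟨Nat.prime_two⟩

/-- the involution -/
noncomputable def frob (m n : ℕ) : GaloisField 2 m →+* GaloisField 2 m :=
  iterateFrobenius (GaloisField 2 m) 2 n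

theorem frob_apply (m n : ℕ) (x : GaloisField 2 m) : frob m n x = x ^ 2 ^ n :=
  iterateFrobenius_def 2 n x

noncomputable instance (k : ℕ) : HermField (EE k) where
  __ := (inferInstanceAs (Field (GaloisField 2 (4 * (2 * k + 1)))) : Field (EE k))
  finite := inferInstanceAs (Finite (GaloisField 2 (4 * (2 * k + 1))))
  Q := 2 ^ (2 * (2 * k + 1))
  four_le := by
    calc 4 = 2 ^ 2 := by norm_num
      _ ≤ 2 ^ (2 * (2 * k + 1)) := Nat.pow_le_pow_right (by norm_num) (by omega)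
  two_eq_zero := (CharP.cast_eq_zero (GaloisField 2 (4 * (2 * k + 1))) 2 : _)
  card_eq := by
    have h1 := GaloisField.card 2 (4 * (2 * k + 1)) (by omega)
    change Nat.card (GaloisField 2 (4 * (2 * k + 1))) = _
    rw [h1, ← pow_mul]
    congr 1
    ring
  barHom := frob (4 * (2 * k + 1)) (2 * (2 * k + 1))
  barHom_eq x := frob_apply (4 * (2 * k + 1)) (2 * (2 * k + 1)) x

theorem Q_EE (k : ℕ) : Q (EE k) = 2 ^ (2 * (2 * k + 1)) := rfl

theorem exists_emb (k : ℕ) : ∃ ι : EE 0 →+* EE k, ∀ x, ι (bar x) = bar (ι x) := by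
  obtain ⟨f⟩ := FiniteField.nonempty_algHom_of_finrank_dvd (F := ZMod 2)
    (K := GaloisField 2 (4 * (2 * 0 + 1))) (L := GaloisField 2 (4 * (2 * k + 1))) (by
      rw [GaloisField.finrank 2 (by omega), GaloisField.finrank 2 (by omega)]
      exact ⟨2 * k + 1, by ring⟩)
  refine ⟨(f : GaloisField 2 (4 * (2 * 0 + 1)) →+* GaloisField 2 (4 * (2 * k + 1))), fun x => ?_⟩
  set ι : EE 0 →+* EE k :=
    (f : GaloisField 2 (4 * (2 * 0 + 1)) →+* GaloisField 2 (4 * (2 * k + 1))) with hι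
  rw [bar_eq, bar_eq, Q_EE, Q_EE, map_pow]
  have h1 : x ^ 16 = x := by
    have := pow_card x
    rw [Q_EE] at this
    exact this
  have h2 : (ι x) ^ 16 = ι x := by rw [← map_pow, h1]
  have h3 : ∀ n : ℕ, (ι x) ^ (16 ^ n) = ι x := by
    intro n
    induction n with
    | zero => simp
    | succ n ih => rw [pow_succ, pow_mul, ih, h2]
  have h4 : (2 : ℕ) ^ (2 * (2 * k + 1)) = 16 ^ k * 2 ^ (2 * (2 * 0 + 1)) := by
    rw [show (16 : ℕ) = 2 ^ 4 by norm_num, ← pow_mul, ← pow_add]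
    congr 1
    ring
  rw [h4, pow_mul (ι x), h3]

theorem coprime_EE (k : ℕ) : Nat.Coprime 3 (Q (EE k) + 1) := by
  rw [Q_EE, pow_mul, Nat.Prime.coprime_iff_not_dvd (by norm_num)]
  intro h
  have h1 : (2 ^ 2) ^ (2 * k + 1) % 3 = 1 := by
    rw [Nat.pow_mod]
    norm_num
  omega

/-- the embedding of the smallest field -/
noncomputable def emb (k : ℕ) : EE 0 →+* EE k := (exists_emb k).choose

theorem emb_bar (k : ℕ) (x : EE 0) : emb k (bar x) = bar (emb k x) := (exists_emb k).choose_spec x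

/-- a generator of the group of the elements of norm one which is a cube -/
theorem exists_cube_generator (k : ℕ) : ∃ ξ : EE k, N ξ = 1 ∧
    ∀ x : EE k, N x = 1 → ∃ n : ℕ, x = (ξ ^ 3) ^ n := by
  obtain ⟨ζ, hζ, hgen⟩ := exists_generator (E := EE k)
  have hpow : ζ ^ (Q (EE k) + 1) = 1 := by
    rw [pow_succ, ← bar_eq, mul_comm]
    exact hζ
  -- a cube root
  obtain ⟨m, hm⟩ : ∃ m : ℕ, ζ = (ζ ^ m) ^ 3 := by
    obtain ⟨m, hm⟩ := Nat.exists_mul_mod_eq_one_of_coprime (coprime_EE k) (by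
      have := four_le (E := EE k)
      omega)
    refine ⟨m, ?_⟩
    rw [← pow_mul, mul_comm m 3, ← Nat.div_add_mod (3 * m) (Q (EE k) + 1), hm.2, pow_add, pow_mul,
      hpow, one_pow, one_mul, pow_one]
  refine ⟨ζ ^ m, ?_, fun x hx => ?_⟩
  · have h0 : ∀ n, N (ζ ^ n) = 1 := by
      intro n
      induction n with
      | zero => simp
      | succ n ih => rw [pow_succ, N_mul, ih, hζ, one_mul]
    exact h0 m
  · obtain ⟨n, hn⟩ := hgen x hx
    exact ⟨n, by rw [← hm, hn]⟩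

/-- the chosen element -/
noncomputable def xi (k : ℕ) : EE k := (exists_cube_generator k).choose

theorem N_xi (k : ℕ) : N (xi k) = 1 := (exists_cube_generator k).choose_spec.1

theorem xi_gen (k : ℕ) : ∀ x : EE k, N x = 1 → ∃ n : ℕ, x = (xi k ^ 3) ^ n :=
  (exists_cube_generator k).choose_spec.2

/-- the three maps to one factor -/
noncomputable def ff (k : ℕ) (i : Fin 3) : SU (EE 0) →* SU (EE k) :=
  (MulAut.conj (![1, D1 (xi k) (N_xi k), D2 (xi k) (N_xi k)] i)).toMonoidHom.comp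
    (mapSU (emb k) (emb_bar k))

theorem ff_zero (k : ℕ) (g : SU (EE 0)) : ff k 0 g = mapSU (emb k) (emb_bar k) g := by
  simp [ff]

theorem ff_one (k : ℕ) (g : SU (EE 0)) : ff k 1 g =
    D1 (xi k) (N_xi k) * mapSU (emb k) (emb_bar k) g * (D1 (xi k) (N_xi k))⁻¹ := by
  simp [ff]

theorem ff_two (k : ℕ) (g : SU (EE 0)) : ff k 2 g =
    D2 (xi k) (N_xi k) * mapSU (emb k) (emb_bar k) g * (D2 (xi k) (N_xi k))⁻¹ := by
  simp [ff]

theorem ff_compat0 (k : ℕ) (g : SU (EE 0)) (hg : g • (e 0 : V (EE 0)) = e 0) :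
    ff k 0 g = ff k 1 g := by
  rw [ff_zero, ff_one, D1_comm (mapSU_fix (emb k) (emb_bar k) hg), mul_inv_cancel_right]

theorem ff_compat2 (k : ℕ) (g : SU (EE 0)) (hg : g • (e 2 : V (EE 0)) = e 2) :
    ff k 0 g = ff k 2 g := by
  rw [ff_zero, ff_two, D2_comm (mapSU_fix (emb k) (emb_bar k) hg), mul_inv_cancel_right]

theorem ff_compat1 (k : ℕ) (g : SU (EE 0)) (hg : g • (e 1 : V (EE 0)) = e 1) :
    ff k 1 g = ff k 2 g := by
  rw [ff_one, ff_two]
  have h1 := D12_comm (hx := N_xi k) (mapSU_fix (emb k) (emb_bar k) hg)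
  set a := D1 (xi k) (N_xi k)
  set b := D2 (xi k) (N_xi k)
  set c := mapSU (emb k) (emb_bar k) g
  have h2 : b * c = a * c * a⁻¹ * b := by
    calc b * c = a * ((a⁻¹ * b) * c) := by group
      _ = a * (c * (a⁻¹ * b)) := by rw [h1]
      _ = _ := by group
  rw [h2, mul_inv_cancel_right]

/-- the three maps to the product -/
noncomputable def FF (i : Fin 3) : SU (EE 0) →* (∀ k, SU (EE k)) := MonoidHom.pi fun k => ff k i

/-- **The group.** -/
noncomputable def GG : Subgroup (∀ k, SU (EE k)) :=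
  Subgroup.closure {x | ∃ (i : Fin 3) (g : SU (EE 0)), x = FF i g}

theorem FF_mem (i : Fin 3) (g : SU (EE 0)) : FF i g ∈ GG := Subgroup.subset_closure ⟨i, g, rfl⟩

/-- the three maps to the group -/
noncomputable def fG (i : Fin 3) : SU (EE 0) →* GG := (FF i).codRestrict GG (FF_mem i)

theorem fG_gen (K : Subgroup GG) (hK : ∀ i g, fG i g ∈ K) : K = ⊤ := by
  rw [eq_top_iff]
  have h1 : GG ≤ K.map GG.subtype := by
    refine (Subgroup.closure_le (K.map GG.subtype)).2 ?_
    rintro x ⟨i, g, rfl⟩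
    exact ⟨fG i g, hK i g, rfl⟩
  rintro ⟨x, hx⟩ _
  obtain ⟨y, hy, hyx⟩ := h1 hx
  have : y = ⟨x, hx⟩ := Subtype.ext hyx
  rwa [← this]

/-- the projection to a factor -/
noncomputable def pr (k : ℕ) : GG →* SU (EE k) := (Pi.evalMonoidHom _ k).comp GG.subtype

theorem pr_fG (k : ℕ) (i : Fin 3) (g : SU (EE 0)) : pr k (fG i g) = ff k i g := rfl

theorem pr_surjective (k : ℕ) : Function.Surjective (pr k) := by
  rw [← MonoidHom.range_eq_top]
  refine surj (emb k) (emb_bar k) (N_xi k) (xi_gen k) _ ?_ ?_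
  · intro g
    rw [← ff_zero, ← pr_fG]
    exact ⟨_, rfl⟩
  · intro g
    rw [← ff_two, ← pr_fG]
    exact ⟨_, rfl⟩

theorem card_SU_ge (k : ℕ) : k < Nat.card (SU (EE k)) := by
  have h1 : Nat.card {b : EE k // N b = 1} = Q (EE k) + 1 := by
    rw [← card_N1f, ← Nat.card_eq_finsetCard]
    exact Nat.card_congr (Equiv.subtypeEquivRight fun x => mem_N1f.symm)
  have h2 : Nat.card {b : EE k // N b = 1} ≤ Nat.card (SU (EE k)) := by
    refine Nat.card_le_card_of_injective (fun b => T01 b.1 b.2) ?_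
    rintro ⟨b, hb⟩ ⟨b', hb'⟩ hbb
    have e1 : T01 b hb • (e 0 : V (EE k)) = T01 b' hb' • e 0 := by
      simp only at hbb
      rw [hbb]
    rw [T01, T01, M01_smul, M01_smul] at e1
    have e0 := congrFun e1 0
    simp [e] at e0
    exact Subtype.ext e0
  have h3 : k < Q (EE k) := by
    rw [Q_EE]
    calc k < 2 ^ k := Nat.lt_two_pow_self
      _ ≤ 2 ^ (2 * (2 * k + 1)) := Nat.pow_le_pow_right (by norm_num) (by omega)
  omega

/-- **The main theorem.** -/
theorem main :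
    ¬ (∀ (G : Type) [Group G],
      (∀ (H : Type) [NormedAddCommGroup H] [InnerProductSpace ℂ H] [CompleteSpace H]
          (ρ : G →* unitary (H →L[ℂ] H)),
          (∀ (S : Finset G) (ε : ℝ), 0 < ε →
              ∃ v : H, ‖v‖ = 1 ∧ ∀ s ∈ S, ‖(ρ s : H →L[ℂ] H) v - v‖ < ε) →
          ∃ v : H, v ≠ 0 ∧ ∀ g : G, (ρ g : H →L[ℂ] H) v = v) →
      Set.Finite {N : Subgroup G | ∃ (Q : Type) (_ : Group Q), ∃ f : G →* Q,
          Function.Surjective f ∧ f.ker = N ∧ Finite Q ∧ IsSimpleGroup Q ∧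
          ∃ (X : Type) (φ : Q →* Equiv.Perm X), Finite X ∧ 3 ≤ Nat.card X ∧
            (∀ a b c d : X, a ≠ b → c ≠ d → ∃ g : Q, φ g a = c ∧ φ g b = d) ∧
            ∃ (x : X) (U : Subgroup Q),
              (∀ u ∈ U, φ u x = x) ∧
              (∀ u ∈ U, ∀ h : Q, φ h x = x → h * u * h⁻¹ ∈ U) ∧
              ∀ y z : X, y ≠ x → z ≠ x → ∃! u : Q, u ∈ U ∧ φ u y = z}) := by
  intro hall
  have h1 := hall GG (fun H _ _ _ ρ hρ => propT fG
    (fun g hg => Subtype.ext (funext fun k => ff_compat0 k g hg))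
    (fun g hg => Subtype.ext (funext fun k => ff_compat1 k g hg))
    (fun g hg => Subtype.ext (funext fun k => ff_compat2 k g hg)) fG_gen H ρ hρ)
  obtain ⟨B, hB⟩ := (h1.image fun N : Subgroup GG => N.index).bddAbove
  have h2 := hB ⟨(pr B).ker, ⟨SU (EE B), inferInstance, pr B, pr_surjective B, rfl,
    inferInstance, isSimple (coprime_EE B), bn_pair⟩, rfl⟩
  have h3 : (pr B).ker.index = Nat.card (SU (EE B)) := by
    rw [Subgroup.index_ker, MonoidHom.range_eq_top.2 (pr_surjective B)]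
    exact Nat.card_congr Subgroup.topEquiv.toEquiv
  simp only at h2
  rw [h3] at h2
  exact absurd (card_SU_ge B) (not_lt.2 h2)

end Pool.Agent.J4.H5.UF
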