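import Pool.Agent.J4.H5.UF.PropT

set_option autoImplicit false

/-!
# Isotropic points of the hermitian plane
-/

namespace Pool.Agent.J4.H5.UF

open HermField
open scoped LinearAlgebra.Projectivization

variable {E : Type} [HermField E]

/-- the conjugate of the cross product -/
def cr (v w : V E) : V E :=
  ![bar (v 1 * w 2 - v 2 * w 1), bar (v 2 * w 0 - v 0 * w 2), bar (v 0 * w 1 - v 1 * w 0)]

theorem cr_zero (v w : V E) : cr v w 0 = bar (v 1 * w 2 - v 2 * w 1) := rfl
theorem cr_one (v w : V E) : cr v w 1 = bar (v 2 * w 0 - v 0 * w 2) := rfl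
theorem cr_two (v w : V E) : cr v w 2 = bar (v 0 * w 1 - v 1 * w 0) := rfl

theorem bar_sub (x y : E) : bar (x - y) = bar x - bar y := map_sub barHom x y

theorem h_cr_left (v w : V E) : h v (cr v w) = 0 := by
  simp only [h, cr_zero, cr_one, cr_two, bar_bar]; ring

theorem h_cr_right (v w : V E) : h w (cr v w) = 0 := by
  simp only [h, cr_zero, cr_one, cr_two, bar_bar]; ring

theorem h_left_cr (v w : V E) : h (cr v w) v = 0 := by
  rw [← bar_h, h_cr_left, bar_zero]

theorem h_right_cr (v w : V E) : h (cr v w) w = 0 := by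
  rw [← bar_h, h_cr_right, bar_zero]

theorem h_cr_cr (v w : V E) : h (cr v w) (cr v w) = h v v * h w w - h v w * h w v := by
  simp only [h, cr_zero, cr_one, cr_two, bar_bar, bar_sub, bar_mul]; ring

/-- a hyperbolic pair -/
structure Hyp (v w : V E) : Prop where
  vv : h v v = 0
  ww : h w w = 0
  vw : h v w = 1

theorem Hyp.wv {v w : V E} (H : Hyp v w) : h w v = 1 := by rw [← bar_h, H.vw, bar_one]

theorem Hyp.cc {v w : V E} (H : Hyp v w) : h (cr v w) (cr v w) = 1 := by
  rw [h_cr_cr, H.vv, H.vw, H.wv, zero_mul, one_mul, zero_sub, neg_eq]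

/-- the element of the special linear group attached to a hyperbolic pair -/
def hyp (v w : V E) (H : Hyp v w) : SL E :=
  ⟨!![v 0, w 0, cr v w 0; v 1, w 1, cr v w 1; v 2, w 2, cr v w 2], by
    rw [Matrix.det_fin_three]
    simp only [Matrix.of_apply, Matrix.cons_val', Matrix.cons_val_zero, Matrix.cons_val_one,
      Matrix.cons_val]
    have h1 := H.cc
    rw [h] at h1
    conv at h1 =>
      lhs
      rw [cr_zero, cr_one, cr_two]
      simp only [bar_bar]
    rw [cr_zero, cr_one, cr_two]
    linear_combination h1⟩

theorem hyp_smul {v w : V E} (H : Hyp v w) (x : V E) :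
    hyp v w H • x = x 0 • v + x 1 • w + x 2 • cr v w := by
  funext i
  rw [sl_smul_apply]
  fin_cases i <;> simp [hyp] <;> ring

/-- the form in the hyperbolic basis -/
def hJ (x y : V E) : E := x 0 * bar (y 1) + x 1 * bar (y 0) + x 2 * bar (y 2)

theorem h_hyp {v w : V E} (H : Hyp v w) (x y : V E) :
    h (hyp v w H • x) (hyp v w H • y) = hJ x y := by
  rw [hyp_smul, hyp_smul]
  simp only [h_add_left, h_add_right, h_smul_left, h_smul_right, H.vv, H.ww, H.vw, H.wv, H.cc,
    h_cr_left, h_cr_right, h_left_cr, h_right_cr]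
  rw [hJ]
  ring

theorem hyp_e0 {v w : V E} (H : Hyp v w) : hyp v w H • (e 0 : V E) = v := by
  rw [hyp_smul]; simp [e]

theorem hyp_e1 {v w : V E} (H : Hyp v w) : hyp v w H • (e 1 : V E) = w := by
  rw [hyp_smul]; simp [e]

/-- hyperbolic pairs are moved to each other -/
theorem exists_move {v w v' w' : V E} (H : Hyp v w) (H' : Hyp v' w') :
    ∃ g : SU E, g • v = v' ∧ g • w = w' := by
  have h0 : (hyp v w H)⁻¹ • v = e 0 := by rw [inv_smul_eq_iff, hyp_e0]
  have h1 : (hyp v w H)⁻¹ • w = e 1 := by rw [inv_smul_eq_iff, hyp_e1]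
  refine ⟨⟨hyp v' w' H' * (hyp v w H)⁻¹, ?_⟩, ?_, ?_⟩
  · rw [mem_SU]
    intro x y
    rw [mul_smul, mul_smul, h_hyp H', ← h_hyp H, smul_inv_smul, smul_inv_smul]
  · change (hyp v' w' H' * (hyp v w H)⁻¹) • v = v'
    rw [mul_smul, h0, hyp_e0]
  · change (hyp v' w' H' * (hyp v w H)⁻¹) • w = w'
    rw [mul_smul, h1, hyp_e1]

/-- an element fixing a hyperbolic pair is trivial -/
theorem eq_one_of_fix {v w : V E} (H : Hyp v w) {g : SU E} (hv : g • v = v) (hw : g • w = w) :
    g = 1 := by
  set M := hyp v w H with hM
  set k : SL E := M⁻¹ * (g : SL E) * M with hk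
  have hv' : (g : SL E) • v = v := hv
  have hw' : (g : SL E) • w = w := hw
  have k0 : k • (e 0 : V E) = e 0 := by
    rw [hk, mul_smul, mul_smul, hM, hyp_e0, hv', inv_smul_eq_iff, hyp_e0]
  have k1 : k • (e 1 : V E) = e 1 := by
    rw [hk, mul_smul, mul_smul, hM, hyp_e1, hw', inv_smul_eq_iff, hyp_e1]
  have kJ : ∀ x y : V E, hJ (k • x) (k • y) = hJ x y := by
    intro x y
    rw [← h_hyp H, ← h_hyp H x y, ← hM, hk, mul_smul, mul_smul, mul_smul, mul_smul, smul_inv_smul,
      smul_inv_smul]
    exact g.2 _ _
  have hJ0 : ∀ x : V E, hJ x (e 0) = x 1 := by intro x; simp [hJ, e]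
  have hJ1 : ∀ x : V E, hJ x (e 1) = x 0 := by intro x; simp [hJ, e]
  have a1 : (k • (e 2 : V E)) 1 = 0 := by
    have h1 := kJ (e 2) (e 0)
    rw [k0, hJ0, hJ0] at h1
    rw [h1]; simp [e]
  have a0 : (k • (e 2 : V E)) 0 = 0 := by
    have h1 := kJ (e 2) (e 1)
    rw [k1, hJ1, hJ1] at h1
    rw [h1]; simp [e]
  have hdet := k.2
  rw [Matrix.det_fin_three, ← smul_e k 0, ← smul_e k 0, ← smul_e k 0, ← smul_e k 1, ← smul_e k 1,
    ← smul_e k 1, ← smul_e k 2, ← smul_e k 2, ← smul_e k 2, k0, k1, a0, a1] at hdet
  have a2 : (k • (e 2 : V E)) 2 = 1 := by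
    simpa [e] using hdet
  have k2 : k • (e 2 : V E) = e 2 := by
    funext j
    fin_cases j
    · change (k • (e 2 : V E)) 0 = _
      rw [a0]; simp [e]
    · change (k • (e 2 : V E)) 1 = _
      rw [a1]; simp [e]
    · change (k • (e 2 : V E)) 2 = _
      rw [a2]; simp [e]
  have hk1 : k = 1 := by
    apply SL.ext_e
    intro i
    rw [one_smul]
    fin_cases i
    · exact k0
    · exact k1
    · exact k2
  have h3 : (g : SL E) = M * k * M⁻¹ := by rw [hk]; group
  apply Subtype.ext
  rw [h3, hk1]
  simp

theorem eq_of_fix {v w : V E} (H : Hyp v w) {g g' : SU E} (hv : g • v = g' • v)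
    (hw : g • w = g' • w) : g = g' := by
  have h1 : g'⁻¹ * g = 1 := eq_one_of_fix H (by rw [mul_smul, hv, inv_smul_smul])
    (by rw [mul_smul, hw, inv_smul_smul])
  exact (inv_mul_eq_one.1 h1).symm

/-- isotropic vectors which are not proportional are not orthogonal -/
theorem exists_smul_of_h_eq_zero {v w : V E} (hv : h v v = 0) (hw : h w w = 0) (hvw : h v w = 0)
    (hv0 : v ≠ 0) : ∃ c : E, w = c • v := by
  -- the cross product vanishes
  have h1 : h (cr v w) (cr v w) = 0 := by rw [h_cr_cr, hv, hvw]; ring
  -- it is enough to show that the cross product is zero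
  by_cases h0 : cr v w = 0
  · have c0 : v 1 * w 2 - v 2 * w 1 = 0 := by
      have := congrFun h0 0
      rw [cr_zero] at this
      simpa using this
    have c1 : v 2 * w 0 - v 0 * w 2 = 0 := by
      have := congrFun h0 1
      rw [cr_one] at this
      simpa using this
    have c2 : v 0 * w 1 - v 1 * w 0 = 0 := by
      have := congrFun h0 2
      rw [cr_two] at this
      simpa using this
    by_cases hv00 : v 0 = 0
    · by_cases hv10 : v 1 = 0
      · have hv20 : v 2 ≠ 0 := by
          intro hv20
          apply hv0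
          funext i
          fin_cases i <;> assumption
        refine ⟨w 2 / v 2, ?_⟩
        funext i
        fin_cases i
        · change w 0 = w 2 / v 2 * v 0
          field_simp
          linear_combination c1
        · change w 1 = w 2 / v 2 * v 1
          field_simp
          linear_combination -c0
        · change w 2 = w 2 / v 2 * v 2
          field_simp
      · refine ⟨w 1 / v 1, ?_⟩
        funext i
        fin_cases i
        · change w 0 = w 1 / v 1 * v 0
          field_simp
          linear_combination -c2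
        · change w 1 = w 1 / v 1 * v 1
          field_simp
        · change w 2 = w 1 / v 1 * v 2
          field_simp
          linear_combination c0
    · refine ⟨w 0 / v 0, ?_⟩
      funext i
      fin_cases i
      · change w 0 = w 0 / v 0 * v 0
        field_simp
      · change w 1 = w 0 / v 0 * v 1
        field_simp
        linear_combination c2
      · change w 2 = w 0 / v 0 * v 2
        field_simp
        linear_combination -c1
  · -- the vectors v, w, bar (v × w) would be pairwise orthogonal isotropic and independent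
    exfalso
    set u := cr v w with hu
    -- det (v, w, u) = h u u = 0, and v, w independent
    -- every vector orthogonal to v and w is proportional to u
    have hprop : ∀ x : V E, h x v = 0 → h x w = 0 → ∃ c : E, x = c • u := by
      intro x hxv hxw
      have e0 : bar (u 0) = v 1 * w 2 - v 2 * w 1 := by rw [hu, cr_zero, bar_bar]
      have e1 : bar (u 1) = v 2 * w 0 - v 0 * w 2 := by rw [hu, cr_one, bar_bar]
      have e2 : bar (u 2) = v 0 * w 1 - v 1 * w 0 := by rw [hu, cr_two, bar_bar]
      have f0 := congrArg bar e0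
      have f1 := congrArg bar e1
      have f2 := congrArg bar e2
      simp only [bar_bar, bar_sub, bar_mul] at f0 f1 f2
      simp only [h] at hxv hxw
      -- x ∧ u = 0
      have g0 : x 1 * u 2 - x 2 * u 1 = 0 := by
        rw [f1, f2]; linear_combination bar (v 0) * hxw - bar (w 0) * hxv
      have g1 : x 2 * u 0 - x 0 * u 2 = 0 := by
        rw [f0, f2]; linear_combination bar (v 1) * hxw - bar (w 1) * hxv
      have g2 : x 0 * u 1 - x 1 * u 0 = 0 := by
        rw [f0, f1]; linear_combination bar (v 2) * hxw - bar (w 2) * hxv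
      by_cases u0 : u 0 = 0
      · by_cases u1 : u 1 = 0
        · have u2 : u 2 ≠ 0 := by
            intro u2
            apply h0
            funext i
            fin_cases i <;> assumption
          refine ⟨x 2 / u 2, ?_⟩
          funext i
          fin_cases i
          · change x 0 = x 2 / u 2 * u 0
            field_simp
            linear_combination -g1
          · change x 1 = x 2 / u 2 * u 1
            field_simp
            linear_combination g0
          · change x 2 = x 2 / u 2 * u 2
            field_simp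
        · refine ⟨x 1 / u 1, ?_⟩
          funext i
          fin_cases i
          · change x 0 = x 1 / u 1 * u 0
            field_simp
            linear_combination g2
          · change x 1 = x 1 / u 1 * u 1
            field_simp
          · change x 2 = x 1 / u 1 * u 2
            field_simp
            linear_combination -g0
      · refine ⟨x 0 / u 0, ?_⟩
        funext i
        fin_cases i
        · change x 0 = x 0 / u 0 * u 0
          field_simp
        · change x 1 = x 0 / u 0 * u 1
          field_simp
          linear_combination -g2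
        · change x 2 = x 0 / u 0 * u 2
          field_simp
          linear_combination g1
    obtain ⟨a, ha⟩ := hprop v hv hvw
    obtain ⟨b, hb⟩ := hprop w (by rw [← bar_h, hvw, bar_zero]) hw
    apply h0
    rw [hu]
    funext i
    fin_cases i
    · change cr v w 0 = 0
      rw [cr_zero, ha, hb]
      simp only [Pi.smul_apply, smul_eq_mul]
      rw [show a * u 1 * (b * u 2) - a * u 2 * (b * u 1) = 0 by ring, bar_zero]
    · change cr v w 1 = 0
      rw [cr_one, ha, hb]
      simp only [Pi.smul_apply, smul_eq_mul]
      rw [show a * u 2 * (b * u 0) - a * u 0 * (b * u 2) = 0 by ring, bar_zero]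
    · change cr v w 2 = 0
      rw [cr_two, ha, hb]
      simp only [Pi.smul_apply, smul_eq_mul]
      rw [show a * u 0 * (b * u 1) - a * u 1 * (b * u 0) = 0 by ring, bar_zero]

/-! ### the points -/

/-- the isotropic points -/
def X (E : Type) [HermField E] : Type := {p : ℙ E (V E) // h p.rep p.rep = 0}

/-- the point of an isotropic vector -/
def pt (v : V E) (hv0 : v ≠ 0) (hv : h v v = 0) : X E :=
  ⟨Projectivization.mk E v hv0, by
    obtain ⟨a, ha⟩ := (Projectivization.mk_eq_mk_iff E _ _ (Projectivization.rep_nonzero _) hv0).1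
      (Projectivization.mk_rep (Projectivization.mk E v hv0))
    rw [← ha]
    change h ((a : E) • v) ((a : E) • v) = 0
    rw [h_smul_left, h_smul_right, hv, mul_zero, mul_zero]⟩

theorem pt_eq_iff {v w : V E} {hv0 : v ≠ 0} {hv : h v v = 0} {hw0 : w ≠ 0} {hw : h w w = 0} :
    pt v hv0 hv = pt w hw0 hw ↔ ∃ c : E, c • w = v := by
  constructor
  · intro hh
    exact (Projectivization.mk_eq_mk_iff' E _ _ hv0 hw0).1 (congrArg Subtype.val hh)
  · intro hh
    exact Subtype.ext ((Projectivization.mk_eq_mk_iff' E _ _ hv0 hw0).2 hh)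

theorem X.exists_rep (x : X E) : ∃ (v : V E) (hv0 : v ≠ 0) (hv : h v v = 0), x = pt v hv0 hv :=
  ⟨x.1.rep, Projectivization.rep_nonzero _, x.2, Subtype.ext (Projectivization.mk_rep x.1).symm⟩

theorem SU.smul_ne_zero (g : SU E) {v : V E} (hv0 : v ≠ 0) : g • v ≠ 0 :=
  (smul_ne_zero_iff_ne g).2 hv0

instance : MulAction (SU E) (X E) where
  smul g x := ⟨g • x.1, by
    obtain ⟨v, hv0, hv, rfl⟩ := x.exists_rep
    exact (pt (g • v) (SU.smul_ne_zero g hv0) (by rw [SU.h_smul, hv])).2⟩
  one_smul x := Subtype.ext (one_smul _ _)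
  mul_smul g g' x := Subtype.ext (mul_smul _ _ _)

theorem smul_pt (g : SU E) {v : V E} (hv0 : v ≠ 0) (hv : h v v = 0) :
    g • pt v hv0 hv = pt (g • v) (SU.smul_ne_zero g hv0) (by rw [SU.h_smul, hv]) := rfl

end Pool.Agent.J4.H5.UF
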