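import Mathlib

set_option autoImplicit false

/-!
# Three projections with small pairwise angles
-/

namespace Pool.Agent.J4.H5.UF

open RCLike Filter

variable {H : Type*} [NormedAddCommGroup H] [InnerProductSpace ℂ H]

/-- a self-adjoint idempotent operator -/
structure IsProj (P : H →L[ℂ] H) : Prop where
  idem : ∀ v, P (P v) = P v
  adj : ∀ v w, inner ℂ (P v) w = inner ℂ v (P w)

theorem IsProj.re_inner_self {P : H →L[ℂ] H} (hP : IsProj P) (v : H) :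
    re (inner ℂ (P v) v : ℂ) = ‖P v‖ ^ 2 := by
  have h1 : inner ℂ (P v) v = inner ℂ (P v) (P v) := by
    rw [← hP.adj, hP.idem]
  rw [h1, inner_self_eq_norm_sq]

theorem IsProj.norm_sub_sq {P : H →L[ℂ] H} (hP : IsProj P) (v : H) :
    ‖v - P v‖ ^ 2 = ‖v‖ ^ 2 - ‖P v‖ ^ 2 := by
  have h2 := hP.re_inner_self v
  rw [@_root_.norm_sub_sq ℂ, ← inner_re_symm, h2]
  ring

theorem IsProj.re_inner_sub {P : H →L[ℂ] H} (hP : IsProj P) (v : H) :
    re (inner ℂ (v - P v) v : ℂ) = ‖v - P v‖ ^ 2 := by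
  rw [inner_sub_left, map_sub, hP.re_inner_self, hP.norm_sub_sq, inner_self_eq_norm_sq]

theorem IsProj.norm_sub_le {P : H →L[ℂ] H} (hP : IsProj P) (v : H) : ‖v - P v‖ ≤ ‖v‖ := by
  have h1 := hP.norm_sub_sq v
  have h2 : ‖v - P v‖ ^ 2 ≤ ‖v‖ ^ 2 := by rw [h1]; nlinarith [sq_nonneg ‖P v‖]
  exact le_of_sq_le_sq h2 (norm_nonneg _)

/-- **Two projections.** `P₀` is the projection to the common fixed vectors of `P₁` and `P₂`, and the
angle between their fixed vectors orthogonal to these is bounded. -/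
theorem two_proj {P₀ P₁ P₂ : H →L[ℂ] H} (h₀ : IsProj P₀) (h₁ : IsProj P₁) (h₂ : IsProj P₂)
    (h10 : ∀ v, P₁ (P₀ v) = P₀ v) (h20 : ∀ v, P₂ (P₀ v) = P₀ v) {ε : ℝ} (hε0 : 0 ≤ ε)
    (hε : ∀ u w, P₁ u = u → P₂ w = w → P₀ u = 0 → P₀ w = 0 →
      ‖(inner ℂ u w : ℂ)‖ ≤ ε * (‖u‖ * ‖w‖)) (v : H) :
    -(ε * (‖v - P₁ v‖ ^ 2 + ‖v - P₂ v‖ ^ 2)) ≤ 2 * re (inner ℂ (v - P₁ v) (v - P₂ v) : ℂ) := by
  have h01 : ∀ v, P₀ (P₁ v) = P₀ v := by
    intro v
    refine ext_inner_right ℂ fun w => ?_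
    rw [h₀.adj, h₁.adj, h10, ← h₀.adj]
  have h02 : ∀ v, P₀ (P₂ v) = P₀ v := by
    intro v
    refine ext_inner_right ℂ fun w => ?_
    rw [h₀.adj, h₂.adj, h20, ← h₀.adj]
  -- reduction to vectors orthogonal to the common fixed vectors
  suffices key : ∀ v, P₀ v = 0 →
      -(ε * (‖v - P₁ v‖ ^ 2 + ‖v - P₂ v‖ ^ 2)) ≤ 2 * re (inner ℂ (v - P₁ v) (v - P₂ v) : ℂ) by
    have h3 := key (v - P₀ v) (by rw [map_sub, h₀.idem, sub_self])
    have h4 : v - P₀ v - P₁ (v - P₀ v) = v - P₁ v := by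
      rw [map_sub, h10]; abel
    have h5 : v - P₀ v - P₂ (v - P₀ v) = v - P₂ v := by
      rw [map_sub, h20]; abel
    rwa [h4, h5] at h3
  clear v
  intro v hv
  set x := P₁ v with hx
  set y := P₂ v with hy
  have hxy : ‖(inner ℂ x y : ℂ)‖ ≤ ε * (‖x‖ * ‖y‖) := by
    apply hε
    · rw [hx, h₁.idem]
    · rw [hy, h₂.idem]
    · rw [hx, h01, hv]
    · rw [hy, h02, hv]
  set s := ‖x‖ ^ 2 + ‖y‖ ^ 2 with hs
  have hs0 : 0 ≤ s := by positivity
  have h3 : ‖x + y‖ ^ 2 ≤ (1 + ε) * s := by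
    rw [@norm_add_sq ℂ]
    have h4 : re (inner ℂ x y : ℂ) ≤ ε * (‖x‖ * ‖y‖) := (re_le_norm _).trans hxy
    have h5 : 2 * (‖x‖ * ‖y‖) ≤ s := by nlinarith [sq_nonneg (‖x‖ - ‖y‖)]
    nlinarith
  have h4 : s = re (inner ℂ (x + y) v : ℂ) := by
    rw [inner_add_left, map_add, hx, hy, h₁.re_inner_self, h₂.re_inner_self]
  have h5 : s ≤ ‖x + y‖ * ‖v‖ := by
    rw [h4]
    exact (re_le_norm _).trans (norm_inner_le_norm _ _)
  have h6 : s ≤ (1 + ε) * ‖v‖ ^ 2 := by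
    have h7 : s * s ≤ s * ((1 + ε) * ‖v‖ ^ 2) := by
      calc s * s ≤ (‖x + y‖ * ‖v‖) * (‖x + y‖ * ‖v‖) := mul_le_mul h5 h5 hs0 (by positivity)
        _ = ‖x + y‖ ^ 2 * ‖v‖ ^ 2 := by ring
        _ ≤ ((1 + ε) * s) * ‖v‖ ^ 2 := mul_le_mul_of_nonneg_right h3 (sq_nonneg _)
        _ = _ := by ring
    rcases hs0.eq_or_lt with h8 | h8
    · rw [← h8]; positivity
    · exact le_of_mul_le_mul_left h7 h8
  set n := ‖v - x‖ ^ 2 + ‖v - y‖ ^ 2 with hn
  have hn0 : 0 ≤ n := by positivity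
  have h7 : n = 2 * ‖v‖ ^ 2 - s := by
    rw [hn, hx, hy, h₁.norm_sub_sq, h₂.norm_sub_sq, hs]; ring
  have h8 : (1 - ε) * ‖v‖ ^ 2 ≤ n := by linarith
  have h9 : n = re (inner ℂ ((v - x) + (v - y)) v : ℂ) := by
    rw [inner_add_left, map_add, hx, hy, h₁.re_inner_sub, h₂.re_inner_sub]
  have h10' : n ≤ ‖(v - x) + (v - y)‖ * ‖v‖ := by
    rw [h9]
    exact (re_le_norm _).trans (norm_inner_le_norm _ _)
  have h11 : ‖(v - x) + (v - y)‖ ^ 2 = n + 2 * re (inner ℂ (v - x) (v - y) : ℂ) := by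
    rw [@norm_add_sq ℂ, hn]; ring
  have h12 : (1 - ε) * n ≤ ‖(v - x) + (v - y)‖ ^ 2 := by
    rcases (sq_nonneg ‖v‖).eq_or_lt with h13 | h13
    · have hv0 : v = 0 := by
        have : ‖v‖ = 0 := by simpa using h13.symm
        exact norm_eq_zero.1 this
      have h14 : n = 0 := by
        rw [h7, hs, hx, hy, hv0]; simp
      rw [h14]
      simp only [mul_zero]
      positivity
    · have h14 : ‖v‖ ^ 2 * ((1 - ε) * n) ≤ ‖v‖ ^ 2 * ‖(v - x) + (v - y)‖ ^ 2 := by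
        calc ‖v‖ ^ 2 * ((1 - ε) * n) = ((1 - ε) * ‖v‖ ^ 2) * n := by ring
          _ ≤ n * n := mul_le_mul_of_nonneg_right h8 hn0
          _ ≤ (‖(v - x) + (v - y)‖ * ‖v‖) * (‖(v - x) + (v - y)‖ * ‖v‖) :=
              mul_le_mul h10' h10' hn0 (by positivity)
          _ = _ := by ring
      exact le_of_mul_le_mul_left h14 h13
  rw [h11] at h12
  linarith

/-- **Three projections.** If the pairwise angles are small, then a vector which is almost fixed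
by three projections is close to a vector fixed by the three projections. -/
theorem three_proj [CompleteSpace H] {P : Fin 3 → H →L[ℂ] H} (hP : ∀ i, IsProj (P i))
    (hpair : ∀ i j, i ≠ j → ∀ v, -((1 / 3) * (‖v - P i v‖ ^ 2 + ‖v - P j v‖ ^ 2)) ≤
      2 * re (inner ℂ (v - P i v) (v - P j v) : ℂ)) (v : H) {δ : ℝ} (hδ : 0 ≤ δ)
    (hv : ‖v - P 0 v‖ ^ 2 + ‖v - P 1 v‖ ^ 2 + ‖v - P 2 v‖ ^ 2 ≤ δ ^ 2) :
    ∃ w, (∀ i, P i w = w) ∧ ‖v - w‖ ≤ 20 * δ := by
  -- the functional and the averaged operator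
  set f : H → ℝ := fun v => ‖v - P 0 v‖ ^ 2 + ‖v - P 1 v‖ ^ 2 + ‖v - P 2 v‖ ^ 2 with hf
  set Δ : H → H := fun v => (v - P 0 v) + (v - P 1 v) + (v - P 2 v) with hΔ
  have hf0 : ∀ v, 0 ≤ f v := fun v => by simp only [hf]; positivity
  have hΔadj : ∀ v w, inner ℂ (Δ v) w = inner ℂ v (Δ w) := by
    intro v w
    simp only [hΔ, inner_add_left, inner_sub_left, inner_add_right, inner_sub_right, (hP _).adj]
  have hfre : ∀ v, f v = re (inner ℂ (Δ v) v : ℂ) := by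
    intro v
    simp only [hΔ, hf, inner_add_left, map_add, (hP _).re_inner_sub]
  have hΔlow : ∀ v, (1 / 3) * f v ≤ ‖Δ v‖ ^ 2 := by
    intro v
    have h1 : ‖Δ v‖ ^ 2 = f v + 2 * re (inner ℂ (v - P 0 v) (v - P 1 v) : ℂ) +
        2 * re (inner ℂ (v - P 0 v) (v - P 2 v) : ℂ) +
        2 * re (inner ℂ (v - P 1 v) (v - P 2 v) : ℂ) := by
      simp only [hΔ, hf]
      rw [@norm_add_sq ℂ, @norm_add_sq ℂ, inner_add_left, map_add]
      ring
    have h2 := hpair 0 1 (by decide) v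
    have h3 := hpair 0 2 (by decide) v
    have h4 := hpair 1 2 (by decide) v
    rw [h1]
    simp only [hf]
    linarith
  have hΔup : ∀ v, ‖Δ v‖ ^ 2 ≤ 3 * f v := by
    intro v
    have h1 : ‖Δ v‖ ≤ ‖v - P 0 v‖ + ‖v - P 1 v‖ + ‖v - P 2 v‖ := norm_add₃_le
    have h2 : ‖Δ v‖ ^ 2 ≤ (‖v - P 0 v‖ + ‖v - P 1 v‖ + ‖v - P 2 v‖) ^ 2 :=
      pow_le_pow_left₀ (norm_nonneg _) h1 2
    refine h2.trans ?_
    simp only [hf]
    nlinarith [sq_nonneg (‖v - P 0 v‖ - ‖v - P 1 v‖), sq_nonneg (‖v - P 0 v‖ - ‖v - P 2 v‖),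
      sq_nonneg (‖v - P 1 v‖ - ‖v - P 2 v‖)]
  have hfup : ∀ v, f v ≤ 3 * ‖v‖ ^ 2 := by
    intro v
    have h1 : ∀ i, ‖v - P i v‖ ^ 2 ≤ ‖v‖ ^ 2 := fun i =>
      pow_le_pow_left₀ (norm_nonneg _) ((hP i).norm_sub_le v) 2
    simp only [hf]
    linarith [h1 0, h1 1, h1 2]
  set M : H → H := fun v => v - (1 / 3 : ℝ) • Δ v with hM
  have hΔsub : ∀ (v w : H) (c : ℝ), Δ (v - c • w) = Δ v - c • Δ w := by
    intro v w c
    simp only [hΔ, map_sub]
    have h1 : ∀ i, P i (c • w) = c • P i w := fun i =>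
      (P i).map_smul_of_tower c w
    simp only [h1, smul_add, smul_sub]
    abel
  have hcontr : ∀ v, f (M v) ≤ (8 / 9) * f v := by
    intro v
    have h1 : f (M v) = f v - (2 / 3) * ‖Δ v‖ ^ 2 + (1 / 9) * f (Δ v) := by
      rw [hfre (M v)]
      have e0 : M v = v - ((1 / 3 : ℝ) : ℂ) • Δ v := by
        simp only [hM]
        rw [Complex.coe_smul]
      have e00 : Δ (M v) = Δ v - ((1 / 3 : ℝ) : ℂ) • Δ (Δ v) := by
        simp only [hM]
        rw [hΔsub, Complex.coe_smul]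
      rw [e00, e0, inner_sub_left, inner_sub_right, inner_sub_right, inner_smul_left,
        inner_smul_right, inner_smul_left, inner_smul_right, hΔadj (Δ v) v]
      have e1 : (inner ℂ (Δ v) (Δ v) : ℂ) = ((‖Δ v‖ ^ 2 : ℝ) : ℂ) := by
        rw [inner_self_eq_norm_sq_to_K]; push_cast; rfl
      have e2 := hfre v
      have e3 := hfre (Δ v)
      rw [e2, e3, e1]
      simp only [Complex.conj_ofReal, map_sub, RCLike.re_to_complex, Complex.re_ofReal_mul,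
        Complex.ofReal_re]
      ring
    have h2 := hfup (Δ v)
    have h3 := hΔlow v
    rw [h1]
    linarith
  -- the iteration
  let u : ℕ → H := fun n => M^[n] v
  have hu0 : u 0 = v := rfl
  have hus : ∀ n, u (n + 1) = M (u n) := fun n => Function.iterate_succ_apply' M n v
  have hfu : ∀ n, f (u n) ≤ ((95 / 100) ^ n * δ) ^ 2 := by
    intro n
    induction n with
    | zero => simpa [hu0] using hv
    | succ n ih =>
      rw [hus]
      calc f (M (u n)) ≤ (8 / 9) * f (u n) := hcontr _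
        _ ≤ (8 / 9) * ((95 / 100) ^ n * δ) ^ 2 := by linarith
        _ ≤ ((95 / 100) ^ (n + 1) * δ) ^ 2 := by
          have : ((95 / 100 : ℝ) ^ (n + 1) * δ) ^ 2 =
              (9025 / 10000) * ((95 / 100) ^ n * δ) ^ 2 := by ring
          rw [this]
          nlinarith [sq_nonneg ((95 / 100 : ℝ) ^ n * δ)]
  have hdist : ∀ n, dist (u n) (u (n + 1)) ≤ δ * (95 / 100) ^ n := by
    intro n
    rw [hus, dist_eq_norm]
    have h1 : u n - M (u n) = (1 / 3 : ℝ) • Δ (u n) := by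
      simp only [hM]; abel
    rw [h1, norm_smul]
    have h2 : ‖Δ (u n)‖ ^ 2 ≤ (3 * (δ * (95 / 100) ^ n)) ^ 2 := by
      have h3 := hΔup (u n)
      have h4 := hfu n
      nlinarith [sq_nonneg (δ * (95 / 100 : ℝ) ^ n)]
    have h3 : ‖Δ (u n)‖ ≤ 3 * (δ * (95 / 100) ^ n) :=
      le_of_sq_le_sq h2 (by positivity)
    rw [Real.norm_of_nonneg (by norm_num)]
    linarith
  have hcau : CauchySeq u := cauchySeq_of_le_geometric (95 / 100) δ (by norm_num) hdist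
  obtain ⟨w, hw⟩ := cauchySeq_tendsto_of_complete hcau
  refine ⟨w, ?_, ?_⟩
  · have hfc : Continuous f := by
      simp only [hf]
      fun_prop
    have h1 : Tendsto (fun n => f (u n)) atTop (nhds (f w)) := (hfc.tendsto w).comp hw
    have h2 : Tendsto (fun n : ℕ => ((95 / 100 : ℝ) ^ n * δ) ^ 2) atTop (nhds ((0 * δ) ^ 2)) :=
      ((tendsto_pow_atTop_nhds_zero_of_lt_one (by norm_num) (by norm_num)).mul_const δ).pow 2
    have h3 : f w ≤ (0 * δ) ^ 2 := le_of_tendsto_of_tendsto' h1 h2 hfu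
    have h4 : f w = 0 := le_antisymm (by simpa using h3) (hf0 w)
    have h5 : ∀ i, ‖w - P i w‖ ^ 2 = 0 := by
      have a0 := sq_nonneg ‖w - P 0 w‖
      have a1 := sq_nonneg ‖w - P 1 w‖
      have a2 := sq_nonneg ‖w - P 2 w‖
      simp only [hf] at h4
      intro i
      fin_cases i
      · show ‖w - P 0 w‖ ^ 2 = 0
        linarith
      · show ‖w - P 1 w‖ ^ 2 = 0
        linarith
      · show ‖w - P 2 w‖ ^ 2 = 0
        linarith
    intro i
    have h6 : ‖w - P i w‖ = 0 := by simpa using h5 i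
    have h7 := norm_eq_zero.1 h6
    exact (sub_eq_zero.1 h7).symm
  · have h1 := dist_le_of_le_geometric_of_tendsto₀ (95 / 100) δ (by norm_num) hdist hw
    rw [hu0, dist_eq_norm] at h1
    refine h1.trans (le_of_eq ?_)
    ring

end Pool.Agent.J4.H5.UF
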