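import Pool.Agent.J4.H5.UF.Angle
import Pool.Agent.J4.H5.UF.Proj

set_option autoImplicit false

/-!
# A spectral criterion for groups generated by three copies of the special unitary group
-/

namespace Pool.Agent.J4.H5.UF

open HermField RCLike

section averages

variable {H : Type*} [NormedAddCommGroup H] [InnerProductSpace ℂ H] {A : Type*} [Group A]
  [Fintype A]

/-- the averaging operator of a finite group -/
noncomputable def avg (α : A →* (H ≃ₗᵢ[ℂ] H)) : H →L[ℂ] H :=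
  ((Fintype.card A : ℂ)⁻¹) • ∑ a : A, ((α a).toContinuousLinearEquiv : H →L[ℂ] H)

theorem avg_apply (α : A →* (H ≃ₗᵢ[ℂ] H)) (v : H) :
    avg α v = ((Fintype.card A : ℂ)⁻¹) • ∑ a : A, α a v := by
  simp [avg]

theorem card_ne (A : Type*) [Group A] [Fintype A] : (Fintype.card A : ℂ) ≠ 0 :=
  Nat.cast_ne_zero.2 Fintype.card_ne_zero

theorem smul_avg (α : A →* (H ≃ₗᵢ[ℂ] H)) (a : A) (v : H) : α a (avg α v) = avg α v := by
  rw [avg_apply, map_smul, map_sum]
  congr 1
  refine Fintype.sum_equiv (Equiv.mulLeft a) _ _ fun b => ?_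
  rw [Equiv.coe_mulLeft, map_mul]
  rfl

theorem avg_smul (α : A →* (H ≃ₗᵢ[ℂ] H)) (a : A) (v : H) : avg α (α a v) = avg α v := by
  rw [avg_apply, avg_apply]
  congr 1
  refine Fintype.sum_equiv (Equiv.mulRight a) _ _ fun b => ?_
  rw [Equiv.coe_mulRight, map_mul]
  rfl

theorem avg_of_fixed (α : A →* (H ≃ₗᵢ[ℂ] H)) {v : H} (hv : ∀ a, α a v = v) : avg α v = v := by
  rw [avg_apply]
  simp only [hv]
  rw [Finset.sum_const, Finset.card_univ, ← Nat.cast_smul_eq_nsmul ℂ, smul_smul,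
    inv_mul_cancel₀ (card_ne A), one_smul]

theorem fixed_of_avg (α : A →* (H ≃ₗᵢ[ℂ] H)) {v : H} (hv : avg α v = v) (a : A) : α a v = v := by
  conv_lhs => rw [← hv]
  rw [smul_avg, hv]

theorem avg_isProj (α : A →* (H ≃ₗᵢ[ℂ] H)) : IsProj (avg α) where
  idem v := avg_of_fixed α fun a => smul_avg α a v
  adj v w := by
    rw [avg_apply, avg_apply, inner_smul_left, inner_smul_right, sum_inner, inner_sum]
    congr 1
    · simp
    · refine Fintype.sum_equiv (Equiv.inv A) _ _ fun b => ?_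
      rw [Equiv.inv_apply]
      have h1 : α b (α b⁻¹ w) = w := by
        have h2 : α (b * b⁻¹) w = α b (α b⁻¹ w) := by rw [map_mul]; rfl
        rw [← h2, mul_inv_cancel, map_one]
        rfl
      conv_lhs => rw [← h1]
      rw [LinearIsometryEquiv.inner_map_map]

theorem norm_sub_avg_le (α : A →* (H ≃ₗᵢ[ℂ] H)) {v : H} {δ : ℝ} (hδ : ∀ a, ‖α a v - v‖ ≤ δ) :
    ‖v - avg α v‖ ≤ δ := by
  have h1 : v - avg α v = ((Fintype.card A : ℂ)⁻¹) • ∑ a : A, (v - α a v) := by
    rw [Finset.sum_sub_distrib, smul_sub, ← avg_apply, Finset.sum_const, Finset.card_univ,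
      ← Nat.cast_smul_eq_nsmul ℂ, smul_smul, inv_mul_cancel₀ (card_ne A), one_smul]
  rw [h1, norm_smul, norm_inv, Complex.norm_natCast]
  have h2 : ‖∑ a : A, (v - α a v)‖ ≤ ∑ _a : A, δ :=
    norm_sum_le_of_le _ fun a _ => by rw [norm_sub_rev]; exact hδ a
  rw [Finset.sum_const, Finset.card_univ, nsmul_eq_mul] at h2
  have h3 : (0 : ℝ) < Fintype.card A := Nat.cast_pos.2 Fintype.card_pos
  calc ((Fintype.card A : ℝ))⁻¹ * ‖∑ a : A, (v - α a v)‖
      ≤ ((Fintype.card A : ℝ))⁻¹ * (Fintype.card A * δ) :=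
        mul_le_mul_of_nonneg_left h2 (by positivity)
    _ = δ := by rw [← mul_assoc, inv_mul_cancel₀ h3.ne', one_mul]

end averages

variable {E : Type} [HermField E]

/-! ### permutations -/

theorem sw_ok : N (0 : E) + N 1 = 1 := by rw [N_zero, N_one, zero_add]

/-- the swap of the first two basis vectors -/
def sw01 : SU E := M01 0 1 sw_ok

/-- the swap of the last two basis vectors -/
def sw12 : SU E := M12 0 1 sw_ok

theorem sw01_e0 : (sw01 : SU E) • (e 0 : V E) = e 1 := by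
  rw [sw01, M01_smul]
  funext j
  fin_cases j <;> simp [e]

theorem sw01_e1 : (sw01 : SU E) • (e 1 : V E) = e 0 := by
  rw [sw01, M01_smul]
  funext j
  fin_cases j <;> simp [e]

theorem sw01_e2 : (sw01 : SU E) • (e 2 : V E) = e 2 := by
  rw [sw01, M01_smul]
  funext j
  fin_cases j <;> simp [e]

theorem sw12_e0 : (sw12 : SU E) • (e 0 : V E) = e 0 := by
  rw [sw12, M12_smul]
  funext j
  fin_cases j <;> simp [e]

theorem sw12_e1 : (sw12 : SU E) • (e 1 : V E) = e 2 := by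
  rw [sw12, M12_smul]
  funext j
  fin_cases j <;> simp [e]

theorem sw12_e2 : (sw12 : SU E) • (e 2 : V E) = e 1 := by
  rw [sw12, M12_smul]
  funext j
  fin_cases j <;> simp [e]

theorem exists_perm {i j : Fin 3} (hij : i ≠ j) :
    ∃ s : SU E, s • (e i : V E) = e 2 ∧ s • (e j : V E) = e 0 := by
  fin_cases i <;> fin_cases j <;> first | exact absurd rfl hij | skip
  · exact ⟨sw12 * sw01, by
      change (sw12 * sw01) • (e 0 : V E) = e 2
      rw [mul_smul, sw01_e0, sw12_e1], by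
      change (sw12 * sw01) • (e 1 : V E) = e 0
      rw [mul_smul, sw01_e1, sw12_e0]⟩
  · exact ⟨sw01 * sw12 * sw01, by
      change (sw01 * sw12 * sw01) • (e 0 : V E) = e 2
      rw [mul_smul, mul_smul, sw01_e0, sw12_e1, sw01_e2], by
      change (sw01 * sw12 * sw01) • (e 2 : V E) = e 0
      rw [mul_smul, mul_smul, sw01_e2, sw12_e2, sw01_e1]⟩
  · exact ⟨sw12, by
      change (sw12 : SU E) • (e 1 : V E) = e 2
      rw [sw12_e1], by
      change (sw12 : SU E) • (e 0 : V E) = e 0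
      rw [sw12_e0]⟩
  · exact ⟨sw01 * sw12, by
      change (sw01 * sw12) • (e 1 : V E) = e 2
      rw [mul_smul, sw12_e1, sw01_e2], by
      change (sw01 * sw12) • (e 2 : V E) = e 0
      rw [mul_smul, sw12_e2, sw01_e1]⟩
  · exact ⟨1, by
      change (1 : SU E) • (e 2 : V E) = e 2
      rw [one_smul], by
      change (1 : SU E) • (e 0 : V E) = e 0
      rw [one_smul]⟩
  · exact ⟨sw01, by
      change (sw01 : SU E) • (e 2 : V E) = e 2
      rw [sw01_e2], by
      change (sw01 : SU E) • (e 1 : V E) = e 0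
      rw [sw01_e1]⟩

section rep

variable {H : Type*} [NormedAddCommGroup H] [InnerProductSpace ℂ H]

theorem angle_gen (π : SU E →* (H ≃ₗᵢ[ℂ] H)) {i j : Fin 3} (hij : i ≠ j) {u w : H}
    (hu : ∀ g : SU E, g • (e i : V E) = e i → π g u = u)
    (hw : ∀ g : SU E, g • (e j : V E) = e j → π g w = w) (hsum : ∑ g : SU E, π g u = 0) :
    ((Q E : ℝ) - 1) * ‖inner ℂ u w‖ ≤ ‖u‖ * ‖w‖ := by
  obtain ⟨s, hsi, hsj⟩ := exists_perm (E := E) hij
  have hconj : ∀ (g : SU E) (x : H), π g (π s x) = π s (π (s⁻¹ * g * s) x) := by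
    intro g x
    have h1 : g * s = s * (s⁻¹ * g * s) := by group
    have h2 : π (g * s) x = π g (π s x) := by rw [map_mul]; rfl
    have h3 : π (s * (s⁻¹ * g * s)) x = π s (π (s⁻¹ * g * s) x) := by
      rw [map_mul]; rfl
    rw [← h2, ← h3, h1]
  have h1 := angle π (u := π s u) (w := π s w) (by
    intro g hg
    rw [hconj, hu]
    rw [mul_smul, mul_smul, hsi, hg, ← hsi, inv_smul_smul]) (by
    rw [← map_zero (π s), ← hsum, map_sum]
    refine Fintype.sum_equiv (MulAut.conj s⁻¹).toEquiv _ _ fun b => ?_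
    rw [hconj]
    simp) (by
    intro g hg
    rw [hconj, hw]
    rw [mul_smul, mul_smul, hsj, hg, ← hsj, inv_smul_smul])
  rwa [LinearIsometryEquiv.inner_map_map, LinearIsometryEquiv.norm_map,
    LinearIsometryEquiv.norm_map] at h1

/-- the restriction to a stabilizer -/
noncomputable def st (π : SU E →* (H ≃ₗᵢ[ℂ] H)) (i : Fin 3) :
    MulAction.stabilizer (SU E) (e i : V E) →* (H ≃ₗᵢ[ℂ] H) :=
  π.comp (MulAction.stabilizer (SU E) (e i : V E)).subtype

noncomputable instance (i : Fin 3) : Fintype (MulAction.stabilizer (SU E) (e i : V E)) :=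
  Fintype.ofFinite _

/-- the projection to the vectors fixed by a stabilizer -/
noncomputable def PP (π : SU E →* (H ≃ₗᵢ[ℂ] H)) (i : Fin 3) : H →L[ℂ] H := avg (st π i)

theorem PP_fixed {π : SU E →* (H ≃ₗᵢ[ℂ] H)} {i : Fin 3} {v : H} (hv : PP π i v = v) (g : SU E)
    (hg : g • (e i : V E) = e i) : π g v = v :=
  fixed_of_avg (st π i) hv ⟨g, hg⟩

theorem PP_congr {π π' : SU E →* (H ≃ₗᵢ[ℂ] H)} {i : Fin 3}
    (hpp : ∀ g : SU E, g • (e i : V E) = e i → π g = π' g) : PP π i = PP π' i := by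
  have : st π i = st π' i := by
    ext g : 1
    exact hpp _ g.2
  rw [PP, PP, this]

theorem sum_eq_zero_of_avg {π : SU E →* (H ≃ₗᵢ[ℂ] H)} {u : H} (hu : avg π u = 0) :
    ∑ g : SU E, π g u = 0 := by
  rw [avg_apply, smul_eq_zero] at hu
  exact hu.resolve_left (inv_ne_zero (card_ne _))

theorem pair (π : SU E →* (H ≃ₗᵢ[ℂ] H)) {i j : Fin 3} (hij : i ≠ j) (v : H) :
    -((1 / 3) * (‖v - PP π i v‖ ^ 2 + ‖v - PP π j v‖ ^ 2)) ≤
      2 * re (inner ℂ (v - PP π i v) (v - PP π j v) : ℂ) := by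
  refine two_proj (avg_isProj π) (avg_isProj (st π i)) (avg_isProj (st π j)) ?_ ?_ (by norm_num)
    ?_ v
  · intro v
    exact avg_of_fixed _ fun a => smul_avg π a.1 v
  · intro v
    exact avg_of_fixed _ fun a => smul_avg π a.1 v
  · intro u w hu hw hu0 _
    have h1 := angle_gen π hij (PP_fixed hu) (PP_fixed hw) (sum_eq_zero_of_avg hu0)
    have h2 : (4 : ℝ) ≤ Q E := by exact_mod_cast four_le
    have h3 : 3 * ‖inner ℂ u w‖ ≤ ((Q E : ℝ) - 1) * ‖inner ℂ u w‖ :=
      mul_le_mul_of_nonneg_right (by linarith) (norm_nonneg _)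
    linarith

theorem fixed_of_two (π : SU E →* (H ≃ₗᵢ[ℂ] H)) {i j : Fin 3} (hij : i ≠ j) {w : H}
    (hi : ∀ g : SU E, g • (e i : V E) = e i → π g w = w)
    (hj : ∀ g : SU E, g • (e j : V E) = e j → π g w = w) (g : SU E) : π g w = w := by
  set w' := w - avg π w with hw'
  have hi' : ∀ g : SU E, g • (e i : V E) = e i → π g w' = w' := by
    intro g hg
    rw [hw', map_sub, smul_avg, hi g hg]
  have hj' : ∀ g : SU E, g • (e j : V E) = e j → π g w' = w' := by
    intro g hg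
    rw [hw', map_sub, smul_avg, hj g hg]
  have h0 : avg π w' = 0 := by
    rw [hw', map_sub, (avg_isProj π).idem, sub_self]
  have h1 := angle_gen π hij hi' hj' (sum_eq_zero_of_avg h0)
  rw [inner_self_eq_norm_sq_to_K, norm_pow, RCLike.norm_ofReal, abs_norm] at h1
  have h2 : (4 : ℝ) ≤ Q E := by exact_mod_cast four_le
  have h3 : w' = 0 := by
    by_contra hne
    have h4 : 0 < ‖w'‖ := norm_pos_iff.2 hne
    nlinarith [mul_pos h4 h4]
  have h4 : avg π w = w := by
    rw [hw', sub_eq_zero] at h3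
    exact h3.symm
  exact fixed_of_avg π h4 g

end rep

/-- **The spectral criterion.** A group generated by three copies of the special unitary group,
glued along the stabilizers of the basis vectors, fixes a nonzero vector as soon as it almost fixes
a unit vector. -/
theorem exists_fixed_vector {G : Type*} [Group G] (f : Fin 3 → SU E →* G)
    (h0 : ∀ g : SU E, g • (e 0 : V E) = e 0 → f 0 g = f 1 g)
    (h1 : ∀ g : SU E, g • (e 1 : V E) = e 1 → f 1 g = f 2 g)
    (h2 : ∀ g : SU E, g • (e 2 : V E) = e 2 → f 0 g = f 2 g)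
    (hgen : ∀ K : Subgroup G, (∀ i g, f i g ∈ K) → K = ⊤)
    {H : Type*} [NormedAddCommGroup H] [InnerProductSpace ℂ H] [CompleteSpace H]
    (π : G →* (H ≃ₗᵢ[ℂ] H)) (v : H) (hv1 : ‖v‖ = 1)
    (hv : ∀ i g, ‖π (f i g) v - v‖ ≤ 1 / 100) : ∃ w : H, w ≠ 0 ∧ ∀ g, π g w = w := by
  set σ : Fin 3 → (SU E →* (H ≃ₗᵢ[ℂ] H)) := fun k => π.comp (f k) with hσ
  have c0 : PP (σ 0) 0 = PP (σ 1) 0 := PP_congr fun g hg => by
    simp only [hσ, MonoidHom.comp_apply]; rw [h0 g hg]
  have c1 : PP (σ 1) 1 = PP (σ 2) 1 := PP_congr fun g hg => by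
    simp only [hσ, MonoidHom.comp_apply]; rw [h1 g hg]
  have c2 : PP (σ 0) 2 = PP (σ 2) 2 := PP_congr fun g hg => by
    simp only [hσ, MonoidHom.comp_apply]; rw [h2 g hg]
  set P : Fin 3 → H →L[ℂ] H := fun i => PP (σ i) i with hP
  have hproj : ∀ i, IsProj (P i) := fun i => avg_isProj _
  have hnear : ∀ i, ‖v - P i v‖ ≤ 1 / 100 := fun i =>
    norm_sub_avg_le (st (σ i) i) fun a => hv i a.1
  have p01 : ∀ v, -((1 / 3) * (‖v - P 0 v‖ ^ 2 + ‖v - P 1 v‖ ^ 2)) ≤
      2 * re (inner ℂ (v - P 0 v) (v - P 1 v) : ℂ) := by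
    intro v
    have h3 := pair (σ 1) (i := 0) (j := 1) (by decide) v
    rw [← c0] at h3
    exact h3
  have p12 : ∀ v, -((1 / 3) * (‖v - P 1 v‖ ^ 2 + ‖v - P 2 v‖ ^ 2)) ≤
      2 * re (inner ℂ (v - P 1 v) (v - P 2 v) : ℂ) := by
    intro v
    have h3 := pair (σ 2) (i := 1) (j := 2) (by decide) v
    rw [← c1] at h3
    exact h3
  have p02 : ∀ v, -((1 / 3) * (‖v - P 0 v‖ ^ 2 + ‖v - P 2 v‖ ^ 2)) ≤
      2 * re (inner ℂ (v - P 0 v) (v - P 2 v) : ℂ) := by
    intro v
    have h3 := pair (σ 0) (i := 0) (j := 2) (by decide) v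
    rw [c2] at h3
    exact h3
  have hsymm : ∀ i j, (∀ v, -((1 / 3) * (‖v - P i v‖ ^ 2 + ‖v - P j v‖ ^ 2)) ≤
      2 * re (inner ℂ (v - P i v) (v - P j v) : ℂ)) →
      ∀ v, -((1 / 3) * (‖v - P j v‖ ^ 2 + ‖v - P i v‖ ^ 2)) ≤
      2 * re (inner ℂ (v - P j v) (v - P i v) : ℂ) := by
    intro i j hij v
    rw [inner_re_symm, add_comm (‖v - P j v‖ ^ 2)]
    exact hij v
  have hpair : ∀ i j, i ≠ j → ∀ v, -((1 / 3) * (‖v - P i v‖ ^ 2 + ‖v - P j v‖ ^ 2)) ≤
      2 * re (inner ℂ (v - P i v) (v - P j v) : ℂ) := by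
    intro i j hij
    fin_cases i <;> fin_cases j
    · exact absurd rfl hij
    · exact p01
    · exact p02
    · exact hsymm 0 1 p01
    · exact absurd rfl hij
    · exact p12
    · exact hsymm 0 2 p02
    · exact hsymm 1 2 p12
    · exact absurd rfl hij
  obtain ⟨w, hw, hvw⟩ := three_proj hproj hpair v (δ := 1 / 50) (by norm_num) (by
    have a0 : ‖v - P 0 v‖ ^ 2 ≤ (1 / 100) ^ 2 := pow_le_pow_left₀ (norm_nonneg _) (hnear 0) 2
    have a1 : ‖v - P 1 v‖ ^ 2 ≤ (1 / 100) ^ 2 := pow_le_pow_left₀ (norm_nonneg _) (hnear 1) 2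
    have a2 : ‖v - P 2 v‖ ^ 2 ≤ (1 / 100) ^ 2 := pow_le_pow_left₀ (norm_nonneg _) (hnear 2) 2
    norm_num at a0 a1 a2 ⊢
    linarith)
  refine ⟨w, ?_, ?_⟩
  · rintro rfl
    rw [sub_zero, hv1] at hvw
    norm_num at hvw
  · -- the stabilizers
    have s00 : ∀ g : SU E, g • (e 0 : V E) = e 0 → σ 0 g w = w := PP_fixed (hw 0)
    have s11 : ∀ g : SU E, g • (e 1 : V E) = e 1 → σ 1 g w = w := PP_fixed (hw 1)
    have s22 : ∀ g : SU E, g • (e 2 : V E) = e 2 → σ 2 g w = w := PP_fixed (hw 2)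
    have s10 : ∀ g : SU E, g • (e 0 : V E) = e 0 → σ 1 g w = w := by
      apply PP_fixed
      rw [← c0]
      exact hw 0
    have s21 : ∀ g : SU E, g • (e 1 : V E) = e 1 → σ 2 g w = w := by
      apply PP_fixed
      rw [← c1]
      exact hw 1
    have s02 : ∀ g : SU E, g • (e 2 : V E) = e 2 → σ 0 g w = w := by
      apply PP_fixed
      rw [c2]
      exact hw 2
    have hall : ∀ k g, σ k g w = w := by
      intro k g
      fin_cases k
      · exact fixed_of_two (σ 0) (i := 0) (j := 2) (by decide) s00 s02 g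
      · exact fixed_of_two (σ 1) (i := 0) (j := 1) (by decide) s10 s11 g
      · exact fixed_of_two (σ 2) (i := 1) (j := 2) (by decide) s21 s22 g
    let K : Subgroup G :=
      { carrier := {g | π g w = w}
        mul_mem' := by
          intro a b ha hb
          change π (a * b) w = w
          rw [map_mul]
          change π a (π b w) = w
          rw [hb, ha]
        one_mem' := by
          change π 1 w = w
          rw [map_one]
          rfl
        inv_mem' := by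
          intro a ha
          change π a⁻¹ w = w
          have h3 : π a w = w := ha
          have h4 : π (a⁻¹ * a) w = π a⁻¹ (π a w) := by rw [map_mul]; rfl
          rw [inv_mul_cancel, map_one, h3] at h4
          exact h4.symm }
    have hK : K = ⊤ := hgen K fun i g => hall i g
    intro g
    have : g ∈ K := by rw [hK]; trivial
    exact this

/-- the criterion for unitary operators -/
theorem propT {G : Type} [Group G] (f : Fin 3 → SU E →* G)
    (h0 : ∀ g : SU E, g • (e 0 : V E) = e 0 → f 0 g = f 1 g)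
    (h1 : ∀ g : SU E, g • (e 1 : V E) = e 1 → f 1 g = f 2 g)
    (h2 : ∀ g : SU E, g • (e 2 : V E) = e 2 → f 0 g = f 2 g)
    (hgen : ∀ K : Subgroup G, (∀ i g, f i g ∈ K) → K = ⊤)
    (H : Type) [NormedAddCommGroup H] [InnerProductSpace ℂ H] [CompleteSpace H]
    (ρ : G →* unitary (H →L[ℂ] H))
    (hρ : ∀ (S : Finset G) (ε : ℝ), 0 < ε →
      ∃ v : H, ‖v‖ = 1 ∧ ∀ s ∈ S, ‖(ρ s : H →L[ℂ] H) v - v‖ < ε) :
    ∃ v : H, v ≠ 0 ∧ ∀ g : G, (ρ g : H →L[ℂ] H) v = v := by
  classical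
  obtain ⟨v, hv1, hv⟩ := hρ (Finset.univ.image fun p : Fin 3 × SU E => f p.1 p.2) (1 / 100)
    (by norm_num)
  obtain ⟨w, hw0, hw⟩ := exists_fixed_vector f h0 h1 h2 hgen
    (Unitary.linearIsometryEquiv.toMonoidHom.comp ρ) v hv1 (by
      intro i g
      exact (hv (f i g) (Finset.mem_image.2 ⟨(i, g), Finset.mem_univ _, rfl⟩)).le)
  exact ⟨w, hw0, hw⟩

end Pool.Agent.J4.H5.UF
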