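import Pool.Agent.J4.H5.UF.Field

set_option autoImplicit false

/-!
# The special unitary group in dimension three
-/

namespace Pool.Agent.J4.H5.UF

open HermField

variable {E : Type} [HermField E]

/-- the standard space -/
abbrev V (E : Type) := Fin 3 → E

/-- the special linear group -/
abbrev SL (E : Type) [HermField E] := Matrix.SpecialLinearGroup (Fin 3) E

/-- the hermitian form -/
def h (v w : V E) : E := v 0 * bar (w 0) + v 1 * bar (w 1) + v 2 * bar (w 2)

theorem bar_h (v w : V E) : bar (h v w) = h w v := by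
  simp only [h, bar_add, bar_mul, bar_bar]; ring

theorem h_add_left (u v w : V E) : h (u + v) w = h u w + h v w := by
  simp only [h, Pi.add_apply]; ring

theorem h_add_right (u v w : V E) : h u (v + w) = h u v + h u w := by
  simp only [h, Pi.add_apply, bar_add]; ring

theorem h_smul_left (c : E) (v w : V E) : h (c • v) w = c * h v w := by
  simp only [h, Pi.smul_apply, smul_eq_mul]; ring

theorem h_smul_right (c : E) (v w : V E) : h v (c • w) = bar c * h v w := by
  simp only [h, Pi.smul_apply, smul_eq_mul, bar_mul]; ring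

theorem h_zero_left (w : V E) : h 0 w = 0 := by simp [h]

theorem h_zero_right (w : V E) : h w 0 = 0 := by simp [h]

theorem h_self (v : V E) : h v v = N (v 0) + N (v 1) + N (v 2) := rfl

/-- nondegeneracy -/
theorem eq_of_h {v w : V E} (hvw : ∀ u, h v u = h w u) : v = w := by
  funext i
  have h0 := hvw (Pi.single i 1)
  fin_cases i <;> simpa [h] using h0

theorem sl_smul_add (g : SL E) (v w : V E) : g • (v + w) = g • v + g • w := smul_add _ _ _

theorem sl_smul_apply (g : SL E) (v : V E) (i : Fin 3) :
    (g • v) i = g.1 i 0 * v 0 + g.1 i 1 * v 1 + g.1 i 2 * v 2 := by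
  rw [Matrix.SpecialLinearGroup.smul_def]
  simp [Matrix.mulVec, dotProduct, Fin.sum_univ_three]

/-- the special unitary group -/
def SU (E : Type) [HermField E] : Subgroup (SL E) where
  carrier := {g | ∀ v w : V E, h (g • v) (g • w) = h v w}
  mul_mem' := by
    intro a b ha hb v w
    rw [mul_smul, mul_smul, ha, hb]
  one_mem' := by
    intro v w
    rw [one_smul, one_smul]
  inv_mem' := by
    intro a ha v w
    have h1 := ha (a⁻¹ • v) (a⁻¹ • w)
    rw [smul_inv_smul, smul_inv_smul] at h1
    exact h1.symm

theorem mem_SU {g : SL E} : g ∈ SU E ↔ ∀ v w : V E, h (g • v) (g • w) = h v w := Iff.rfl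

theorem SU.h_smul (g : SU E) (v w : V E) : h (g • v) (g • w) = h v w := g.2 v w

/-- the standard basis vectors -/
def e (i : Fin 3) : V E := Pi.single i 1

theorem smul_e (g : SL E) (i j : Fin 3) : (g • (e i : V E)) j = g.1 j i := by
  rw [sl_smul_apply]
  fin_cases i <;> simp [e]

theorem h_e (i j : Fin 3) : h (e i : V E) (e j) = if i = j then 1 else 0 := by
  fin_cases i <;> fin_cases j <;> simp [h, e]

theorem h_e_right (v : V E) (i : Fin 3) : h v (e i) = v i := by
  fin_cases i <;> simp [h, e]

theorem eq_sum (v : V E) : v = v 0 • e 0 + v 1 • e 1 + v 2 • e 2 := by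
  funext i
  fin_cases i <;> simp [e]

/-- elements of the special linear group are equal if they agree on the basis -/
theorem SL.ext_e {g g' : SL E} (hgg : ∀ i, g • (e i : V E) = g' • e i) : g = g' := by
  apply Subtype.ext
  ext i j
  have h1 := congrFun (hgg j) i
  rwa [smul_e, smul_e] at h1

theorem SU.ext_e {g g' : SU E} (hgg : ∀ i, g • (e i : V E) = g' • e i) : g = g' :=
  Subtype.ext (SL.ext_e hgg)

/-! ### the blocks -/

/-- the element acting on the first two coordinates -/
def m01 (a b : E) (hab : N a + N b = 1) : SL E :=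
  ⟨!![a, b, 0; bar b, bar a, 0; 0, 0, 1], by
    rw [Matrix.det_fin_three]
    simp only [Matrix.of_apply, Matrix.cons_val', Matrix.cons_val_zero, Matrix.cons_val_one,
      Matrix.cons_val]
    rw [N_def, N_def] at hab
    have := add_self (b * bar b)
    linear_combination hab - this⟩

/-- the element acting on the last two coordinates -/
def m12 (a b : E) (hab : N a + N b = 1) : SL E :=
  ⟨!![1, 0, 0; 0, a, b; 0, bar b, bar a], by
    rw [Matrix.det_fin_three]
    simp only [Matrix.of_apply, Matrix.cons_val', Matrix.cons_val_zero, Matrix.cons_val_one,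
      Matrix.cons_val]
    rw [N_def, N_def] at hab
    have := add_self (b * bar b)
    linear_combination hab - this⟩

theorem m01_smul (a b : E) (hab : N a + N b = 1) (v : V E) :
    m01 a b hab • v = ![a * v 0 + b * v 1, bar b * v 0 + bar a * v 1, v 2] := by
  funext i
  rw [sl_smul_apply]
  fin_cases i <;> simp [m01]

theorem m12_smul (a b : E) (hab : N a + N b = 1) (v : V E) :
    m12 a b hab • v = ![v 0, a * v 1 + b * v 2, bar b * v 1 + bar a * v 2] := by
  funext i
  rw [sl_smul_apply]
  fin_cases i <;> simp [m12]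

/-- the element acting on the first two coordinates -/
def M01 (a b : E) (hab : N a + N b = 1) : SU E :=
  ⟨m01 a b hab, by
    intro v w
    rw [m01_smul, m01_smul]
    simp only [h, Matrix.cons_val_zero, Matrix.cons_val_one, Matrix.cons_val, bar_add, bar_mul,
      bar_bar]
    rw [N_def, N_def] at hab
    have h1 := add_self (a * bar b * v 0 * bar (w 1))
    have h2 := add_self (b * bar a * v 1 * bar (w 0))
    have h3 := add_self (a * bar (w 0) * bar (b) * v 1)
    have h4 := add_self (bar a * v 0 * bar (w 1) * b)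
    have h5 := add_self (v 0 * bar (w 1) * a * b)
    have h6 := add_self (v 1 * bar (w 0) * bar a * bar b)
    have h7 := add_self (v 0 * bar (w 1) * a * bar b)
    have h8 := add_self (v 1 * bar (w 0) * bar a * b)
    linear_combination (v 0 * bar (w 0) + v 1 * bar (w 1)) * hab + h7 + h8⟩

/-- the element acting on the last two coordinates -/
def M12 (a b : E) (hab : N a + N b = 1) : SU E :=
  ⟨m12 a b hab, by
    intro v w
    rw [m12_smul, m12_smul]
    simp only [h, Matrix.cons_val_zero, Matrix.cons_val_one, Matrix.cons_val, bar_add, bar_mul,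
      bar_bar]
    rw [N_def, N_def] at hab
    have h7 := add_self (v 1 * bar (w 2) * a * bar b)
    have h8 := add_self (v 2 * bar (w 1) * bar a * b)
    linear_combination (v 1 * bar (w 1) + v 2 * bar (w 2)) * hab + h7 + h8⟩

theorem M01_smul (a b : E) (hab : N a + N b = 1) (v : V E) :
    M01 a b hab • v = ![a * v 0 + b * v 1, bar b * v 0 + bar a * v 1, v 2] :=
  m01_smul a b hab v

theorem M12_smul (a b : E) (hab : N a + N b = 1) (v : V E) :
    M12 a b hab • v = ![v 0, a * v 1 + b * v 2, bar b * v 1 + bar a * v 2] :=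
  m12_smul a b hab v

theorem N_add_N_swap {a b : E} (hab : N a + N b = 1) : N b + N a = 1 := by rw [add_comm]; exact hab

/-- move the first two coordinates to the second -/
theorem move01 (v : V E) (hv : N (v 0) + N (v 1) ≠ 0) :
    ∃ (a b : E) (hab : N a + N b = 1) (c : E), N c = N (v 0) + N (v 1) ∧
      M01 a b hab • v = ![0, c, v 2] := by
  obtain ⟨c, hc⟩ := exists_N (v := N (v 0) + N (v 1)) (by simp)
  have hc0 : c ≠ 0 := by
    rintro rfl
    rw [N_zero] at hc
    exact hv hc.symm
  refine ⟨v 1 / c, v 0 / c, ?_, c, hc, ?_⟩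
  · rw [N_div, N_div, ← add_div, add_comm, ← hc, div_self]
    simpa using hc0
  · rw [M01_smul]
    have h1 : v 1 / c * v 0 + v 0 / c * v 1 = 0 := by
      have := add_self (v 0 * v 1 / c)
      linear_combination this
    have h2 : bar (v 0 / c) * v 0 + bar (v 1 / c) * v 1 = c := by
      rw [bar_div, bar_div]
      have hc' : bar c ≠ 0 := bar_ne_zero hc0
      field_simp
      rw [N_def, N_def, N_def] at hc
      linear_combination -hc
    rw [h1, h2]

/-- move the last two coordinates to the last -/
theorem move12 (v : V E) (hv : N (v 1) + N (v 2) ≠ 0) :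
    ∃ (a b : E) (hab : N a + N b = 1) (c : E), N c = N (v 1) + N (v 2) ∧
      M12 a b hab • v = ![v 0, 0, c] := by
  obtain ⟨c, hc⟩ := exists_N (v := N (v 1) + N (v 2)) (by simp)
  have hc0 : c ≠ 0 := by
    rintro rfl
    rw [N_zero] at hc
    exact hv hc.symm
  refine ⟨v 2 / c, v 1 / c, ?_, c, hc, ?_⟩
  · rw [N_div, N_div, ← add_div, add_comm, ← hc, div_self]
    simpa using hc0
  · rw [M12_smul]
    have h1 : v 2 / c * v 1 + v 1 / c * v 2 = 0 := by
      have := add_self (v 1 * v 2 / c)
      linear_combination this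
    have h2 : bar (v 1 / c) * v 1 + bar (v 2 / c) * v 2 = c := by
      rw [bar_div, bar_div]
      have hc' : bar c ≠ 0 := bar_ne_zero hc0
      field_simp
      rw [N_def, N_def, N_def] at hc
      linear_combination -hc
    rw [h1, h2]

/-- a vector `(x, y)` of norm one is moved to `(0, 1)` -/
theorem move12' (v : V E) (hv : N (v 1) + N (v 2) = 1) :
    ∃ (a b : E) (hab : N a + N b = 1), M12 a b hab • v = ![v 0, 0, 1] := by
  refine ⟨v 2, v 1, N_add_N_swap hv, ?_⟩
  rw [M12_smul]
  have h1 : v 2 * v 1 + v 1 * v 2 = 0 := by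
    have := add_self (v 1 * v 2)
    linear_combination this
  have h2 : bar (v 1) * v 1 + bar (v 2) * v 2 = 1 := by
    rw [N_def, N_def] at hv
    linear_combination hv
  rw [h1, h2]

/-- some pair with nonzero entries -/
theorem exists_pair : ∃ a b : E, N a + N b = 1 ∧ a ≠ 0 ∧ b ≠ 0 := by
  obtain ⟨c, hc, hc0, hc1⟩ := exists_fixed (E := E)
  obtain ⟨a, ha⟩ := exists_N hc
  obtain ⟨b, hb⟩ := exists_N (v := c + 1) (by rw [bar_add, hc, bar_one])
  refine ⟨a, b, ?_, ?_, ?_⟩
  · rw [ha, hb, ← add_assoc, add_self, zero_add]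
  · rintro rfl
    rw [N_zero] at ha
    exact hc0 ha.symm
  · rintro rfl
    rw [N_zero] at hb
    apply hc1
    rw [← neg_eq (1 : E)]
    exact eq_neg_of_add_eq_zero_left hb.symm

/-- **Transitivity.** A subgroup containing the blocks is transitive on the vectors of norm one. -/
theorem transitive_of_blocks (H : Subgroup (SU E)) (h01 : ∀ a b hab, M01 a b hab ∈ H)
    (h12 : ∀ a b hab, M12 a b hab ∈ H) (v : V E) (hv : h v v = 1) :
    ∃ g ∈ H, g • v = e 2 := by
  classical
  -- first case
  have case1 : ∀ v : V E, h v v = 1 → N (v 0) + N (v 1) ≠ 0 → ∃ g ∈ H, g • v = e 2 := by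
    intro v hv h0
    obtain ⟨a, b, hab, c, hc, hM⟩ := move01 v h0
    have h1 : N c + N (v 2) = 1 := by rw [hc, ← hv, h_self]
    obtain ⟨a', b', hab', hM'⟩ := move12' ![0, c, v 2] h1
    refine ⟨M12 a' b' hab' * M01 a b hab, H.mul_mem (h12 _ _ _) (h01 _ _ _), ?_⟩
    rw [mul_smul, hM, hM']
    funext i
    fin_cases i <;> simp [e]
  by_cases h0 : N (v 0) + N (v 1) = 0
  · have hz : N (v 2) = 1 := by
      rw [h_self, h0, zero_add] at hv
      exact hv
    have hxy : N (v 0) = N (v 1) := by
      rw [← neg_eq (N (v 1))]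
      exact eq_neg_of_add_eq_zero_left h0
    by_cases hx : v 1 = 0
    · have hx0 : v 0 = 0 := by
        rw [hx, N_zero] at hxy
        simpa using hxy
      obtain ⟨a', b', hab', hM'⟩ := move12' v (by rw [hx, N_zero, zero_add, hz])
      refine ⟨M12 a' b' hab', h12 _ _ _, ?_⟩
      rw [hM', hx0]
      funext i
      fin_cases i <;> simp [e]
    · by_cases hy1 : N (v 1) = 1
      · -- all norms are one
        obtain ⟨a, b, hab, ha, hb⟩ := exists_pair (E := E)
        have hz0 : v 2 ≠ 0 := by
          intro h
          rw [h, N_zero] at hz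
          exact zero_ne_one hz
        set κ : E := a * bar b * (v 1 * bar (v 2)) with hκ
        have hκ0 : κ ≠ 0 := by
          rw [hκ]
          exact mul_ne_zero (mul_ne_zero ha (bar_ne_zero hb)) (mul_ne_zero hx (bar_ne_zero hz0))
        have hex : ∃ x ∈ N1f E, x * κ + bar (x * κ) ≠ 0 := by
          by_contra hcon
          push Not at hcon
          have h1 := card_traces hκ0
          have h2 : ((N1f E).image fun x => x * κ + bar (x * κ)) ⊆ {0} := by
            intro t ht
            obtain ⟨x, hx, rfl⟩ := Finset.mem_image.1 ht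
            rw [hcon x hx]
            simp
          have h3 := Finset.card_le_card h2
          rw [Finset.card_singleton] at h3
          have hQ : 4 ≤ Q E := four_le
          omega
        obtain ⟨x, hx1, hxt⟩ := hex
        rw [mem_N1f] at hx1
        have hab' : N (x * a) + N b = 1 := by rw [N_mul, hx1, one_mul, hab]
        have hnew : N (x * a * v 1 + b * v 2) = 1 + (x * κ + bar (x * κ)) := by
          rw [hκ]
          rw [N_def] at hx1 hz hy1
          rw [N_def, N_def] at hab
          rw [N_def]
          simp only [bar_add, bar_mul, bar_bar]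
          linear_combination (a * bar a * v 1 * bar (v 1)) * hx1 + (a * bar a) * hy1 +
            (b * bar b) * hz + hab
        have h3 : h (M12 (x * a) b hab' • v) (M12 (x * a) b hab' • v) = 1 := by
          rw [SU.h_smul, hv]
        obtain ⟨g, hg, hgv⟩ := case1 (M12 (x * a) b hab' • v) h3 (by
          rw [M12_smul]
          simp only [Matrix.cons_val_zero, Matrix.cons_val_one]
          rw [hnew, hxy, hy1, ← add_assoc, add_self, zero_add]
          exact hxt)
        refine ⟨g * M12 (x * a) b hab', H.mul_mem hg (h12 _ _ _), ?_⟩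
        rw [mul_smul, hgv]
      · have h4 : N (v 1) + N (v 2) ≠ 0 := by
          rw [hz]
          intro h
          apply hy1
          rw [← neg_eq (1 : E)]
          exact eq_neg_of_add_eq_zero_left h
        obtain ⟨a, b, hab, c, hc, hM⟩ := move12 v h4
        have h3 : h (M12 a b hab • v) (M12 a b hab • v) = 1 := by
          rw [SU.h_smul, hv]
        obtain ⟨g, hg, hgv⟩ := case1 (M12 a b hab • v) h3 (by
          rw [hM]
          simp only [Matrix.cons_val_zero, Matrix.cons_val_one]
          rw [N_zero, add_zero, hxy]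
          simpa using hx)
        refine ⟨g * M12 a b hab, H.mul_mem hg (h12 _ _ _), ?_⟩
        rw [mul_smul, hgv]
  · exact case1 v hv h0

/-- the stabilizer of the last basis vector -/
theorem stab_e2 (g : SU E) (hg : g • (e 2 : V E) = e 2) :
    ∃ (a b : E) (hab : N a + N b = 1), g = M01 a b hab := by
  set x : V E := g • e 0 with hx
  set y : V E := g • e 1 with hy
  have hx2 : x 2 = 0 := by
    rw [← h_e_right x 2, hx, ← hg, SU.h_smul, h_e]
    simp
  have hy2 : y 2 = 0 := by
    rw [← h_e_right y 2, hy, ← hg, SU.h_smul, h_e]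
    simp
  have hxx : h x x = 1 := by rw [hx, SU.h_smul, h_e]; simp
  have hyx : h y x = 0 := by rw [hx, hy, SU.h_smul, h_e]; simp
  have hdet : x 0 * y 1 + y 0 * x 1 = 1 := by
    have h1 := (g : SL E).2
    rw [Matrix.det_fin_three] at h1
    have e0 : ∀ j, (g : SL E).1 j 0 = x j := fun j => by rw [← smul_e]; rfl
    have e1 : ∀ j, (g : SL E).1 j 1 = y j := fun j => by rw [← smul_e]; rfl
    have e2 : ∀ j, (g : SL E).1 j 2 = (e 2 : V E) j := fun j => by
      rw [← smul_e]; exact congrFun hg j
    simp only [e0, e1, e2, hx2, hy2] at h1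
    have e20 : (e 2 : V E) 0 = 0 := by simp [e]
    have e21 : (e 2 : V E) 1 = 0 := by simp [e]
    have e22 : (e 2 : V E) 2 = 1 := by simp [e]
    rw [e20, e21, e22] at h1
    have h2 := add_self (y 0 * x 1)
    linear_combination h1 + h2
  simp only [h, hx2, hy2, zero_mul, add_zero] at hxx hyx
  -- `y 0 = bar (x 1)`, `y 1 = bar (x 0)`
  have hy0 : y 0 = bar (x 1) := by
    have h1 := add_self (x 0 * y 1 * bar (x 1))
    linear_combination (-y 0) * hxx + (x 0) * hyx + bar (x 1) * hdet - h1
  have hy1 : y 1 = bar (x 0) := by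
    have h1 := add_self (x 1 * y 0 * bar (x 0))
    linear_combination (-y 1) * hxx + (x 1) * hyx + bar (x 0) * hdet - h1
  refine ⟨x 0, y 0, ?_, ?_⟩
  · rw [N_def, N_def, hy0, bar_bar]
    linear_combination hxx
  · apply SU.ext_e
    intro i
    rw [M01_smul]
    fin_cases i
    · change x = _
      funext j
      fin_cases j
      · simp [e]
      · simp [e, hy0]
      · simp [e, hx2]
    · change y = _
      funext j
      fin_cases j
      · simp [e]
      · simp [e, hy1]
      · simp [e, hy2]
    · change g • e 2 = _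
      rw [hg]
      funext j
      fin_cases j <;> simp [e]

/-- a subgroup containing the blocks is everything -/
theorem eq_top_of_blocks (H : Subgroup (SU E)) (h01 : ∀ a b hab, M01 a b hab ∈ H)
    (h12 : ∀ a b hab, M12 a b hab ∈ H) : H = ⊤ := by
  rw [eq_top_iff]
  intro g _
  obtain ⟨k, hk, hkg⟩ := transitive_of_blocks H h01 h12 (g • e 2)
    (by rw [SU.h_smul, h_e]; simp)
  rw [← mul_smul] at hkg
  obtain ⟨a, b, hab, hM⟩ := stab_e2 _ hkg
  have h1 : k * g ∈ H := by rw [hM]; exact h01 _ _ _
  have h2 := H.mul_mem (H.inv_mem hk) h1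
  rwa [inv_mul_cancel_left] at h2

end Pool.Agent.J4.H5.UF
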