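import Pool.Agent.J4.H5.UF.Points
import Pool.Agent.J4.H5.UF.Fill

set_option autoImplicit false

/-!
# Simplicity of the special unitary group and its action on the isotropic points
-/

namespace Pool.Agent.J4.H5.UF

open HermField MulAction
open scoped LinearAlgebra.Projectivization

variable {E : Type} [HermField E]

/-! ### double transitivity -/

/-- two different points are represented by a hyperbolic pair; the first vector is given -/
theorem exists_hyp {v : V E} {hv0 : v ≠ 0} {hv : h v v = 0} {y : X E} (hy : y ≠ pt v hv0 hv) :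
    ∃ (w : V E) (hw0 : w ≠ 0) (hw : h w w = 0), y = pt w hw0 hw ∧ Hyp v w := by
  obtain ⟨w, hw0, hw, rfl⟩ := y.exists_rep
  have hvw : h v w ≠ 0 := by
    intro h0
    obtain ⟨c, hc⟩ := exists_smul_of_h_eq_zero hv hw h0 hv0
    exact hy (pt_eq_iff.2 ⟨c, hc.symm⟩)
  set c : E := bar (h v w)⁻¹ with hc
  have hc0 : c ≠ 0 := bar_ne_zero (inv_ne_zero hvw)
  have hw' : h (c • w) (c • w) = 0 := by rw [h_smul_left, h_smul_right, hw, mul_zero, mul_zero]
  refine ⟨c • w, smul_ne_zero hc0 hw0, hw', ?_, ?_, ?_, ?_⟩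
  · refine pt_eq_iff.2 ⟨c⁻¹, ?_⟩
    rw [smul_smul, inv_mul_cancel₀ hc0, one_smul]
  · exact hv
  · exact hw'
  · rw [h_smul_right, hc, bar_bar, inv_mul_cancel₀ hvw]

theorem two_trans (a b c d : X E) (hab : a ≠ b) (hcd : c ≠ d) :
    ∃ g : SU E, g • a = c ∧ g • b = d := by
  obtain ⟨v, hv0, hv, rfl⟩ := a.exists_rep
  obtain ⟨v', hv0', hv', rfl⟩ := c.exists_rep
  obtain ⟨w, hw0, hw, rfl, H⟩ := exists_hyp hab.symm
  obtain ⟨w', hw0', hw', rfl, H'⟩ := exists_hyp hcd.symm
  obtain ⟨g, hgv, hgw⟩ := exists_move H H'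
  refine ⟨g, ?_, ?_⟩
  · rw [smul_pt, pt_eq_iff]
    exact ⟨1, by rw [one_smul, hgv]⟩
  · rw [smul_pt, pt_eq_iff]
    exact ⟨1, by rw [one_smul, hgw]⟩

/-! ### the vector with a regular stabilizer -/

theorem iso_ok {b : E} (hb : N b = 1) : h (![b, 1, 0] : V E) ![b, 1, 0] = 0 := by
  rw [h_self]
  simp only [Matrix.cons_val_zero, Matrix.cons_val_one, Matrix.cons_val, hb, N_one, N_zero]
  rw [add_zero, add_self]

theorem iso_ok' {b : E} (hb : N b = 1) : h (![0, b, 1] : V E) ![0, b, 1] = 0 := by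
  rw [h_self]
  simp only [Matrix.cons_val_zero, Matrix.cons_val_one, Matrix.cons_val, hb, N_one, N_zero]
  rw [zero_add, add_self]

theorem iso_ok'' {b : E} (hb : N b = 1) : h (![1, 0, b] : V E) ![1, 0, b] = 0 := by
  rw [h_self]
  simp only [Matrix.cons_val_zero, Matrix.cons_val_one, Matrix.cons_val, hb, N_one, N_zero]
  rw [add_zero, add_self]

theorem iso_ne {b : E} : (![b, 1, 0] : V E) ≠ 0 := by
  intro h0
  have := congrFun h0 1
  simp at this

theorem iso_ne' {b : E} : (![0, b, 1] : V E) ≠ 0 := by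
  intro h0
  have := congrFun h0 2
  simp at this

theorem iso_ne'' {b : E} : (![1, 0, b] : V E) ≠ 0 := by
  intro h0
  have := congrFun h0 0
  simp at this

/-- the points of the first line -/
def p01 (b : E) (hb : N b = 1) : X E := pt ![b, 1, 0] iso_ne (iso_ok hb)

theorem three_le : 3 ≤ Nat.card (X E) := by
  have hfin : Finite (X E) := by
    unfold X
    infer_instance
  have h1 : Nat.card {b : E // N b = 1} = Q E + 1 := by
    rw [← card_N1f, ← Nat.card_eq_finsetCard]
    exact Nat.card_congr (Equiv.subtypeEquivRight fun x => mem_N1f.symm)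
  have h2 : Nat.card {b : E // N b = 1} ≤ Nat.card (X E) := by
    refine Nat.card_le_card_of_injective (fun b => p01 b.1 b.2) ?_
    rintro ⟨b, hb⟩ ⟨b', hb'⟩ hbb
    obtain ⟨c, hc⟩ := pt_eq_iff.1 hbb
    have e1 := congrFun hc 1
    have e0 := congrFun hc 0
    simp at e0 e1
    rw [e1, one_mul] at e0
    exact Subtype.ext e0.symm
  have h3 : 4 ≤ Q E := four_le
  omega

/-- **The split pair.** -/
theorem bn_pair : ∃ (X : Type) (φ : SU E →* Equiv.Perm X), Finite X ∧ 3 ≤ Nat.card X ∧
    (∀ a b c d : X, a ≠ b → c ≠ d → ∃ g : SU E, φ g a = c ∧ φ g b = d) ∧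
      ∃ (x : X) (U : Subgroup (SU E)),
        (∀ u ∈ U, φ u x = x) ∧
        (∀ u ∈ U, ∀ h : SU E, φ h x = x → h * u * h⁻¹ ∈ U) ∧
        ∀ y z : X, y ≠ x → z ≠ x → ∃! u : SU E, u ∈ U ∧ φ u y = z := by
  set v : V E := ![1, 1, 0] with hv
  have hv0 : v ≠ 0 := iso_ne
  have hvv : h v v = 0 := iso_ok N_one
  refine ⟨X E, toPermHom (SU E) (X E), ?_, three_le, ?_, pt v hv0 hvv, stabilizer (SU E) v, ?_, ?_,
    ?_⟩
  · unfold X
    infer_instance
  · intro a b c d hab hcd
    exact two_trans a b c d hab hcd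
  · intro u hu
    change u • pt v hv0 hvv = pt v hv0 hvv
    rw [smul_pt, pt_eq_iff]
    exact ⟨1, by rw [one_smul]; exact hu.symm⟩
  · intro u hu g hg
    change g • pt v hv0 hvv = pt v hv0 hvv at hg
    rw [smul_pt, pt_eq_iff] at hg
    obtain ⟨c, hc⟩ := hg
    have hc0 : c ≠ 0 := by
      rintro rfl
      rw [zero_smul] at hc
      exact SU.smul_ne_zero g hv0 hc.symm
    have hg' : g⁻¹ • v = c⁻¹ • v := by
      rw [inv_smul_eq_iff, smul_comm, ← hc, smul_smul, inv_mul_cancel₀ hc0, one_smul]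
    change (g * u * g⁻¹) • v = v
    have hu' : u • v = v := hu
    rw [mul_smul, mul_smul, hg', smul_comm u, hu', smul_comm g, ← hc, smul_smul,
      inv_mul_cancel₀ hc0, one_smul]
  · intro y z hy hz
    obtain ⟨w, hw0, hw, rfl, H⟩ := exists_hyp hy
    obtain ⟨w', hw0', hw', rfl, H'⟩ := exists_hyp hz
    obtain ⟨g, hgv, hgw⟩ := exists_move H H'
    refine ⟨g, ⟨hgv, ?_⟩, ?_⟩
    · change g • pt w hw0 hw = pt w' hw0' hw'
      rw [smul_pt, pt_eq_iff]
      exact ⟨1, by rw [one_smul, hgw]⟩
    · rintro g' ⟨hg'v, hg'w⟩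
      change g' • pt w hw0 hw = pt w' hw0' hw' at hg'w
      rw [smul_pt, pt_eq_iff] at hg'w
      obtain ⟨c, hc⟩ := hg'w
      have hg'v' : g' • v = v := hg'v
      have h1 : h v (g' • w) = 1 := by
        rw [← hg'v', SU.h_smul, H.vw]
      rw [← hc, h_smul_right, H'.vw, mul_one] at h1
      have h2 : c = 1 := by
        rw [← bar_bar c, h1, bar_one]
      apply eq_of_fix H
      · rw [hg'v', hgv]
      · rw [← hc, h2, one_smul, hgw]

/-! ### transvections -/

/-- the transvections at a point -/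
def Tr (x : X E) : Subgroup (SU E) where
  carrier := {g | ∃ c : E, bar c = c ∧ ∀ w : V E, g • w = w + (c * h w x.1.rep) • x.1.rep}
  mul_mem' := by
    rintro a b ⟨c, hc, ha⟩ ⟨d, hd, hb⟩
    refine ⟨c + d, by rw [bar_add, hc, hd], fun w => ?_⟩
    rw [mul_smul, hb, ha, h_add_left, h_smul_left, x.2, mul_zero, add_zero, add_mul, add_smul]
    abel
  one_mem' := ⟨0, bar_zero, fun w => by rw [one_smul, zero_mul, zero_smul, add_zero]⟩
  inv_mem' := by
    rintro a ⟨c, hc, ha⟩
    refine ⟨c, hc, fun w => ?_⟩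
    rw [inv_smul_eq_iff, ha, h_add_left, h_smul_left, x.2, mul_zero, add_zero]
    have h1 : (c * h w x.1.rep) • x.1.rep + (c * h w x.1.rep) • x.1.rep = 0 := by
      rw [← add_smul, add_self, zero_smul]
    rw [add_assoc, h1, add_zero]

theorem mem_Tr_iff {g : SU E} {v : V E} {hv0 : v ≠ 0} {hv : h v v = 0} :
    g ∈ Tr (pt v hv0 hv) ↔ ∃ c : E, bar c = c ∧ ∀ w : V E, g • w = w + (c * h w v) • v := by
  set r := (pt v hv0 hv).1.rep with hr
  obtain ⟨a, ha⟩ : ∃ a : E, a • r = v := by
    have h1 := (Projectivization.mk_eq_mk_iff' E v r hv0 (Projectivization.rep_nonzero _)).1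
      (Projectivization.mk_rep (pt v hv0 hv).1).symm
    exact h1
  have ha0 : a ≠ 0 := by
    rintro rfl
    rw [zero_smul] at ha
    exact hv0 ha.symm
  have hN0 : N a ≠ 0 := by simpa using ha0
  constructor
  · rintro ⟨c, hc, hg⟩
    refine ⟨c / N a, by rw [bar_div, hc, bar_N], fun w => ?_⟩
    rw [hg w, ← hr, ← ha, h_smul_right, smul_smul]
    congr 2
    have hba := bar_ne_zero ha0
    rw [N_def]
    field_simp
  · rintro ⟨c, hc, hg⟩
    refine ⟨c * N a, by rw [bar_mul, hc, bar_N], fun w => ?_⟩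
    rw [hg w, ← hr, ← ha, h_smul_right, smul_smul]
    congr 2
    rw [N_def]
    ring

open scoped Pointwise in
theorem Tr_smul (g : SU E) (x : X E) : Tr (g • x) = MulAut.conj g • Tr x := by
  obtain ⟨v, hv0, hv, rfl⟩ := x.exists_rep
  ext k
  rw [smul_pt, mem_Tr_iff, Subgroup.mem_smul_pointwise_iff_exists]
  constructor
  · rintro ⟨c, hc, hk⟩
    refine ⟨g⁻¹ * k * g, mem_Tr_iff.2 ⟨c, hc, fun w => ?_⟩, ?_⟩
    · rw [mul_smul, mul_smul, hk, SU.h_smul, smul_add, inv_smul_smul, smul_comm g⁻¹, inv_smul_smul]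
    · rw [MulAut.smul_def, MulAut.conj_apply]
      group
  · rintro ⟨k', hk', rfl⟩
    obtain ⟨c, hc, hk⟩ := mem_Tr_iff.1 hk'
    refine ⟨c, hc, fun w => ?_⟩
    rw [MulAut.smul_def, MulAut.conj_apply, mul_smul, mul_smul, hk, smul_add, smul_inv_smul,
      smul_comm g]
    congr 3
    rw [← SU.h_smul g, smul_inv_smul]

theorem Tr_comm (x : X E) : IsMulCommutative (Tr x) := by
  refine ⟨⟨?_⟩⟩
  rintro ⟨a, c, hc, ha⟩ ⟨b, d, hd, hb⟩
  apply Subtype.ext
  apply SU.ext_e
  intro i
  change (a * b) • (e i : V E) = (b * a) • e i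
  rw [mul_smul, mul_smul, hb, ha, hb, ha, h_add_left, h_add_left, h_smul_left, h_smul_left, x.2]
  simp only [mul_zero, add_zero]
  abel

theorem M01_zero_mem {b : E} (hb : N b = 1) (h0 : N (0 : E) + N b = 1) :
    M01 0 b h0 ∈ Tr (pt ![b, 1, 0] iso_ne (iso_ok hb)) := by
  rw [mem_Tr_iff]
  refine ⟨1, bar_one, fun w => ?_⟩
  rw [M01_smul]
  rw [N_def] at hb
  funext i
  fin_cases i
  · simp [h]
    linear_combination (-w 0) * hb - add_self (w 0)
  · simp [h]
    linear_combination - add_self (w 1)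
  · simp [h]

theorem cc_ok {c : E} (hc : bar c = c) : N (1 + c) + N c = 1 := by
  rw [N_def, N_def, bar_add, hc, bar_one]
  linear_combination (add_self c) + add_self (c * c)

theorem M01_cc_mem {c : E} (hc : bar c = c) :
    M01 (1 + c) c (cc_ok hc) ∈ Tr (pt (![1, 1, 0] : V E) iso_ne (iso_ok N_one)) := by
  rw [mem_Tr_iff]
  refine ⟨c, hc, fun w => ?_⟩
  rw [M01_smul, hc, bar_add, hc, bar_one]
  funext i
  fin_cases i
  · simp [h]
    ring
  · simp [h]
    ring
  · simp [h]

theorem sw12_mem : (sw12 : SU E) ∈ Tr (pt (![0, 1, 1] : V E) iso_ne' (iso_ok' N_one)) := by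
  rw [mem_Tr_iff]
  refine ⟨1, bar_one, fun w => ?_⟩
  rw [sw12, M12_smul]
  funext i
  fin_cases i
  · simp [h]
  · simp [h]
    linear_combination - add_self (w 1)
  · simp [h]
    linear_combination - add_self (w 2)

/-! ### generation -/

theorem M12_eq (a b : E) (hab : N a + N b = 1) :
    M12 a b hab = (sw01 * sw12) * M01 a b hab * (sw01 * sw12)⁻¹ := by
  have key : M12 a b hab * (sw01 * sw12) = (sw01 * sw12) * M01 a b hab := by
    apply SU.ext_e
    intro i
    rw [mul_smul, mul_smul, mul_smul, mul_smul]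
    fin_cases i
    · change M12 a b hab • sw01 • sw12 • (e 0 : V E) = sw01 • sw12 • M01 a b hab • e 0
      rw [sw12_e0, sw01_e0, sw01, sw12, M01_smul, M12_smul, M01_smul, M12_smul]
      funext j
      fin_cases j <;> simp [e]
    · change M12 a b hab • sw01 • sw12 • (e 1 : V E) = sw01 • sw12 • M01 a b hab • e 1
      rw [sw12_e1, sw01_e2, sw01, sw12, M01_smul, M12_smul, M01_smul, M12_smul]
      funext j
      fin_cases j <;> simp [e]
    · change M12 a b hab • sw01 • sw12 • (e 2 : V E) = sw01 • sw12 • M01 a b hab • e 2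
      rw [sw12_e2, sw01_e1, sw01, sw12, M01_smul, M12_smul, M01_smul, M12_smul]
      funext j
      fin_cases j <;> simp [e]
  rw [← key, mul_inv_cancel_right]

theorem sw12_conj : (sw12 : SU E) = (sw01 * sw12) * sw01 * (sw01 * sw12)⁻¹ := by
  have := M12_eq (E := E) 0 1 sw_ok
  exact this

/-- a subgroup containing the first block and the second swap is everything -/
theorem eq_top_of_block (H : Subgroup (SU E)) (h01 : ∀ a b hab, M01 a b hab ∈ H)
    (hs : sw12 ∈ H) : H = ⊤ := by
  refine eq_top_of_blocks H h01 fun a b hab => ?_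
  have h1 : sw01 * sw12 ∈ H := H.mul_mem (h01 _ _ _) hs
  rw [M12_eq]
  exact H.mul_mem (H.mul_mem h1 (h01 _ _ _)) (H.inv_mem h1)

theorem T01_eq {x : E} (hx : N x = 1) (h0 : N (0 : E) + N x = 1) :
    T01 x hx = M01 0 x h0 * sw01 := by
  rw [T01, sw01, M01_mul]
  apply M01_congr
  · simp
  · simp

theorem Tr_generate : iSup (Tr : X E → Subgroup (SU E)) = ⊤ := by
  set H := iSup (Tr : X E → Subgroup (SU E)) with hH
  have hle : ∀ x, Tr x ≤ H := fun x => le_iSup Tr x
  have h0 : ∀ (b : E) (hb : N (0 : E) + N b = 1), M01 0 b hb ∈ H := by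
    intro b hb
    have hb' : N b = 1 := by rwa [N_zero, zero_add] at hb
    exact hle _ (M01_zero_mem hb' hb)
  have htor : ∀ x hx, T01 (x : E) hx ∈ H := by
    intro x hx
    have hx' : N (0 : E) + N x = 1 := by rw [N_zero, zero_add, hx]
    rw [T01_eq hx hx']
    exact H.mul_mem (h0 _ _) (h0 _ _)
  obtain ⟨c, hc, hc0, hc1⟩ := exists_fixed (E := E)
  have hc' : 1 + c ≠ 0 := by
    intro h
    apply hc1
    rw [← neg_eq (1 : E)]
    exact (eq_neg_of_add_eq_zero_right h)
  refine eq_top_of_block H (fun a b hab => ?_) (hle _ sw12_mem)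
  exact fill H htor (hle _ (M01_cc_mem hc)) hc' hc0 a b hab

/-- **Perfectness.** -/
theorem perfect : commutator (SU E) = ⊤ := by
  set H := commutator (SU E) with hH
  have hcomm : ∀ a b : SU E, a * b * a⁻¹ * b⁻¹ ∈ H := by
    intro a b
    rw [hH, commutator_def]
    exact Subgroup.commutator_mem_commutator (Subgroup.mem_top a) (Subgroup.mem_top b)
  have hnorm : H.Normal := by rw [hH]; infer_instance
  have sq01 : (sw01 : SU E) * sw01 = 1 := by
    rw [sw01, M01_mul]
    apply SU.ext_e
    intro i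
    rw [M01_smul, one_smul]
    funext j
    fin_cases i <;> fin_cases j <;> simp [e]
  have inv01 : (sw01 : SU E)⁻¹ = sw01 := inv_eq_of_mul_eq_one_left sq01
  have htor : ∀ x hx, T01 (x : E) hx ∈ H := by
    intro x hx
    obtain ⟨y, hy, hy2⟩ := exists_sqrt_N (x := bar x) (by rw [N_bar, hx])
    have hyb : N (bar y) = 1 := by rw [N_bar, hy]
    have hTinv : (T01 y hy)⁻¹ = T01 (bar y) hyb := by
      apply inv_eq_of_mul_eq_one_left
      rw [T01, T01, M01_mul]
      apply SU.ext_e
      intro i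
      rw [M01_smul, one_smul]
      rw [N_def] at hy
      have hy' : bar y * y = 1 := by rw [mul_comm]; exact hy
      funext j
      fin_cases i <;> fin_cases j <;> simp [e, hy, hy']
    have h1 := hcomm sw01 (T01 y hy)
    rw [inv01, hTinv] at h1
    have h2 : sw01 * T01 y hy * sw01 * T01 (bar y) hyb = T01 x hx := by
      rw [T01, T01, T01, sw01, M01_mul, M01_mul, M01_mul]
      apply M01_congr
      · simp only [bar_zero, bar_one, zero_mul, mul_zero, mul_one, add_zero, zero_add, one_mul]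
        rw [← bar_bar x, ← hy2, bar_pow, sq]
      · simp
    rwa [h2] at h1
  -- one more element
  obtain ⟨a, b, hab, ha, hb⟩ := exists_pair (E := E)
  have hex : ∃ x : E, N x = 1 ∧ x ≠ 1 := by
    by_contra hcon
    push Not at hcon
    have h1 : N1f E ⊆ {1} := by
      intro x hx
      rw [Finset.mem_singleton]
      exact hcon x (mem_N1f.1 hx)
    have h2 := Finset.card_le_card h1
    rw [card_N1f, Finset.card_singleton] at h2
    have h3 : 4 ≤ Q E := four_le
    omega
  obtain ⟨x, hx, hx1⟩ := hex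
  have hxx : x + bar x ≠ 0 := by
    intro h
    apply hx1
    apply eq_one_of_N _ hx
    have h1 := eq_neg_of_add_eq_zero_right h
    rwa [neg_eq] at h1
  have hx2 : N a * x + N b * bar x ≠ 0 := by
    intro h
    have hNb : N b ≠ 0 := by simpa using hb
    have hNa : N a ≠ 0 := by simpa using ha
    have e1 : N a * x ^ 2 = N b := by
      have e2 : N a * x ^ 2 + N b = 0 := by
        rw [N_def x] at hx
        linear_combination x * h - N b * hx
      have e3 := eq_neg_of_add_eq_zero_left e2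
      rwa [neg_eq] at e3
    have e4 : bar (x ^ 2) = x ^ 2 := by
      have e5 := congrArg bar e1
      rw [bar_mul, bar_N, bar_N, ← e1] at e5
      exact mul_left_cancel₀ hNa e5
    have e6 : x ^ 2 = 1 := eq_one_of_N e4 (by rw [sq, N_mul, hx, one_mul])
    exact hx1 (sq_inj (by rw [e6, one_pow]))
  have hinv : (M01 a b hab)⁻¹ = M01 (bar a) b (by rw [N_bar, hab]) := by
    apply inv_eq_of_mul_eq_one_left
    rw [M01_mul]
    apply SU.ext_e
    intro i
    rw [M01_smul, one_smul]
    rw [N_def, N_def] at hab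
    have h1 : bar a * a + b * bar b = 1 := by rw [mul_comm (bar a)]; exact hab
    have h2 : bar a * b + b * bar a = 0 := by
      have := add_self (b * bar a)
      linear_combination this
    have h3 : a * bar b + bar b * a = 0 := by
      have := add_self (a * bar b)
      linear_combination this
    have h4 : a * bar a + bar b * b = 1 := by rw [mul_comm (bar b)]; exact hab
    funext j
    fin_cases i <;> fin_cases j <;> simp [e, h1, h2, h3, h4]
  have hmem : M01 a b hab * T01 x hx * (M01 a b hab)⁻¹ ∈ H := hnorm.conj_mem _ (htor x hx) _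
  rw [hinv, T01, M01_mul, M01_mul] at hmem
  refine eq_top_of_block H (fun c d hcd => ?_) ?_
  · refine fill H htor hmem ?_ ?_ c d hcd
    · simp only [mul_zero, zero_add, bar_zero, add_zero]
      intro h
      apply hx2
      rw [N_def, N_def]
      linear_combination h
    · simp only [mul_zero, zero_add, bar_zero, add_zero, bar_bar]
      intro h
      apply mul_ne_zero (mul_ne_zero ha hb) hxx
      linear_combination h
  · have h01 : ∀ c d hcd, M01 c d hcd ∈ H := by
      intro c d hcd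
      refine fill H htor hmem ?_ ?_ c d hcd
      · simp only [mul_zero, zero_add, bar_zero, add_zero]
        intro h
        apply hx2
        rw [N_def, N_def]
        linear_combination h
      · simp only [mul_zero, zero_add, bar_zero, add_zero, bar_bar]
        intro h
        apply mul_ne_zero (mul_ne_zero ha hb) hxx
        linear_combination h
    rw [sw12_conj]
    exact hnorm.conj_mem _ (h01 _ _ _) _

/-! ### faithfulness -/

theorem faithful (hQ : Nat.Coprime 3 (Q E + 1)) : FaithfulSMul (SU E) (X E) := by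
  rw [faithfulSMul_iff]
  intro g hg
  have hfix : ∀ v : V E, v ≠ 0 → h v v = 0 → ∃ c : E, c ≠ 0 ∧ g • v = c • v := by
    intro v hv0 hv
    have h1 := hg (pt v hv0 hv)
    rw [smul_pt, pt_eq_iff] at h1
    obtain ⟨c, hc⟩ := h1
    refine ⟨c, ?_, hc.symm⟩
    rintro rfl
    rw [zero_smul] at hc
    exact SU.smul_ne_zero g hv0 hc.symm
  have horth : ∀ (u v : V E), v ≠ 0 → h v v = 0 → h u v = 0 → h (g • u) v = 0 := by
    intro u v hv0 hv huv
    obtain ⟨c, hc0, hc⟩ := hfix v hv0 hv
    have h1 : h (g • u) (g • v) = 0 := by rw [SU.h_smul, huv]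
    rw [hc, h_smul_right] at h1
    exact (mul_eq_zero.1 h1).resolve_left (bar_ne_zero hc0)
  have hex : ∃ x : E, N x = 1 ∧ x ≠ 1 := by
    by_contra hcon
    push Not at hcon
    have h1 : N1f E ⊆ {1} := by
      intro x hx
      rw [Finset.mem_singleton]
      exact hcon x (mem_N1f.1 hx)
    have h2 := Finset.card_le_card h1
    rw [card_N1f, Finset.card_singleton] at h2
    have h3 : 4 ≤ Q E := four_le
    omega
  obtain ⟨b, hb, hb1⟩ := hex
  have hb1' : bar b - 1 ≠ 0 := by
    intro h
    apply hb1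
    rw [← bar_bar b, sub_eq_zero.1 h, bar_one]
  -- the images of the basis vectors
  have z2 : (g • (e 2 : V E)) 0 = 0 ∧ (g • (e 2 : V E)) 1 = 0 := by
    have h1 := horth (e 2) ![1, 1, 0] iso_ne (iso_ok N_one) (by simp [h, e])
    have h2 := horth (e 2) ![b, 1, 0] iso_ne (iso_ok hb) (by simp [h, e])
    simp only [h, Matrix.cons_val_zero, Matrix.cons_val_one, Matrix.cons_val, bar_one, bar_zero,
      mul_one, mul_zero, add_zero] at h1 h2
    have h3 : (g • (e 2 : V E)) 0 = 0 := by
      have : (g • (e 2 : V E)) 0 * (bar b - 1) = 0 := by linear_combination h2 - h1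
      exact (mul_eq_zero.1 this).resolve_right hb1'
    refine ⟨h3, ?_⟩
    rw [h3, zero_add] at h1
    exact h1
  have z0 : (g • (e 0 : V E)) 1 = 0 ∧ (g • (e 0 : V E)) 2 = 0 := by
    have h1 := horth (e 0) ![0, 1, 1] iso_ne' (iso_ok' N_one) (by simp [h, e])
    have h2 := horth (e 0) ![0, b, 1] iso_ne' (iso_ok' hb) (by simp [h, e])
    simp only [h, Matrix.cons_val_zero, Matrix.cons_val_one, Matrix.cons_val, bar_one, bar_zero,
      mul_one, mul_zero, zero_add] at h1 h2
    have h3 : (g • (e 0 : V E)) 1 = 0 := by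
      have : (g • (e 0 : V E)) 1 * (bar b - 1) = 0 := by linear_combination h2 - h1
      exact (mul_eq_zero.1 this).resolve_right hb1'
    refine ⟨h3, ?_⟩
    rw [h3, zero_add] at h1
    exact h1
  have z1 : (g • (e 1 : V E)) 0 = 0 ∧ (g • (e 1 : V E)) 2 = 0 := by
    have h1 := horth (e 1) ![1, 0, 1] iso_ne'' (iso_ok'' N_one) (by simp [h, e])
    have h2 := horth (e 1) ![1, 0, b] iso_ne'' (iso_ok'' hb) (by simp [h, e])
    simp only [h, Matrix.cons_val_zero, Matrix.cons_val_one, Matrix.cons_val, bar_one, bar_zero,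
      mul_one, mul_zero, add_zero] at h1 h2
    have h3 : (g • (e 1 : V E)) 2 = 0 := by
      have : (g • (e 1 : V E)) 2 * (bar b - 1) = 0 := by linear_combination h2 - h1
      exact (mul_eq_zero.1 this).resolve_right hb1'
    refine ⟨?_, h3⟩
    rw [h3, add_zero] at h1
    exact h1
  set x := (g • (e 0 : V E)) 0 with hx
  set y := (g • (e 1 : V E)) 1 with hy
  set z := (g • (e 2 : V E)) 2 with hz
  have g0 : g • (e 0 : V E) = x • e 0 := by
    funext j
    fin_cases j
    · simp [e, hx]
    · simpa [e] using z0.1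
    · simpa [e] using z0.2
  have g1 : g • (e 1 : V E) = y • e 1 := by
    funext j
    fin_cases j
    · simpa [e] using z1.1
    · simp [e, hy]
    · simpa [e] using z1.2
  have g2 : g • (e 2 : V E) = z • e 2 := by
    funext j
    fin_cases j
    · simpa [e] using z2.1
    · simpa [e] using z2.2
    · simp [e, hz]
  have hxy : x = y := by
    obtain ⟨c, hc0, hc⟩ := hfix ![1, 1, 0] iso_ne (iso_ok N_one)
    have e1 : (![1, 1, 0] : V E) = e 0 + e 1 := by
      funext j
      fin_cases j <;> simp [e]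
    rw [e1, smul_add, g0, g1] at hc
    have c0 := congrFun hc 0
    have c1 := congrFun hc 1
    simp [e] at c0 c1
    rw [c0, c1]
  have hyz : y = z := by
    obtain ⟨c, hc0, hc⟩ := hfix ![0, 1, 1] iso_ne' (iso_ok' N_one)
    have e1 : (![0, 1, 1] : V E) = e 1 + e 2 := by
      funext j
      fin_cases j <;> simp [e]
    rw [e1, smul_add, g1, g2] at hc
    have c0 := congrFun hc 1
    have c1 := congrFun hc 2
    simp [e] at c0 c1
    rw [c0, c1]
  have hN : N x = 1 := by
    have h1 : h (g • (e 0 : V E)) (g • (e 0 : V E)) = 1 := by rw [SU.h_smul, h_e]; simp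
    rw [g0, h_smul_left, h_smul_right, h_e] at h1
    simpa [N_def] using h1
  have hdet : x ^ 3 = 1 := by
    have h1 := (g : SL E).2
    rw [Matrix.det_fin_three] at h1
    have e0 : ∀ j, (g : SL E).1 j 0 = (x • e 0 : V E) j := fun j => by
      rw [← smul_e]; exact congrFun g0 j
    have e1 : ∀ j, (g : SL E).1 j 1 = (y • e 1 : V E) j := fun j => by
      rw [← smul_e]; exact congrFun g1 j
    have e2 : ∀ j, (g : SL E).1 j 2 = (z • e 2 : V E) j := fun j => by
      rw [← smul_e]; exact congrFun g2 j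
    simp only [e0, e1, e2, ← hyz, ← hxy] at h1
    simp [e] at h1
    rw [← h1]
    ring
  have hpow : x ^ (Q E + 1) = 1 := by
    rw [pow_succ, ← bar_eq, mul_comm]
    exact hN
  have hx1 : x = 1 := by
    have h1 : orderOf x ∣ 3 := orderOf_dvd_of_pow_eq_one hdet
    have h2 : orderOf x ∣ Q E + 1 := orderOf_dvd_of_pow_eq_one hpow
    have h3 : orderOf x ∣ 1 := by
      rw [← hQ]
      exact Nat.dvd_gcd h1 h2
    exact orderOf_eq_one_iff.1 (Nat.dvd_one.1 h3)
  apply SU.ext_e
  intro i
  rw [one_smul]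
  fin_cases i
  · change g • (e 0 : V E) = e 0
    rw [g0, hx1, one_smul]
  · change g • (e 1 : V E) = e 1
    rw [g1, ← hxy, hx1, one_smul]
  · change g • (e 2 : V E) = e 2
    rw [g2, ← hyz, ← hxy, hx1, one_smul]

instance : Nontrivial (SU E) := by
  refine ⟨⟨sw01, 1, ?_⟩⟩
  intro h
  have h1 : (sw01 : SU E) • (e 0 : V E) = e 0 := by rw [h, one_smul]
  rw [sw01_e0] at h1
  have := congrFun h1 0
  simp [e] at this

/-- **Simplicity.** -/
theorem isSimple (hQ : Nat.Coprime 3 (Q E + 1)) : IsSimpleGroup (SU E) := by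
  have h2 : IsMultiplyPretransitive (SU E) (X E) 2 := by
    rw [is_two_pretransitive_iff]
    intro a b c d hab hcd
    exact two_trans a b c d hab hcd
  have h3 : IsPreprimitive (SU E) (X E) := isPreprimitive_of_is_two_pretransitive h2
  have h4 : IsQuasiPreprimitive (SU E) (X E) := inferInstance
  exact IwasawaStructure.isSimpleGroup perfect
    ⟨Tr, Tr_comm, Tr_smul, Tr_generate⟩ (faithful hQ)

end Pool.Agent.J4.H5.UF
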